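import Pool.Agent.Helper2.SP.Defs

/-!
# Block SP-AG: algebra of a two dimensional block

Characteristic two. `T u = v`, `T v = u + κ • v`, `u`, `v` independent. On the span of `u`, `v`: `T² = κ T + 1`, so `T² + T + 1 = (κ + 1) T`,
`y = T⁵ + T³ + T = T (T² + T + 1)² = (κ + 1)² T³`, and `y³ + y = y (y² + 1)`. Suppose `κ ≠ 1`. `y³ + y` kills `T u` and `T v`, so it kills the
span of `u`, `v` (`T` is bijective on it: `u = T v - κ • T u`), and `y` is bijective on it, so `y² + 1 = (κ + 1)⁴ T⁶ + 1` kills it. `T⁶ u = (κ⁴ + κ² + 1) • u +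
(κ⁵ + κ) • v` (`T³ u = κ • u + (κ² + 1) • v`), so the coefficient `(κ + 1)⁴ (κ⁵ + κ)` of `v` is `0`: `κ (κ + 1)⁴ (κ + 1)⁴ = 0`, so `κ = 0`.
(It may be easier to write all `T^n u`, `T^n v` in the basis, or to compute with `2 × 2` coefficients.)
-/

set_option autoImplicit false
set_option linter.unusedSectionVars false

open LinearMap

namespace Pool.Agent.Helper2.SP

open Pool.Agent.Helper81.UT Pool.Agent.Helper81.EU
open Pool.Agent.Helper2.EV hiding one_add_sq Pres core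

variable {K V : Type*} [Field K] [StarRing K] [AddCommGroup V] [Module K V] [CharP K 2] [Finite K]
  [FiniteDimensional K V] {h : V → V → K} {j : ℕ} {b : Prop}

theorem block_alg {T : Module.End K V} {u v : V} {κ : K} (hTu : T u = v)
    (hTv : T v = u + κ • v) (hli : ∀ c d : K, c • u + d • v = 0 → c = 0 ∧ d = 0)
    (h1 : ((T ^ 5 + T ^ 3 + T) ^ 3 + (T ^ 5 + T ^ 3 + T)) (T u) = 0)
    (h2 : ((T ^ 5 + T ^ 3 + T) ^ 3 + (T ^ 5 + T ^ 3 + T)) (T v) = 0) : κ = 0 ∨ κ = 1 := by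
  have two : (2 : K) = 0 := CharTwo.two_eq_zero
  have hf : ∀ a c : K, T (a • u + c • v) = c • u + (a + κ * c) • v := by
    intro a c
    rw [map_add, map_smul, map_smul, hTu, hTv]
    module
  have hy : ∀ a c : K, (T ^ 5 + T ^ 3 + T) (a • u + c • v)
      = ((1 + κ ^ 2) * (κ * a + (1 + κ ^ 2) * c)) • u
        + ((1 + κ ^ 2) * ((1 + κ ^ 2) * a + κ ^ 3 * c)) • v := by
    intro a c
    have e1 : (T ^ 5 + T ^ 3 + T) (a • u + c • v)
        = T (T (T (T (T (a • u + c • v))))) + T (T (T (a • u + c • v))) + T (a • u + c • v) := by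
      simp only [LinearMap.add_apply, pow_succ, pow_zero, one_mul, Module.End.mul_apply]
    rw [e1]
    simp only [hf]
    have d1 : ((1 + κ ^ 2) * (κ * a + (1 + κ ^ 2) * c)) =
        ((1 + κ ^ 2) * (κ * a + (1 + κ ^ 2) * c)) + 2 * (c + κ * a + κ ^ 2 * c) := by
      rw [two]; ring
    have d2 : ((1 + κ ^ 2) * ((1 + κ ^ 2) * a + κ ^ 3 * c)) =
        ((1 + κ ^ 2) * ((1 + κ ^ 2) * a + κ ^ 3 * c))
          + 2 * (a + 3 * κ * c + κ ^ 2 * a + 2 * κ ^ 3 * c) := by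
      rw [two]; ring
    rw [d1, d2]
    module
  have hE : ((T ^ 5 + T ^ 3 + T) ^ 3 + (T ^ 5 + T ^ 3 + T)) (T u)
      = (T ^ 5 + T ^ 3 + T) ((T ^ 5 + T ^ 3 + T) ((T ^ 5 + T ^ 3 + T) ((0 : K) • u + (1 : K) • v)))
        + (T ^ 5 + T ^ 3 + T) ((0 : K) • u + (1 : K) • v) := by
    have e0 : (0 : K) • u + (1 : K) • v = T u := by rw [hTu]; module
    rw [e0]
    generalize (T ^ 5 + T ^ 3 + T) = y
    simp only [LinearMap.add_apply, pow_succ, pow_zero, one_mul, Module.End.mul_apply]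
  rw [hE] at h1
  simp only [hy] at h1
  have h3 : (2 + 9 * κ ^ 2 + 21 * κ ^ 4 + 31 * κ ^ 6 + 29 * κ ^ 8 + 17 * κ ^ 10 + 6 * κ ^ 12
        + κ ^ 14) • u
      + (κ + 8 * κ ^ 3 + 21 * κ ^ 5 + 30 * κ ^ 7 + 26 * κ ^ 9 + 14 * κ ^ 11 + 5 * κ ^ 13
        + κ ^ 15) • v = 0 := by
    rw [← h1]
    module
  obtain ⟨q1, q2⟩ := hli _ _ h3
  have key : κ * (1 + κ ^ 2) ^ 5 = 0 := by
    linear_combination κ ^ 3 * q1 + (1 + κ ^ 2) * q2 + (-3 * κ ^ 3 - 14 * κ ^ 5 - 31 * κ ^ 7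
      - 41 * κ ^ 9 - 34 * κ ^ 11 - 18 * κ ^ 13 - 6 * κ ^ 15 - κ ^ 17) * two
  rcases mul_eq_zero.mp key with hk | hk
  · exact Or.inl hk
  · right
    have hs : 1 + κ ^ 2 = 0 := by
      exact pow_eq_zero_iff (n := 5) (by norm_num) |>.mp hk
    have hs2 : (κ - 1) ^ 2 = 0 := by
      linear_combination hs - κ * two
    have hs3 : κ - 1 = 0 := pow_eq_zero_iff (n := 2) (by norm_num) |>.mp hs2
    exact sub_eq_zero.mp hs3

end Pool.Agent.Helper2.SP
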