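import Pool.Agent.Helper2.SP.Core
import Pool.Agent.Helper81.SG.Main

/-!
# Project SP: the core in terms of project SG
-/

set_option autoImplicit false
set_option linter.unusedSectionVars false

open LinearMap

namespace Pool.Agent.Helper2.SP

open Pool.Agent.Helper81.UT Pool.Agent.Helper81.EU Pool.Agent.Helper81.SG
open Pool.Agent.Helper2.EV hiding one_add_sq Pres core

/-- The core for project SG. -/
theorem core_SG {K V : Type*} [Field K] [Finite K] [CharP K 2] [AddCommGroup V] [Module K V]
    [FiniteDimensional K V] (B : LinearMap.BilinForm K V) (halt : B.IsAlt)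
    (hnd : B.Nondegenerate) (j : ℕ) (hj : 2 ≤ j) (ty : Prop) : Core B j ty := by
  letI : StarRing K := starRingOfComm
  have hcomm : ∀ x y, B x y = B y x := by
    intro x y
    have h1 := halt (x + y)
    rw [map_add, map_add, LinearMap.add_apply, LinearMap.add_apply, halt, halt, zero_add,
      add_zero, add_comm] at h1
    exact eq_of_addK (K := K) h1
  have hs : Sy (fun x y => B x y) :=
    { herm :=
        { add := fun x y z => by rw [map_add, LinearMap.add_apply]
          smul := fun c x y => by rw [map_smul, LinearMap.smul_apply, smul_eq_mul]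
          symm := fun x y => hcomm x y
          nondeg := fun x hx => hnd.1 x hx }
      triv := fun c => rfl
      alt := fun x => halt x }
  have hcl : ∀ N : Module.End K V, N ∈ SD B j ty ↔ N ∈ Cl (fun x y => B x y) j ty := by
    intro N
    have e1 : (∀ x, B (N x) x = 0) ↔ Alt (fun x y => B x y) N :=
      forall_congr' fun x => by
        show B (N x) x = 0 ↔ B x (N x) = 0
        rw [hcomm]
    constructor
    · rintro ⟨h1, h2, h3⟩
      exact ⟨⟨h1, h2⟩, by rw [← e1]; exact h3⟩
    · rintro ⟨⟨h1, h2⟩, h3⟩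
      exact ⟨h1, h2, by rw [e1]; exact h3⟩
  have hpr : ∀ ψ : Module.End K V → Module.End K V, PresS B j ty ψ →
      SPres (fun x y => B x y) j ty ψ := by
    intro ψ hψ
    exact { mem := fun N hN => (hcl _).1 (hψ.mem N ((hcl _).2 hN))
            ord := fun N hN M hM m => hψ.ord N ((hcl _).2 hN) M ((hcl _).2 hM) m }
  intro ψ ψ' hψ hψ' h1 h2 N hN M hM
  exact conj_perm hs hj (hpr ψ hψ) (hpr ψ' hψ') (fun X hX => h1 X ((hcl X).2 hX))
    (fun X hX => h2 X ((hcl X).2 hX)) ((hcl N).1 hN) ((hcl M).1 hM)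

/-- Q1 for all classes of involutions of `Sp(2n, 2^k)`. -/
theorem all_classes {K V : Type*} [Field K] [Finite K] [CharP K 2] [AddCommGroup V] [Module K V]
    [FiniteDimensional K V] (B : LinearMap.BilinForm K V) (halt : B.IsAlt)
    (hnd : B.Nondegenerate)
    (L : Subgroup (V ≃ₗ[K] V)) (hL : ∀ g : V ≃ₗ[K] V, g ∈ L ↔ ∀ x y, B (g x) (g y) = B x y)
    (a : L) (ha : orderOf a = 2)
    (h : IsSimpleGroup L ∨ ∃ v : V, ∀ x, (a : V ≃ₗ[K] V) x = x + B x v • v)
    (τ : Equiv.Perm {b : L // IsConj a b})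
    (hτ : ∀ x y, x ≠ y → orderOf ((τ x : L) * τ y) = orderOf ((x : L) * y)) :
    ∃ φ : MulAut L, φ '' {b | IsConj a b} = {b | IsConj a b} ∧ ∀ x, φ x.1 = (τ x).1 :=
  Pool.Agent.Helper81.SG.all_classes B halt hnd (core_SG B halt hnd) L hL a ha h τ hτ

end Pool.Agent.Helper2.SP
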