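import Pool.Agent.Helper2.SP.Defs

/-!
# Block SP-CA: the possible scalars

`m(v, w) = h v (L w)` on `W = range N` (see block SP-SC), `C w = S (L w) = lam • w + (mu * m(w, a)) • a` for `w` in `W` (`N (L w) = w`,
`h (L w) a = m(w, a)`), `C³ = C` on `W`. `tau = m(a, a) = h a (L a)`; `tau = tau * tau` (`vec_inv`), so `tau = 0` or `tau = 1`. There is a
`w ≠ 0` in `W` with `m(w, a) = 0` (`dim W = j ≥ 2`; e.g. the map `w ↦ m(w, a)` from `W` to `K` is not injective), `C w = lam • w`, so `lam³ = lam`, that is
`lam * (lam + 1)² = 0`: `lam = 0` or `lam = 1` (characteristic two). If `a = 0` then `S = lam • N`, `lam ≠ 0` (`hS0`), `S = N`. Let `a ≠ 0` and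
`w₀` in `W` with `m(w₀, a) = 1` (as in SP-SC). `C a = (lam + mu * tau) • a`, `C w₀ = lam • w₀ + mu • a`. If `lam = 1`: `C² w₀ = w₀ + mu • a + mu • C a =
w₀ + (mu * mu * tau) • a`, `C³ w₀ = w₀ + mu • a + (mu * mu * tau * (1 + mu * tau)) • a`, so `mu * mu * tau * (1 + mu * tau) = 0`: `mu = 0` (then `S = N`), or
`tau = 0`, or `tau = 1` and `mu = 1`. If `lam = 0`: `mu ≠ 0` (`hS0`), `C w₀ = mu • a`, `C³ w₀ = (mu * (mu * tau)²) • a`, so `(mu * tau)² = 1`, `tau ≠ 0`,
`tau = 1`, `mu = 1` (characteristic two).
-/

set_option autoImplicit false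
set_option linter.unusedSectionVars false

open LinearMap

namespace Pool.Agent.Helper2.SP

open Pool.Agent.Helper81.UT Pool.Agent.Helper81.EU
open Pool.Agent.Helper2.EV hiding one_add_sq Pres core

variable {K V : Type*} [Field K] [StarRing K] [AddCommGroup V] [Module K V] [CharP K 2] [Finite K]
  [FiniteDimensional K V] {h : V → V → K} {j : ℕ} {b : Prop}

private theorem exists_perp32 (hs : Sy h) (hj : 2 ≤ j) {N L : Module.End K V} (hN : N ∈ El h j)
    (a : V) : ∃ w ∈ range N, w ≠ 0 ∧ h (L w) a = 0 := by
  let f : V →ₗ[K] K :=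
    { toFun := fun w => h (L w) a
      map_add' := fun x y => by rw [map_add, hs.add]
      map_smul' := fun c x => by rw [map_smul, hs.smul, RingHom.id_apply, smul_eq_mul] }
  have h1 : ker (f.domRestrict (range N)) ≠ ⊥ := by
    apply LinearMap.ker_ne_bot_of_finrank_lt
    rw [hN.1.2, Module.finrank_self]
    omega
  obtain ⟨w, hw, hw0⟩ := Submodule.exists_mem_ne_zero_of_ne_bot h1
  refine ⟨w.1, w.2, ?_, hw⟩
  intro h2
  exact hw0 (Subtype.ext h2)

private theorem two_cases32 {c : K} (hc : c * c * c = c) : c = 0 ∨ c = 1 := by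
  have h1 : c * ((c + 1) * (c + 1)) = 0 := by
    have h2 := ck c
    have h3 := ck (c * c)
    linear_combination hc + h2 + h3
  rcases mul_eq_zero.1 h1 with h2 | h2
  · exact Or.inl h2
  · exact Or.inr (eq_of_addK (mul_self_eq_zero.1 h2))

private theorem one_of_sq32 {c : K} (hc : c * c = 1) : c = 1 := by
  have h1 : (c + 1) * (c + 1) = 0 := by
    have h2 := ck c
    have h3 := ck (1 : K)
    linear_combination hc + h2 + h3
  exact eq_of_addK (mul_self_eq_zero.1 h1)

theorem cases_scal (hs : Sy h) (hj : 2 ≤ j) {N L S : Module.End K V} (hN : N ∈ El h j)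
    (hL : L ∈ El h j) (hI : Inv N L) {a : V} (ha : a ∈ range N) (hVa : Vc h N a) {lam mu : K}
    (hS : S = lam • N + mu • rk hs.herm a a) (hS0 : S ≠ 0)
    (h3 : ∀ w ∈ range N, S (L (S (L (S (L w))))) = S (L w)) :
    S = N ∨ (lam = 1 ∧ mu ≠ 0 ∧ a ≠ 0 ∧ h a (L a) = 0) ∨
      (h a (L a) = 1 ∧ mu = 1 ∧ (lam = 0 ∨ lam = 1)) := by
  have hNL : ∀ w ∈ range N, N (L w) = w := by
    rintro _ ⟨z, rfl⟩
    exact LinearMap.congr_fun hI.1 z
  have hC : ∀ w ∈ range N, S (L w) = lam • w + (mu * h (L w) a) • a := by
    intro w hw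
    rw [hS]
    show lam • N (L w) + mu • (h (L w) a • a) = _
    rw [hNL w hw, smul_smul]
  have htt : h a (L a) * h a (L a) = h a (L a) := (vec_inv hL.2 hI hVa a).symm
  have htau : h a (L a) = 0 ∨ h a (L a) = 1 := by
    apply two_cases32
    rw [htt, htt]
  have hLa : h (L a) a = h a (L a) := hL.2 a a
  have hlam : lam = 0 ∨ lam = 1 := by
    obtain ⟨w, hw, hw0, hwa⟩ := exists_perp32 (L := L) hs hj hN a
    apply two_cases32
    have h1 : S (L w) = lam • w := by rw [hC w hw, hwa, mul_zero, zero_smul, add_zero]
    have h2 := h3 w hw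
    rw [h1, map_smul, map_smul, h1, map_smul, map_smul, map_smul, map_smul, h1, smul_smul,
      smul_smul] at h2
    have h4 : (lam * lam * lam - lam) • w = 0 := by
      rw [sub_smul, h2, sub_self]
    rcases smul_eq_zero.1 h4 with h5 | h5
    · exact sub_eq_zero.1 h5
    · exact absurd h5 hw0
  have hmu0 : mu = 0 → lam = 1 → S = N := by
    intro h1 h2
    rw [hS, h1, h2, one_smul, zero_smul, add_zero]
  by_cases ha0 : a = 0
  · left
    have h1 : rk hs.herm a a = 0 := by
      ext z
      rw [rk_apply, ha0, smul_zero, LinearMap.zero_apply]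
    rcases hlam with h2 | h2
    · exfalso
      apply hS0
      rw [hS, h1, h2, zero_smul, smul_zero, add_zero]
    · rw [hS, h1, h2, one_smul, smul_zero, add_zero]
  · obtain ⟨z, hz⟩ := exists_one hs ha0
    have hw : N z ∈ range N := ⟨z, rfl⟩
    have hwa : h (L (N z)) a = 1 := by
      rw [hL.2, hN.2, hNL a ha, hz]
    have hCa : ∀ c d : K, S (L (c • N z + d • a)) =
        (lam * c) • N z + (mu * c + d * (lam + mu * h a (L a))) • a := by
      intro c d
      rw [map_add, map_add, map_smul, map_smul, map_smul, map_smul, hC _ hw, hC a ha, hwa, hLa]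
      module
    have h0 : N z = (1 : K) • N z + (0 : K) • a := by module
    have h4 := h3 _ hw
    rw [h0, hCa, hCa, hCa] at h4
    have hfree : ∀ c d : K, c • a = d • a → c = d := by
      intro c d hcd
      have h5 : (c - d) • a = 0 := by rw [sub_smul, hcd, sub_self]
      rcases smul_eq_zero.1 h5 with h6 | h6
      · exact sub_eq_zero.1 h6
      · exact absurd h6 ha0
    rcases hlam with hl | hl
    · right
      right
      have hmu : mu ≠ 0 := by
        rintro rfl
        apply hS0
        rw [hS, hl, zero_smul, zero_smul, add_zero]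
      have h5 : mu * ((mu * h a (L a)) * (mu * h a (L a))) = mu := by
        apply hfree
        rw [hl] at h4
        have h6 : ∀ e : K, (0 * (0 * (0 * (1 : K)))) • N z + e • a = e • a := by
          intro e
          module
        have h7 : ∀ e : K, (0 * (1 : K)) • N z + e • a = e • a := by
          intro e
          module
        rw [h6, h7] at h4
        refine Eq.trans ?_ (h4.trans ?_)
        · congr 1
          ring
        · congr 1
          ring
      rcases htau with ht | ht
      · exfalso
        apply hmu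
        rw [← h5, ht]
        ring
      · refine ⟨ht, ?_, Or.inl hl⟩
        rw [ht] at h5
        apply one_of_sq32
        have h6 : mu * (mu * mu - 1) = 0 := by linear_combination h5
        rcases mul_eq_zero.1 h6 with h7 | h7
        · exact absurd h7 hmu
        · exact sub_eq_zero.1 h7
    · by_cases hmu : mu = 0
      · exact Or.inl (hmu0 hmu hl)
      · rcases htau with ht | ht
        · exact Or.inr (Or.inl ⟨hl, hmu, ha0, ht⟩)
        · right
          right
          refine ⟨ht, ?_, Or.inr hl⟩
          rw [hl, ht] at h4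
          have h5 : mu * mu * (mu + 1) = 0 := by
            have h8 : (mu * (1 * (1 * 1)) + (mu * (1 * 1) + (mu * 1 + 0 * (1 + mu * 1)) *
                (1 + mu * 1)) * (1 + mu * 1)) = mu * 1 + 0 * (1 + mu * 1) := by
              apply hfree
              have h9 : (1 * (1 * (1 * (1 : K)))) • N z = N z := by
                rw [mul_one, mul_one, mul_one, one_smul]
              have h10 : (1 * (1 : K)) • N z = N z := by
                rw [mul_one, one_smul]
              rw [h9, h10] at h4
              exact add_left_cancel h4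
            have h11 := ck (mu * mu)
            have h12 := ck mu
            linear_combination h8 - h12 - h11
          rcases mul_eq_zero.1 h5 with h6 | h6
          · exact absurd (mul_self_eq_zero.1 h6) hmu
          · exact eq_of_addK h6

end Pool.Agent.Helper2.SP
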