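import Pool.Agent.Helper2.SP.Defs

/-!
# Block SP-CM: relations

Characteristic two, `M' = (1 + S) M (1 + S)`. `S S = 0`, `N S = 0 = S N` (`U N S`, `N N = 0`). `L M = 0 = M L` (`mul_of_range`), `L (N (M x)) = M x`
(`M x` is in `range L`, `hI.2`), `N (L w) = w` for `w` in `range N`. `L M' = M' L` gives `L S M (1 + S) = (1 + S) M S L`  (1).
Apply (1) to `w` in `range N` (`S w = 0`): `L (S (M w)) = M (S (L w)) + S (M (S (L w)))`; apply `N`: `N (L (S (M w))) = S (M w)` (`S _` is in `range N`) and
`N (S _) = 0`, so `S (M w) = N (M (S (L w)))`; and `S (M w) = S (L (N (M w)))`. This is the first claim.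
Apply (1) to `L w`: `L (S (M (L w + S (L w)))) = L (S (M (S (L w))))` (`M L = 0`) and the right side is `0` (`L L = 0`). Apply `N`: `S (M (S (L w))) = 0`.
With `w' = S (L w)` in `range N` and the first claim: `0 = S (M w') = N (M (S (L w')))`. So `M (S (L w'))` is in `range M ∩ ker N = 0` (`ho.1`), `S (L w')` is in
`range N ∩ ker M = 0` (`ho.2`): `S (L (S (L w))) = 0`.
-/

set_option autoImplicit false
set_option linter.unusedSectionVars false

open LinearMap

namespace Pool.Agent.Helper2.SP

open Pool.Agent.Helper81.UT Pool.Agent.Helper81.EU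
open Pool.Agent.Helper2.EV hiding one_add_sq Pres core

variable {K V : Type*} [Field K] [StarRing K] [AddCommGroup V] [Module K V] [CharP K 2] [Finite K]
  [FiniteDimensional K V] {h : V → V → K} {j : ℕ} {b : Prop}

theorem com_rel (hs : Sy h) {N L M M' S : Module.End K V} (hN : N ∈ El h j) (hL : L ∈ El h j)
    (hM : M ∈ El h j) (hM' : M' = (1 + S) * M * (1 + S)) (hr : range M = range L)
    (hI : Inv N L) (ho : Opp N M) (hU : U N S) (hc : L * M' = M' * L) :
    (∀ w ∈ range N, S (L (N (M w))) = N (M (S (L w)))) ∧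
      (∀ w ∈ range N, S (L (S (L w))) = 0) := by
  have hNN : ∀ x, N (N x) = 0 := fun x => LinearMap.congr_fun hN.1.1 x
  have hLL : ∀ x, L (L x) = 0 := fun x => LinearMap.congr_fun hL.1.1 x
  have hml := mul_of_range hM.1 hL.1 hr.symm
  have hML : ∀ x, M (L x) = 0 := fun x => LinearMap.congr_fun hml.1 x
  have hLM : ∀ x, L (M x) = 0 := fun x => LinearMap.congr_fun hml.2 x
  have hLNM : ∀ x, L (N (M x)) = M x := by
    intro x
    have h1 : M x ∈ range L := by rw [← hr]; exact ⟨x, rfl⟩
    obtain ⟨y, hy⟩ := h1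
    rw [← hy]
    exact LinearMap.congr_fun hI.2 y
  have hNL : ∀ w ∈ range N, N (L w) = w := by
    rintro _ ⟨y, rfl⟩
    exact LinearMap.congr_fun hI.1 y
  have hSr : ∀ x, S x ∈ range N := fun x => hU.2 ⟨x, rfl⟩
  have hSN : ∀ w ∈ range N, S w = 0 := by
    rintro _ ⟨y, rfl⟩
    exact hU.1 (hNN y)
  have hNS : ∀ x, N (S x) = 0 := by
    intro x
    obtain ⟨y, hy⟩ := hSr x
    rw [← hy]
    exact hNN y
  have key : ∀ x, L (S (M x)) + L (S (M (S x))) = M (S (L x)) + S (M (S (L x))) := by
    intro x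
    have h1 : L (M' x) = M' (L x) := LinearMap.congr_fun hc x
    have h2 : ∀ z, M' z = M z + M (S z) + (S (M z) + S (M (S z))) := by
      intro z
      rw [hM']
      show M (z + S z) + S (M (z + S z)) = _
      rw [map_add, map_add]
    rw [h2, h2, map_add, map_add, map_add, hLM, hLM, hML, map_zero, zero_add, zero_add, zero_add,
      zero_add] at h1
    exact h1
  have h3 : ∀ w ∈ range N, S (M w) = N (M (S (L w))) := by
    intro w hw
    have h1 := key w
    rw [hSN w hw, map_zero, map_zero, map_zero, add_zero] at h1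
    have h2 := congrArg N h1
    rw [hNL _ (hSr _), map_add, hNS, add_zero] at h2
    exact h2
  refine ⟨?_, ?_⟩
  · intro w hw
    rw [hLNM]
    exact h3 w hw
  · intro w hw
    have h1 := key (L w)
    rw [hML, map_zero, map_zero, zero_add, hLL, map_zero, map_zero, map_zero, zero_add] at h1
    have h2 := congrArg N h1
    rw [hNL _ (hSr _), map_zero] at h2
    have h4 := h3 (S (L w)) (hSr _)
    rw [h2] at h4
    have h5 : M (S (L (S (L w)))) = 0 :=
      (Submodule.disjoint_def.1 ho.1) _ ⟨_, rfl⟩ h4.symm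
    exact (Submodule.disjoint_def.1 ho.2) _ (hSr _) h5

end Pool.Agent.Helper2.SP
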