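import Pool.Agent.Helper2.SP.Defs

/-!
# Block SP-EL: elements of one type with a given image

Let `φ : range N ≃ₗ A` (equal dimensions), extended to an endomorphism `Φ` of `V` with `Φ w = φ w` on `range N` (`LinearMap.exists_extend`). Let `Φ'` be the adjoint:
`h (Φ x) y = h x (Φ' y)` (exists by `exists_rep`, applied to `x ↦ h (Φ x) y`, for each `y`; linear in `y` by `ext_left`-type uniqueness; or take
Mathlib's `LinearMap.BilinForm.leftAdjointOfNondegenerate`). `P = Φ * N * Φ'`. Self adjoint. `range P ≤ A` (`Φ (N _)` is in `A`). `P P = 0`: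
`N Φ' Φ N = 0` as `h (N (Φ' (Φ (N x)))) y = h (Φ (N x)) (Φ (N y)) = 0` (`A` is totally isotropic). `ker P`: `Φ` is injective on `range N`, so `P x = 0` iff
`N (Φ' x) = 0` iff `h x (Φ (N y)) = 0` for all `y` iff `x` is orthogonal to `A`. So `range P = A`: it is enough that `A ≤ range P`: `mem_range_of_perp` for `P` (for
`a` in `A` and `P x = 0` we have `h x a = 0`). Type: `h x (P x) = h (Φ' x) (N (Φ' x))`, so `Alt h N` gives `Alt h P`. Conversely let `Alt h P` and `z` in `V`; there is an `x` with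
`N z = N (Φ' x)`: the map `x ↦ N (Φ' x)` is onto `range N` (its kernel is the kernel of `P`, so its rank is `j`; or `z ↦ h z w` ...), so `h z (N z) = h z (N (Φ' x)) = h (N z) (Φ' x) =
h (N (Φ' x)) (Φ' x) = h x (P x) = 0`.
-/

set_option autoImplicit false
set_option linter.unusedSectionVars false

open LinearMap

namespace Pool.Agent.Helper2.SP

open Pool.Agent.Helper81.UT Pool.Agent.Helper81.EU
open Pool.Agent.Helper2.EV hiding one_add_sq Pres core

variable {K V : Type*} [Field K] [StarRing K] [AddCommGroup V] [Module K V] [CharP K 2] [Finite K]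
  [FiniteDimensional K V] {h : V → V → K} {j : ℕ} {b : Prop}

theorem exists_cl (hs : Sy h) {N : Module.End K V} (hN : N ∈ Cl h j b) {A : Submodule K V}
    (hA : TI h A) (hd : Module.finrank K A = j) : ∃ P ∈ Cl h j b, range P = A := by
  have hNj : Module.finrank K (range N) = j := hN.1.1.2
  have hNN : ∀ x, N (N x) = 0 := fun x => el_sq' hN.1 x
  have hNa : ∀ x y, h (N x) y = h x (N y) := hN.1.2
  let e : range N ≃ₗ[K] A := LinearEquiv.ofFinrankEq _ _ (by rw [hNj, hd])
  obtain ⟨Φ, hΦ⟩ := LinearMap.exists_extend (p := range N) (A.subtype ∘ₗ e.toLinearMap)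
  have hΦN : ∀ z, Φ (N z) = ((e ⟨N z, ⟨z, rfl⟩⟩ : A) : V) :=
    fun z => LinearMap.congr_fun hΦ ⟨N z, ⟨z, rfl⟩⟩
  have hΦA : ∀ z, Φ (N z) ∈ A := fun z => by
    rw [hΦN]
    exact (e _).2
  have hinj : ∀ x y, Φ (N x) = Φ (N y) → N x = N y := by
    intro x y hxy
    rw [hΦN, hΦN] at hxy
    have h1 := e.injective (Subtype.ext hxy)
    exact congrArg Subtype.val h1
  have hsur : ∀ a ∈ A, ∃ z, Φ (N z) = a := by
    intro a ha
    obtain ⟨⟨w, z, hz⟩, hw⟩ := e.surjective ⟨a, ha⟩
    subst hz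
    exact ⟨z, by rw [hΦN, hw]⟩
  have hadj : ∀ y, ∃ u, ∀ z, h z u = h (Φ z) y := fun y => exists_rep hs
    { toFun := fun z => h (Φ z) y
      map_add' := fun a b => by rw [map_add, hs.add]
      map_smul' := fun c a => by
        rw [map_smul, hs.smul]
        rfl }
  choose g hg using hadj
  have hgadd : ∀ x y, g (x + y) = g x + g y := by
    intro x y
    apply ext_left hs.herm
    intro z
    rw [hs.comm (g (x + y)) z, hg, hs.comm (g x + g y) z, hs.add_right, hs.add_right, hg, hg]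
  have hgsmul : ∀ (c : K) x, g (c • x) = c • g x := by
    intro c x
    apply ext_left hs.herm
    intro z
    rw [hs.comm (g (c • x)) z, hg, hs.comm (c • g x) z, hs.smul_right, hs.smul_right, hg]
  let Φ' : Module.End K V :=
    { toFun := g
      map_add' := hgadd
      map_smul' := hgsmul }
  have hΦ' : ∀ z y, h z (Φ' y) = h (Φ z) y := fun z y => hg y z
  have hΦ'' : ∀ y z, h (Φ' y) z = h y (Φ z) := fun y z => by
    rw [hs.comm, hΦ', hs.comm]
  have hP : ∀ x, (Φ * N * Φ') x = Φ (N (Φ' x)) := fun x => rfl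
  have hPsa : SA h (Φ * N * Φ') := by
    intro x y
    rw [hP, hP, ← hΦ', hNa, hΦ'']
  have hPP : Φ * N * Φ' * (Φ * N * Φ') = 0 := by
    ext x
    show Φ (N (Φ' (Φ (N (Φ' x))))) = 0
    have h1 : N (Φ' (Φ (N (Φ' x)))) = 0 := by
      apply hs.herm.nondeg
      intro y
      rw [hNa, hΦ'']
      exact hA _ (hΦA _) _ (hΦA _)
    rw [h1, map_zero]
  have hPr : range (Φ * N * Φ') = A := by
    apply le_antisymm
    · rintro _ ⟨x, rfl⟩
      exact hΦA _
    · intro a ha
      apply mem_range_of_perp hs hPsa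
      intro x hx
      have h1 : N (Φ' x) = N 0 := by
        apply hinj
        rw [map_zero, map_zero]
        exact hx
      rw [map_zero] at h1
      obtain ⟨z, rfl⟩ := hsur a ha
      rw [← hΦ'', ← hNa, h1, hs.zero_left]
  refine ⟨Φ * N * Φ', ⟨⟨⟨hPP, by rw [hPr, hd]⟩, hPsa⟩, ?_⟩, hPr⟩
  rw [← hN.2]
  constructor
  · intro ha z
    have h1 : Φ (N z) ∈ range (Φ * N * Φ') := by
      rw [hPr]
      exact hΦA z
    obtain ⟨x, hx⟩ := h1
    have h2 : N (Φ' x) = N z := hinj _ _ hx
    have h3 := ha x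
    rw [hP, ← hΦ''] at h3
    rw [← h2, ← hNa, ← h2, hNa]
    exact h3
  · intro ha x
    rw [hP, ← hΦ'']
    exact ha _

end Pool.Agent.Helper2.SP
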