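import Pool.Agent.Helper2.SP.ExA
import Pool.Agent.Helper2.SP.ExE

/-!
# Block SP-OP: elements opposite to two given ones

As in `Pool/Agent/Helper81/EU/Opp.lean`. `exists_opp'`: `extend_ti'` with `A = ⊥`, `exists_cl`, `nd_range` and `opp_of_disj` (`Opp.symm`) of project EU (`ti_range`, `nd_range`).
`exists_opp_not'`: let `U₀ = range N`, `U₁ = range X`, `U₂ = range X'`. There is a `v₁` orthogonal to `U₂` and not orthogonal to `U₁`: some `u` in `U₁` is not in `U₂`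
(dimensions, `U₁ ≠ U₂`), and by `mem_range_of_perp` (for `X'`) there is an `x` with `X' x = 0` and `h x u ≠ 0`; `X' x = 0` means that `x` is orthogonal to `U₂`
(`el_perp'`). In the same way `v₀` orthogonal to `U₂` and not to `U₀`. One of `v₀`, `v₁`, `v₀ + v₁` is orthogonal to `U₂`, not orthogonal to `U₀` and not to `U₁`; call it `v`.
`extend_ti'` for `A = K v` (`finrank = 1 ≤ j` because `U₂ ≠ U₁` excludes `j = 0`; `Nd h (K v) U₀`) gives `A'`, `exists_cl` gives `P` with image `A'`; `Opp N P`, `Opp X P`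
as before; `v ≠ 0` is in `range P ∩ ker X'` (`ker_of`), so `¬ Opp X' P`.
-/

set_option autoImplicit false
set_option linter.unusedSectionVars false

open LinearMap

namespace Pool.Agent.Helper2.SP

open Pool.Agent.Helper81.UT Pool.Agent.Helper81.EU
open Pool.Agent.Helper2.EV hiding one_add_sq Pres core

variable {K V : Type*} [Field K] [StarRing K] [AddCommGroup V] [Module K V] [CharP K 2] [Finite K]
  [FiniteDimensional K V] {h : V → V → K} {j : ℕ} {b : Prop}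

private theorem opp_of_nd34 (hs : Sy h) {N P : Module.End K V} (hN : N ∈ Cl h j b)
    (hP : P ∈ Cl h j b) (hn : Nd h (range P) (range N)) : Opp N P :=
  (opp_of_disj hs.herm hP.1 hN.1 ((nd_range hs.herm hN.1).1 hn)).symm

private theorem claim34 (hs : Sy h) {N X' : Module.End K V} (hN : N ∈ Cl h j b)
    (hX' : X' ∈ Cl h j b) (hne : range X' ≠ range N) :
    ∃ v, (∀ u ∈ range X', h v u = 0) ∧ ∃ c ∈ range N, h v c ≠ 0 := by
  obtain ⟨u, hu, hu2⟩ : ∃ u ∈ range N, u ∉ range X' := by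
    by_contra hcon
    push Not at hcon
    exact hne (Submodule.eq_of_le_of_finrank_eq hcon (by rw [hN.1.1.2, hX'.1.1.2])).symm
  obtain ⟨x, hx, hxu⟩ : ∃ x, X' x = 0 ∧ h x u ≠ 0 := by
    by_contra hcon
    push Not at hcon
    exact hu2 (mem_range_of_perp hs hX'.1.2 hcon)
  refine ⟨x, ?_, u, hu, hxu⟩
  rintro _ ⟨y, rfl⟩
  exact el_perp' hs.herm hX'.1 hx y

private theorem nd_span34 (hs : Sy h) {U : Submodule K V} {y c : V} (hb : c ∈ U)
    (hyb : h y c ≠ 0) : Nd h (K ∙ y) U := by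
  intro x hx hxU
  obtain ⟨d, rfl⟩ := Submodule.mem_span_singleton.1 hx
  have h1 := hxU c hb
  rw [hs.smul] at h1
  rw [(mul_eq_zero.1 h1).resolve_right hyb, zero_smul]

theorem exists_opp' (hs : Sy h) {N X : Module.End K V} (hN : N ∈ Cl h j b) (hX : X ∈ Cl h j b) :
    ∃ P ∈ Cl h j b, Opp N P ∧ Opp X P := by
  have hT : TI h (⊥ : Submodule K V) := by
    intro x hx y _
    rw [(Submodule.mem_bot K).1 hx, hs.zero_left]
  have hNd : ∀ U : Submodule K V, Nd h ⊥ U := fun U a ha _ => (Submodule.mem_bot K).1 ha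
  obtain ⟨A', -, hT', hd', hn0, hn1⟩ := extend_ti' hs (ti_range hs.herm hN.1)
    (ti_range hs.herm hX.1) hN.1.1.2 hX.1.1.2 hT
    (by rw [finrank_bot]; exact Nat.zero_le j) (hNd _) (hNd _)
  obtain ⟨P, hP, hr⟩ := exists_cl hs hN hT' hd'
  subst hr
  exact ⟨P, hP, opp_of_nd34 hs hN hP hn0, opp_of_nd34 hs hX hP hn1⟩

theorem exists_opp_not' (hs : Sy h) {N X X' : Module.End K V} (hN : N ∈ Cl h j b)
    (hX : X ∈ Cl h j b) (hX' : X' ∈ Cl h j b) (h1 : range X' ≠ range N)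
    (h2 : range X' ≠ range X) : ∃ P ∈ Cl h j b, Opp N P ∧ Opp X P ∧ ¬ Opp X' P := by
  obtain ⟨v₀, hv0, b₀, hb0, hvb0⟩ := claim34 hs hN hX' h1
  obtain ⟨v₁, hv1, b₁, hb1, hvb1⟩ := claim34 hs hX hX' h2
  obtain ⟨y, hyX, hy0, hy1⟩ : ∃ y, (∀ u ∈ range X', h y u = 0) ∧ (∃ c ∈ range N, h y c ≠ 0) ∧
      ∃ c ∈ range X, h y c ≠ 0 := by
    by_cases c1 : h v₀ b₁ = 0
    · by_cases c2 : h v₁ b₀ = 0
      · refine ⟨v₀ + v₁, fun u hu => by rw [hs.add, hv0 u hu, hv1 u hu, add_zero],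
          ⟨b₀, hb0, ?_⟩, ⟨b₁, hb1, ?_⟩⟩
        · rw [hs.add, c2, add_zero]
          exact hvb0
        · rw [hs.add, c1, zero_add]
          exact hvb1
      · exact ⟨v₁, hv1, ⟨b₀, hb0, c2⟩, ⟨b₁, hb1, hvb1⟩⟩
    · exact ⟨v₀, hv0, ⟨b₀, hb0, hvb0⟩, ⟨b₁, hb1, c1⟩⟩
  obtain ⟨c₀, hc0, hyc0⟩ := hy0
  obtain ⟨c₁, hc1, hyc1⟩ := hy1
  have hyne : y ≠ 0 := by
    rintro rfl
    exact hyc0 (hs.zero_left c₀)
  have hT : TI h (K ∙ y) := by
    intro x hx x' hx'
    obtain ⟨c, rfl⟩ := Submodule.mem_span_singleton.1 hx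
    obtain ⟨c', rfl⟩ := Submodule.mem_span_singleton.1 hx'
    rw [hs.smul, hs.smul_right, hs.alt, mul_zero, mul_zero]
  have hd : Module.finrank K (K ∙ y) ≤ j := by
    rw [finrank_span_singleton hyne]
    rcases Nat.eq_zero_or_pos j with h0 | h0
    · exfalso
      apply h1
      have e1 := hN.1.1.2
      have e2 := hX'.1.1.2
      rw [h0] at e1 e2
      rw [Submodule.finrank_eq_zero.1 e1, Submodule.finrank_eq_zero.1 e2]
    · exact h0
  obtain ⟨A', hle, hT', hd', hn0, hn1⟩ := extend_ti' hs (ti_range hs.herm hN.1)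
    (ti_range hs.herm hX.1) hN.1.1.2 hX.1.1.2 hT hd (nd_span34 hs hc0 hyc0)
    (nd_span34 hs hc1 hyc1)
  obtain ⟨P, hP, hr⟩ := exists_cl hs hN hT' hd'
  subst hr
  refine ⟨P, hP, opp_of_nd34 hs hN hP hn0, opp_of_nd34 hs hX hP hn1, ?_⟩
  intro ho
  apply hyne
  exact Submodule.disjoint_def.1 ho.1 y (hle (Submodule.mem_span_singleton_self y))
    (LinearMap.mem_ker.2 (ker_of hs.herm hX'.1 fun z => hyX _ ⟨z, rfl⟩))

end Pool.Agent.Helper2.SP
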