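import Pool.Agent.Helper2.SP.Defs

/-!
# Block SP-P1: orthogonality from nilpotent products

Characteristic two. First let `u` be in `range N` with `h u (L u) = 0`, `S₀ = rk hs.herm u u` (`S₀ S₀ = 0`, self adjoint), `P = (1 + S₀) L (1 + S₀)`: in `Cl h j b`
(`conj_cl`), `Inv N P` (`N (1 + S₀) = N = (1 + S₀) N`: `N u = 0`, `h (N z) u = 0`). `M P z = h z (L u) • M u` (`M L = 0` by `mul_of_range`, `h (L z') u = h z' (L u)`,
`h (z + h z u • u) (L u) = h z (L u)`), so `(M P)² = 0` (`h (M u) (L u) = 0`: `M u` is in `range L`, totally isotropic). So `M' P` is nilpotent, and so is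
`P M'`. `P (M' (L u)) = θ • L u` with `θ = h (M' (L u)) u`: `L (M' (L u)) = M' (L (L u)) = 0` by `hc`, so `L ((1 + S₀) (M' (L u))) = θ • L u`, and
`(1 + S₀) (L u) = L u + h (L u) u • u = L u`. A nilpotent map has no nonzero eigenvalue, and `L u ≠ 0` unless `u = 0` (`N (L u) = u`), so `θ = 0` (for `u = 0` clear).
Now `u`, `v` as in the theorem: `S₀ = rk hs.herm u v + rk hs.herm v u` (`rk_two_sq`, `rk_two_sa`: `h u v = 0` etc. as `range N` is totally isotropic), `P = (1 + S₀) L (1 + S₀)`,
`Inv N P` as before. `S₀ (L u) = h (L u) u • v + h (L u) v • u = 0`, `S₀ (L v) = 0`. `M (P z) = h z (L u) • M v + h z (L v) • M u` (`h ((1 + S₀) z) (L u) = h z ((1 + S₀) (L u)) =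
h z (L u)`), so `(M P)² = 0`. `P (M' (L u)) = (1 + S₀) (L (S₀ (M' (L u)))) = (1 + S₀) (θ • L u) = θ • L u` with `θ = h (M' (L u)) v`, because
`S₀ (M' (L u)) = h (M' (L u)) u • v + h (M' (L u)) v • u` and `h (M' (L u)) u = 0` by the first part. So `θ = 0`.
-/

set_option autoImplicit false
set_option linter.unusedSectionVars false

open LinearMap

namespace Pool.Agent.Helper2.SP

open Pool.Agent.Helper81.UT Pool.Agent.Helper81.EU
open Pool.Agent.Helper2.EV hiding one_add_sq Pres core

variable {K V : Type*} [Field K] [StarRing K] [AddCommGroup V] [Module K V] [CharP K 2] [Finite K]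
  [FiniteDimensional K V] {h : V → V → K} {j : ℕ} {b : Prop}

omit [StarRing K] [CharP K 2] [Finite K] [FiniteDimensional K V] in
private theorem eig {A : Module.End K V} (hA : IsNilpotent A) {x : V} {θ : K}
    (hx : A x = θ • x) : θ = 0 ∨ x = 0 := by
  obtain ⟨n, hn⟩ := hA
  have h1 : ∀ m : ℕ, (A ^ m) x = θ ^ m • x := by
    intro m
    induction m with
    | zero => rw [pow_zero, pow_zero, one_smul]; rfl
    | succ m ih =>
      rw [pow_succ', pow_succ, mul_smul]
      show A ((A ^ m) x) = _
      rw [ih, map_smul, hx]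
  have h2 := h1 n
  rw [hn, LinearMap.zero_apply] at h2
  rcases smul_eq_zero.1 h2.symm with h3 | h3
  · refine Or.inl ((pow_eq_zero_iff ?_).1 h3)
    rintro rfl
    rw [pow_zero] at h3
    exact one_ne_zero h3
  · exact Or.inr h3

private theorem conj_inv (hs : Sy h) {N L S : Module.End K V} (hL : L ∈ Cl h j b)
    (hI : Inv N L) (hSS : S * S = 0) (hSA : SA h S) (hNS : N * S = 0) (hSN : S * N = 0) :
    (1 + S) * L * (1 + S) ∈ Cl h j b ∧ Inv N ((1 + S) * L * (1 + S)) := by
  have h1 : N * (1 + S) = N := by rw [mul_add, mul_one, hNS, add_zero]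
  have h2 : (1 + S) * N = N := by rw [add_mul, one_mul, hSN, add_zero]
  refine ⟨conj_cl hs hL hSS hSA, ?_, ?_⟩
  · have h3 : N * ((1 + S) * L * (1 + S)) * N = N * (1 + S) * L * ((1 + S) * N) := by
      simp only [mul_assoc]
    rw [h3, h1, h2, hI.1]
  · have h3 : (1 + S) * L * (1 + S) * N * ((1 + S) * L * (1 + S)) =
        (1 + S) * (L * ((1 + S) * (N * (1 + S))) * L) * (1 + S) := by
      simp only [mul_assoc]
    rw [h3, h1, h2, hI.2]

theorem theta_perp (hs : Sy h) {N L M M' : Module.End K V} (hN : N ∈ Cl h j b)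
    (hL : L ∈ Cl h j b) (hM : M ∈ Cl h j b) (hM' : M' ∈ Cl h j b) (hI : Inv N L)
    (hr : range L = range M) (hc : L * M' = M' * L)
    (hnil : ∀ P ∈ Cl h j b, Inv N P → M * P * (M * P) = 0 → IsNilpotent (M' * P)) {u v : V}
    (hu : u ∈ range N) (hv : v ∈ range N) (huu : h u (L u) = 0) (hvv : h v (L v) = 0)
    (huv : h u (L v) = 0) : h (M' (L u)) v = 0 := by
  have hNu : ∀ {x : V}, x ∈ range N → N x = 0 := by
    rintro _ ⟨x, rfl⟩
    exact el_sq' hN.1 x
  have hNN : ∀ {x : V} (z : V), x ∈ range N → h (N z) x = 0 := by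
    rintro _ z ⟨x, rfl⟩
    exact el_perp hs.herm hN.1 z x
  have hML : ∀ x, M (L x) = 0 := fun x =>
    LinearMap.congr_fun (mul_of_range hM.1.1 hL.1.1 hr).1 x
  have hpML : ∀ x y, h (M x) (L y) = 0 := by
    intro x y
    have h1 : M x ∈ range L := by
      rw [hr]
      exact ⟨x, rfl⟩
    obtain ⟨z, hz⟩ := h1
    rw [← hz]
    exact el_perp hs.herm hL.1 z y
  have hLML : ∀ x, L (M' (L x)) = 0 := by
    intro x
    have h1 : L (M' (L x)) = M' (L (L x)) := LinearMap.congr_fun hc (L x)
    rw [h1, el_sq' hL.1, map_zero]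
  -- the first part
  have first : ∀ {u : V}, u ∈ range N → h u (L u) = 0 → h (M' (L u)) u = 0 := by
    intro u hu huu
    have hSL : rk hs.herm u u (L u) = 0 := by
      rw [rk_apply, hs.comm, huu, zero_smul]
    have hSa := rk_sa hs.herm u
    obtain ⟨hP, hIP⟩ := conj_inv hs hL hI (rk_sq hs.herm (hs.alt u)) hSa
      (by
        ext z
        show N (h z u • u) = 0
        rw [map_smul, hNu hu, smul_zero])
      (by
        ext z
        show h (N z) u • u = 0
        rw [hNN z hu, zero_smul])
    have hMP : ∀ z, M (((1 + rk hs.herm u u) * L * (1 + rk hs.herm u u)) z) =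
        h z (L u) • M u := by
      intro z
      show M (L (z + rk hs.herm u u z) + rk hs.herm u u (L (z + rk hs.herm u u z))) = _
      rw [map_add, hML, zero_add, rk_apply hs.herm u u (L _), map_smul, hL.1.2, hs.add,
        hSa, hSL, hs.zero_right, add_zero]
    have hn := hnil _ hP hIP (by
      ext z
      show M (((1 + rk hs.herm u u) * L * (1 + rk hs.herm u u))
        (M (((1 + rk hs.herm u u) * L * (1 + rk hs.herm u u)) z))) = 0
      rw [hMP, hpML, zero_smul])
    have he : (M' * ((1 + rk hs.herm u u) * L * (1 + rk hs.herm u u))) (M' (L u)) =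
        h (M' (L u)) u • M' (L u) := by
      show M' (L (M' (L u) + rk hs.herm u u (M' (L u))) +
        rk hs.herm u u (L (M' (L u) + rk hs.herm u u (M' (L u))))) = _
      rw [map_add L, hLML, zero_add, rk_apply hs.herm u u (M' _), map_smul L, map_smul, hSL,
        smul_zero, add_zero, map_smul]
    rcases eig hn he with h1 | h1
    · exact h1
    · rw [h1, hs.zero_left]
  -- the second part
  have huv' : h u v = 0 := by
    obtain ⟨w, rfl⟩ := hu
    exact hNN w hv
  have hSa := rk_two_sa hs.herm u v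
  set S : Module.End K V := rk hs.herm u v + rk hs.herm v u with hS
  have hSap : ∀ z, S z = h z u • v + h z v • u := fun z => rfl
  have hSLu : S (L u) = 0 := by
    rw [hSap, hs.comm, huu, hL.1.2, huv, zero_smul, zero_smul, add_zero]
  have hSLv : S (L v) = 0 := by
    rw [hSap, hs.comm, huv, hs.comm, hvv, zero_smul, zero_smul, add_zero]
  obtain ⟨hP, hIP⟩ := conj_inv hs hL hI
    (rk_two_sq hs.herm (hs.alt u) (hs.alt v) huv') hSa
    (by
      ext z
      show N (h z u • v + h z v • u) = 0
      rw [map_add, map_smul, map_smul, hNu hu, hNu hv, smul_zero, smul_zero, add_zero])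
    (by
      ext z
      show h (N z) u • v + h (N z) v • u = 0
      rw [hNN z hu, hNN z hv, zero_smul, zero_smul, add_zero])
  have hMP : ∀ z, M (((1 + S) * L * (1 + S)) z) = h z (L u) • M v + h z (L v) • M u := by
    intro z
    show M (L (z + S z) + S (L (z + S z))) = _
    rw [map_add, hML, zero_add, hSap (L _), map_add, map_smul, map_smul, hL.1.2, hL.1.2, hs.add,
      hs.add, hSa, hSLu, hSa, hSLv, hs.zero_right, add_zero, add_zero]
  have hn := hnil _ hP hIP (by
    ext z
    show M (((1 + S) * L * (1 + S)) (M (((1 + S) * L * (1 + S)) z))) = 0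
    rw [hMP, hpML, hpML, zero_smul, zero_smul, add_zero])
  have he : (M' * ((1 + S) * L * (1 + S))) (M' (L u)) = h (M' (L u)) v • M' (L u) := by
    show M' (L (M' (L u) + S (M' (L u))) + S (L (M' (L u) + S (M' (L u))))) = _
    rw [map_add L, hLML, zero_add, hSap (M' _), first hu huu, zero_smul, zero_add, map_smul L,
      map_smul, hSLu, smul_zero, add_zero, map_smul]
  rcases eig hn he with h1 | h1
  · exact h1
  · rw [h1, hs.zero_left]

end Pool.Agent.Helper2.SP
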