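import Pool.Agent.Helper2.SP.Defs

/-!
# Block SP-P2: Theta u is a multiple of L a

`Θ w = M' (L w)` satisfies `Θ N Θ = 0` (`theta_sq`), `Θ a = 0` (`theta_vec`), and `Θ w = L (M' w)` is in `range L`. `m(v, w) = h v (L w)`, `m(v, v) = m(v, a)²` (`vec_inv`).
Let `u` be in `range N` with `h u (L u) = 0`. By `hth` (and `vec_inv`) the linear form `v ↦ h (Θ u) v` on `range N` vanishes on the common kernel of `v ↦ h v (L a)` and
`v ↦ h v (L u)`, so it is a combination of them: there are `α`, `β` with `h v (Θ u) = α * h v (L a) + β * h v (L u)` for all `v` in `range N`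
(Mathlib: `mem_span_of_iInf_ker_le_ker`). So `t = Θ u - α • L a - β • L u` satisfies `h (N z) t = 0` for all `z`, `N t = 0`, and `t` is in `range L`, so `t = 0` (`hI.opp`).
`0 = Θ (N (Θ u)) = α • Θ (N (L a)) + β • Θ (N (L u)) = α • Θ a + β • Θ u = β • Θ u`. If `β = 0` done; otherwise `Θ u = 0`, `c = 0`.
-/

set_option autoImplicit false
set_option linter.unusedSectionVars false

open LinearMap

namespace Pool.Agent.Helper2.SP

open Pool.Agent.Helper81.UT Pool.Agent.Helper81.EU
open Pool.Agent.Helper2.EV hiding one_add_sq Pres core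

variable {K V : Type*} [Field K] [StarRing K] [AddCommGroup V] [Module K V] [CharP K 2] [Finite K]
  [FiniteDimensional K V] {h : V → V → K} {j : ℕ} {b : Prop}

theorem theta_line (hs : Sy h) {N L M' : Module.End K V} (hN : N ∈ El h j) (hL : L ∈ El h j)
    (hM' : M' ∈ El h j) (hI : Inv N L) (hc : L * M' = M' * L) {a : V} (ha : a ∈ range N)
    (hVa : Vc h N a)
    (hth : ∀ u ∈ range N, ∀ v ∈ range N, h u (L u) = 0 → h v (L v) = 0 → h u (L v) = 0 →
      h (M' (L u)) v = 0) {u : V} (hu : u ∈ range N) (huu : h u (L u) = 0) :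
    ∃ c : K, M' (L u) = c • L a := by
  have hM'sq : M' * M' = 0 := el_sq hM'
  have hVL : Vc h L (L a) := vec_inv hL.2 hI hVa
  have hc' : ∀ x, L (M' x) = M' (L x) := fun x => LinearMap.congr_fun hc x
  -- the linear forms `z ↦ h (N z) y`
  let F : V → V →ₗ[K] K := fun y =>
    { toFun := fun z => h (N z) y
      map_add' := by
        intro x x'
        rw [map_add, hs.add]
      map_smul' := by
        intro c x
        rw [map_smul, hs.smul]
        rfl }
  have hF : ∀ y z, F y z = h (N z) y := fun _ _ => rfl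
  have hker : ⨅ i : Fin 2, ker ((![F (L a), F (L u)] : Fin 2 → V →ₗ[K] K) i) ≤
      ker (F (M' (L u))) := by
    intro z hz
    rw [Submodule.mem_iInf] at hz
    have h0 : h (N z) (L a) = 0 := hz 0
    have h1 : h (N z) (L u) = 0 := hz 1
    rw [LinearMap.mem_ker, hF, hs.comm]
    refine hth u hu (N z) ⟨z, rfl⟩ huu ?_ ?_
    · rw [hVL, h0, mul_zero]
    · rw [← hL.2, hs.comm]
      exact h1
  have hspan := mem_span_of_iInf_ker_le_ker hker
  have hrange : Set.range (![F (L a), F (L u)] : Fin 2 → V →ₗ[K] K) = {F (L u), F (L a)} := by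
    simp
  rw [hrange, Set.pair_comm, Submodule.mem_span_pair] at hspan
  obtain ⟨α, β, hαβ⟩ := hspan
  have hform : ∀ z, h (N z) (M' (L u)) = α * h (N z) (L a) + β * h (N z) (L u) := by
    intro z
    have h1 := LinearMap.congr_fun hαβ z
    exact h1.symm
  have ht : M' (L u) + (α • L a + β • L u) = 0 := by
    have hker' : M' (L u) + (α • L a + β • L u) ∈ ker N := by
      rw [LinearMap.mem_ker]
      apply hs.herm.nondeg
      intro y
      rw [hs.comm, ← hN.2, hs.add_right, hs.add_right, hs.smul_right, hs.smul_right, hform]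
      exact ck _
    have hran : M' (L u) + (α • L a + β • L u) ∈ range L := by
      refine ⟨M' u + (α • a + β • u), ?_⟩
      rw [map_add, map_add, map_smul, map_smul, hc']
    exact Submodule.disjoint_def.1 hI.opp.1 _ hran hker'
  have hΘ : M' (L u) = α • L a + β • L u := eq_of_add K ht
  have hzero : M' (L (N (M' (L u)))) = 0 := LinearMap.congr_fun (theta_sq hM'sq hI hc) u
  have hLNL : ∀ x, L (N (L x)) = L x := fun x => LinearMap.congr_fun hI.2 x
  have hβ : β • M' (L u) = 0 := by
    have h1 : M' (L (N (α • L a + β • L u))) = 0 := by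
      rw [← hΘ]
      exact hzero
    rw [map_add, map_smul, map_smul, map_add, map_smul, map_smul, hLNL, hLNL, map_add, map_smul,
      map_smul, theta_vec hs hL.2 hM'.2 hM'sq hI hc hVa, smul_zero, zero_add] at h1
    exact h1
  rcases smul_eq_zero.1 hβ with hb | hb
  · refine ⟨α, ?_⟩
    rw [hb, zero_smul, add_zero] at hΘ
    exact hΘ
  · exact ⟨0, by rw [hb, zero_smul]⟩

end Pool.Agent.Helper2.SP
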