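import Pool.Agent.Helper2.SP.Defs

/-!
# Block SP-P3: Theta = 0 and its consequence

`Θ w = M' (L w)` is self adjoint (`hM'.2`, `hL.2`, `hc`), `Θ a = 0` (`theta_vec`); `m(v, w) = h v (L w)`, `m(v, v) = m(v, a)²` (`vec_inv`).
`theta_zero`: every `w` in `range N`. If `a = 0`: `h w (L w) = 0` (`vec_inv`), `Θ w = c • L 0 = 0`. If `h a (L a) = 1`: for `u` in `range N` with `h u (L u) = 0`
`Θ u = c • L a` and `0 = h u (Θ a) = h (Θ u) a = c * h (L a) a = c`, so `Θ u = 0`; `w = m(w, a) • a + u` with `u = w + m(w, a) • a`, `m(u, a) = 0`, so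
`h u (L u) = 0`. `theta_zero'`: `c₀` in `range N` with `h c₀ (L a) = 1` and `Θ c₀ = 0`: for `u` with `h u (L u) = 0`: `Θ u = c • L a`, `0 = h u (Θ c₀) = h (Θ u) c₀ =
c * h (L a) c₀ = c`. `w = m(w, a) • c₀ + u`, `u = w + m(w, a) • c₀`, `m(u, a) = 0`.
`eq_of_theta`: `S S = 0` and `1 + S` is injective. For `w` in `range N`: `0 = M' (L w) = (1 + S) (M (L w + S (L w))) = (1 + S) (M (S (L w)))` (`M L = 0` by `mul_of_range`), so
`M (S (L w)) = 0`, and `S (L w)` is in `range N ∩ ker M = 0` (`ho.2`). `S z = S (L (N z))` (`z - L (N z)` is in `ker N ≤ ker S`), so `S = 0`.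
-/

set_option autoImplicit false
set_option linter.unusedSectionVars false

open LinearMap

namespace Pool.Agent.Helper2.SP

open Pool.Agent.Helper81.UT Pool.Agent.Helper81.EU
open Pool.Agent.Helper2.EV hiding one_add_sq Pres core

variable {K V : Type*} [Field K] [StarRing K] [AddCommGroup V] [Module K V] [CharP K 2] [Finite K]
  [FiniteDimensional K V] {h : V → V → K} {j : ℕ} {b : Prop}

/-- The forms `h (M' (L x)) y` are symmetric in `x` and `y`. -/
private theorem theta_sa {L M' : Module.End K V} (hL : L ∈ El h j)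
    (hM' : M' ∈ El h j) (hc : L * M' = M' * L) (x y : V) : h (M' (L x)) y = h x (M' (L y)) := by
  have hc' : ∀ x, L (M' x) = M' (L x) := fun x => LinearMap.congr_fun hc x
  rw [hM'.2, hL.2, hc']

/-- The constant in `M' (L u) = c • L a` is zero, if some `c₀` is killed. -/
private theorem line_zero (hs : Sy h) {L M' : Module.End K V} (hL : L ∈ El h j)
    (hM' : M' ∈ El h j) (hc : L * M' = M' * L) {a c₀ u : V} (hca : h c₀ (L a) = 1)
    (hc1 : M' (L c₀) = 0) (hu : ∃ c : K, M' (L u) = c • L a) : M' (L u) = 0 := by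
  obtain ⟨c, hcu⟩ := hu
  have h1 := theta_sa hL hM' hc u c₀
  rw [hc1, hs.zero_right, hcu, hs.smul, hs.comm, hca, mul_one] at h1
  rw [hcu, h1, zero_smul]

/-- The common part of `theta_zero` and `theta_zero'`. -/
private theorem zero_aux (hs : Sy h) {N L M' : Module.End K V} (hL : L ∈ El h j)
    (hM' : M' ∈ El h j) (hI : Inv N L) (hc : L * M' = M' * L) {a : V}
    (hVa : Vc h N a) (hl : ∀ u ∈ range N, h u (L u) = 0 → ∃ c : K, M' (L u) = c • L a)
    {c₀ : V} (hc0 : c₀ ∈ range N) (hca : h c₀ (L a) = 1) (hc1 : M' (L c₀) = 0) :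
    ∀ w ∈ range N, M' (L w) = 0 := by
  intro w hw
  have hVL : Vc h L (L a) := vec_inv hL.2 hI hVa
  have hu : w + h w (L a) • c₀ ∈ range N :=
    Submodule.add_mem _ hw (Submodule.smul_mem _ _ hc0)
  have h0 : h (w + h w (L a) • c₀) (L a) = 0 := by
    rw [hs.add, hs.smul, hca, mul_one]
    exact ck _
  have h1 := line_zero hs hL hM' hc hca hc1
    (hl _ hu (by rw [hVL, h0, mul_zero]))
  rw [map_add, map_smul, map_add, map_smul, hc1, smul_zero, add_zero] at h1
  exact h1

theorem theta_zero (hs : Sy h) {N L M' : Module.End K V} (hN : N ∈ El h j) (hL : L ∈ El h j)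
    (hM' : M' ∈ El h j) (hI : Inv N L) (hc : L * M' = M' * L) {a : V} (ha : a ∈ range N)
    (hVa : Vc h N a) (hl : ∀ u ∈ range N, h u (L u) = 0 → ∃ c : K, M' (L u) = c • L a)
    (ht : a = 0 ∨ h a (L a) = 1) : ∀ w ∈ range N, M' (L w) = 0 := by
  rcases ht with ht | ht
  · intro w hw
    have hVL : Vc h L (L a) := vec_inv hL.2 hI hVa
    have h0 : h w (L w) = 0 := by
      rw [hVL, ht, map_zero, hs.zero_right, mul_zero]
    obtain ⟨c, h1⟩ := hl w hw h0
    rw [h1, ht, map_zero, smul_zero]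
  · exact zero_aux hs hL hM' hI hc hVa hl ha ht
      (theta_vec hs hL.2 hM'.2 (el_sq hM') hI hc hVa)

theorem theta_zero' (hs : Sy h) {N L M' : Module.End K V} (hN : N ∈ El h j) (hL : L ∈ El h j)
    (hM' : M' ∈ El h j) (hI : Inv N L) (hc : L * M' = M' * L) {a : V} (ha : a ∈ range N)
    (hVa : Vc h N a) (hl : ∀ u ∈ range N, h u (L u) = 0 → ∃ c : K, M' (L u) = c • L a)
    {c₀ : V} (hc0 : c₀ ∈ range N) (hca : h c₀ (L a) = 1) (hc1 : M' (L c₀) = 0) :
    ∀ w ∈ range N, M' (L w) = 0 :=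
  zero_aux hs hL hM' hI hc hVa hl hc0 hca hc1

theorem eq_of_theta {N L M M' S : Module.End K V} (hN : N ∈ El h j) (hL : L ∈ El h j)
    (hM : M ∈ El h j) (hM' : M' = (1 + S) * M * (1 + S)) (hr : range L = range M)
    (hI : Inv N L) (ho : Opp N M) (hU : U N S) (h0 : ∀ w ∈ range N, M' (L w) = 0) : M' = M := by
  have hML : ∀ x, M (L x) = 0 := fun x =>
    LinearMap.congr_fun (mul_of_range hM.1 hL.1 hr).1 x
  have hSS : ∀ x, S (S x) = 0 := by
    intro x
    obtain ⟨y, hy⟩ := hU.2 ⟨x, rfl⟩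
    have h1 : S x ∈ ker N := by
      rw [LinearMap.mem_ker, ← hy]
      exact el_sq' hN y
    exact hU.1 h1
  have hinj : ∀ x, x + S x = 0 → x = 0 := by
    intro x hx
    have h1 : S (x + S x) = 0 := by rw [hx, map_zero]
    rw [map_add, hSS, add_zero] at h1
    rw [h1, add_zero] at hx
    exact hx
  have hSL : ∀ w ∈ range N, S (L w) = 0 := by
    intro w hw
    have h1 : M' (L w) = M (S (L w)) + S (M (S (L w))) := by
      rw [hM']
      show M (L w + S (L w)) + S (M (L w + S (L w))) = _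
      rw [map_add M, hML, zero_add]
    rw [h0 w hw] at h1
    have h2 : M (S (L w)) = 0 := hinj _ h1.symm
    exact Submodule.disjoint_def.1 ho.2 _ (hU.2 ⟨L w, rfl⟩) h2
  have hS : S = 0 := by
    ext z
    have h1 : z - L (N z) ∈ ker N := by
      rw [LinearMap.mem_ker, map_sub]
      have h2 : N (L (N z)) = N z := LinearMap.congr_fun hI.1 z
      rw [h2, sub_self]
    have h3 : S (z - L (N z)) = 0 := hU.1 h1
    rw [map_sub, hSL _ ⟨z, rfl⟩, sub_zero] at h3
    rw [h3, LinearMap.zero_apply]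
  rw [hM', hS, add_zero, one_mul, mul_one]

end Pool.Agent.Helper2.SP
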