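import Pool.Agent.Helper2.SP.Defs

/-!
# Block SP-P4: the case h a (L a) = 0

`Y = yel hs L u a`, `Y z = L z + h z (L u) • L u + h z (L a) • L a`.
`theta_yel`: `Y' = (1 + S) Y (1 + S)`. For `w` in `range N` `N (Y w) = w + h w (L u) • u + h w (L a) • a` (`N (L x) = x` on `range N`). `S (L a) = 0` is given by `hSa`; the first relation of `hAB` at `w = a`
is `S (L (N (Y a))) = N (Y (S (L a))) = 0` and `N (Y a) = a + h a (L u) • u + h a (L a) • a = a + u` (`h a (L u) = h u (L a) = 1`), so `S (L a) + S (L u) = 0` and `S (L u) = 0`.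
`Y (L u) = 0` (`L L = 0`, `h (L u) (L u) = 0`, ...), so `Y' (L u) = (1 + S) (Y (L u + S (L u))) = 0`.
`theta_u`: let `E = rk hs.herm (L u) (L u) + rk hs.herm (L a) (L a)`, `Y = L + E`. `M'` commutes with `Y` and `L`, so with `E`: at `z`: `M' (E z) = h z (L u) • M' (L u) + h z (L a) • M' (L a)`,
`E (M' z) = h (M' z) (L u) • L u + h (M' z) (L a) • L a`, `M' (L a) = 0` (`theta_vec`), `h (M' z) (L x) = h z (M' (L x))`, so
`h z (L u) • M' (L u) = h z (M' (L u)) • L u` for all `z`. `L u ≠ 0` (`h u (L a) = 1`, so `u ≠ 0`, `N (L u) = u`); `exists_one` gives `z` with `h z (L u) = 1`: `M' (L u) = β • L u`.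
`theta_sq` at `u`: `0 = M' (L (N (M' (L u)))) = β • M' (L (N (L u))) = β • M' (L u) = (β * β) • L u`, so `β = 0`.
-/

set_option autoImplicit false
set_option linter.unusedSectionVars false

open LinearMap

namespace Pool.Agent.Helper2.SP

open Pool.Agent.Helper81.UT Pool.Agent.Helper81.EU
open Pool.Agent.Helper2.EV hiding one_add_sq Pres core

variable {K V : Type*} [Field K] [StarRing K] [AddCommGroup V] [Module K V] [CharP K 2] [Finite K]
  [FiniteDimensional K V] {h : V → V → K} {j : ℕ} {b : Prop}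

theorem theta_yel (hs : Sy h) {N L Y' S : Module.End K V} (hN : N ∈ El h j) (hL : L ∈ El h j)
    (hI : Inv N L) {a : V} (ha : a ∈ range N) {u : V} (hu : u ∈ range N) (hua : h u (L a) = 1)
    (haa : h a (L a) = 0) (hY' : Y' = (1 + S) * yel hs L u a * (1 + S)) (hSa : S (L a) = 0)
    (hAB : ∀ w ∈ range N, S (L (N (yel hs L u a w))) = N (yel hs L u a (S (L w)))) :
    Y' (L u) = 0 := by
  have hNL : ∀ x ∈ range N, N (L x) = x := by
    rintro x ⟨y, rfl⟩
    exact LinearMap.congr_fun hI.1 y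
  have hau : h a (L u) = 1 := by
    rw [← el_adj hL, hs.comm]
    exact hua
  have hYa : yel hs L u a a = L a + L u := by
    rw [yel_apply, hau, haa, one_smul, zero_smul, add_zero]
  have h1 := hAB a ha
  rw [hYa, map_add, hNL a ha, hNL u hu, hSa, map_zero, map_zero, map_add, map_add, hSa,
    zero_add] at h1
  have h2 : yel hs L u a (L u) = 0 := by
    rw [yel_apply, el_sq' hL, el_perp hs.herm hL, el_perp hs.herm hL, zero_smul, zero_smul,
      add_zero, add_zero]
  rw [hY']
  show (1 + S) (yel hs L u a (L u + S (L u))) = 0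
  rw [h1, add_zero, h2, map_zero]

theorem theta_u (hs : Sy h) {N L M' : Module.End K V} (hN : N ∈ El h j) (hL : L ∈ El h j)
    (hM' : M' ∈ El h j) (hI : Inv N L) (hc : L * M' = M' * L) {a : V} (ha : a ∈ range N)
    (hVa : Vc h N a) {u : V} (hu : u ∈ range N) (hua : h u (L a) = 1)
    (hY : M' * yel hs L u a = yel hs L u a * M') : M' (L u) = 0 := by
  have hNL : ∀ x ∈ range N, N (L x) = x := by
    rintro x ⟨y, rfl⟩
    exact LinearMap.congr_fun hI.1 y
  have hc' : ∀ x, L (M' x) = M' (L x) := fun x => LinearMap.congr_fun hc x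
  have hMa : M' (L a) = 0 := theta_vec hs hL.2 hM'.2 (el_sq hM') hI hc hVa
  have hkey : ∀ z, h z (L u) • M' (L u) = h z (M' (L u)) • L u := by
    intro z
    have h1 : M' (yel hs L u a z) = yel hs L u a (M' z) := LinearMap.congr_fun hY z
    rw [yel_apply, yel_apply, map_add, map_add, map_smul, map_smul, hMa, smul_zero, add_zero,
      hc', el_adj hM', el_adj hM', hMa, hs.zero_right, zero_smul, add_zero] at h1
    exact add_left_cancel h1
  have hLu : L u ≠ 0 := by
    intro h0
    have h1 := hNL u hu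
    rw [h0, map_zero] at h1
    rw [← h1, hs.zero_left] at hua
    exact zero_ne_one hua
  obtain ⟨z, hz⟩ := exists_one hs hLu
  have h2' := hkey z
  rw [hz, one_smul] at h2'
  obtain ⟨β, h2⟩ : ∃ β : K, M' (L u) = β • L u := ⟨_, h2'⟩
  have h3 : M' (L (N (M' (L u)))) = 0 :=
    LinearMap.congr_fun (theta_sq (el_sq hM') hI hc) u
  rw [h2, map_smul, map_smul, map_smul, hNL u hu, h2, smul_smul] at h3
  rcases smul_eq_zero.1 h3 with h4 | h4
  · rw [h2, mul_self_eq_zero.1 h4, zero_smul]
  · exact absurd h4 hLu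

end Pool.Agent.Helper2.SP
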