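import Pool.Agent.Helper2.SP.Defs

/-!
# Block SP-UV: a good pair of vectors

`m(v, w) = h v (L w)` on `W = range N`, symmetric and nondegenerate on `W`, `m(v, v) = m(v, a) * m(v, a)` (see block SP-SC: `vec_inv`). Let `tau = m(a, a)`,
`tau = tau * tau`, so `tau = 0` or `tau = 1`. If `tau = 0`: `v = a`, `u` in `W` with `m(u, a) = 1` (`exists_one` for `a`: `h z a = 1`, `u = N z`,
`m(N z, a) = h z (N (L a)) = h z a = 1`); `m(u, u) = m(u, a)² = 1`. If `tau = 1`: choose `x ≠ 0` in `W` with `m(x, a) = 0` (`dim W = j ≥ 2`), `y₀` in `W` with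
`m(y₀, x) = 1` (as before, for `x`), `y = y₀ + m(y₀, a) • a`: `m(y, a) = 0`, `m(y, x) = 1`. Take `u = a + y`, `v = x`: `m(u, a) = 1`, so
`m(u, u) = 1`; `m(u, v) = m(a, x) + m(y, x) = 1`; `m(v, v) = m(x, a)² = 0`.
-/

set_option autoImplicit false
set_option linter.unusedSectionVars false

open LinearMap

namespace Pool.Agent.Helper2.SP

open Pool.Agent.Helper81.UT Pool.Agent.Helper81.EU
open Pool.Agent.Helper2.EV hiding one_add_sq Pres core

variable {K V : Type*} [Field K] [StarRing K] [AddCommGroup V] [Module K V] [CharP K 2] [Finite K]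
  [FiniteDimensional K V] {h : V → V → K} {j : ℕ} {b : Prop}

private theorem exists_y50 (hs : Sy h) {N L : Module.End K V} (hN : SA h N) (hI : Inv N L) {x : V}
    (hx : x ∈ range N) (hx0 : x ≠ 0) : ∃ y ∈ range N, h y (L x) = 1 := by
  obtain ⟨z, hz⟩ := exists_one hs hx0
  refine ⟨N z, ⟨z, rfl⟩, ?_⟩
  obtain ⟨w, rfl⟩ := hx
  have h1 : N (L (N w)) = N w := LinearMap.congr_fun hI.1 w
  rw [hN, h1, hz]

private theorem exists_x50 {N : Module.End K V} (hj : 2 ≤ Module.finrank K (range N)) {a : V}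
    (ha0 : a ≠ 0) : ∃ w ∈ range N, ∀ c : K, w + c • a ≠ 0 := by
  by_contra hcon
  push Not at hcon
  have h1 : range N ≤ Submodule.span K {a} := by
    intro w hw
    obtain ⟨c, hc⟩ := hcon w hw
    rw [Submodule.mem_span_singleton]
    exact ⟨c, (eq_of_add K hc).symm⟩
  have h2 := Submodule.finrank_mono h1
  rw [finrank_span_singleton ha0] at h2
  omega

theorem exists_uv (hs : Sy h) (hj : 2 ≤ j) {N L : Module.End K V} (hN : N ∈ El h j)
    (hL : L ∈ El h j) (hI : Inv N L) {a : V} (ha : a ∈ range N) (hVa : Vc h N a) (ha0 : a ≠ 0) :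
    ∃ u ∈ range N, ∃ v ∈ range N, h u (L u) = 1 ∧ h u (L v) = 1 ∧ h v (L v) = 0 ∧
      (h a (L a) = 0 → v = a) := by
  have hV : ∀ x, h x (L x) = h x (L a) * h x (L a) := vec_inv hL.2 hI hVa
  have hsym : ∀ x y, h x (L y) = h y (L x) := by
    intro x y
    rw [hs.comm, hL.2]
  have htau := hV a
  by_cases h0 : h a (L a) = 0
  · obtain ⟨u, hu, hu1⟩ := exists_y50 hs hN.2 hI ha ha0
    refine ⟨u, hu, a, ha, ?_, hu1, h0, fun _ => rfl⟩
    rw [hV, hu1, one_mul]
  · have h1 : h a (L a) = 1 := by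
      have h2 : h a (L a) * (h a (L a)) = h a (L a) * 1 := by rw [mul_one]; exact htau.symm
      exact mul_left_cancel₀ h0 h2
    obtain ⟨w, hw, hw1⟩ := exists_x50 (N := N) (by rw [hN.1.2]; exact hj) ha0
    have hx1 : h (w + h w (L a) • a) (L a) = 0 := by
      rw [hs.add, hs.smul, h1, mul_one, ck]
    have hxr : w + h w (L a) • a ∈ range N := add_mem hw (Submodule.smul_mem _ _ ha)
    have hx0 := hw1 (h w (L a))
    generalize w + h w (L a) • a = x at hx1 hxr hx0
    obtain ⟨y, hy, hy1⟩ := exists_y50 hs hN.2 hI hxr hx0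
    have hya : h (y + h y (L a) • a) (L a) = 0 := by
      rw [hs.add, hs.smul, h1, mul_one, ck]
    have hyx : h (y + h y (L a) • a) (L x) = 1 := by
      rw [hs.add, hs.smul, hy1, hsym a x, hx1, mul_zero, add_zero]
    have hyr : y + h y (L a) • a ∈ range N := add_mem hy (Submodule.smul_mem _ _ ha)
    generalize y + h y (L a) • a = t at hya hyx hyr
    refine ⟨a + t, add_mem ha hyr, x, hxr, ?_, ?_, ?_, fun h2 => absurd h2 h0⟩
    · rw [hV, hs.add, h1, hya, add_zero, one_mul]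
    · rw [hs.add, hsym a x, hx1, hyx, zero_add]
    · rw [hV, hx1, zero_mul]

end Pool.Agent.Helper2.SP
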