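import Pool.Agent.Helper2.SP.Defs

/-!
# Block SP-YE: the element Y

`Y = yel hs L u v`, `Y z = L z + h z (L u) • L u + h z (L v) • L v` (`yel_apply`). `n_yel`: `N (L u) = u`, `N (L v) = v`, `N (L w) = w` on `range N` (`hI.1`).
`yel_mem`: `Y` is self adjoint (`SA.add`, `rk_sa`), `Y Y = 0` (`L (L z) = 0`, `h (Y z) (L u) = 0` as the image of `L` is totally isotropic, `el_perp`).
`range Y ≤ range L`. Let `B w = w + m(w, u) • u + m(w, v) • v`, `m(w, w') = h w (L w')`; `Y w = L (B w)` for all `w`; `B u = v`, `B v = u + v`, so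
`B (B (B w)) = w` for `w` in `range N`: `B w = w + m(w, u) u + m(w, v) v`, `B² w = w + m(w, u) (u + v) + m(w, v) (v + u + v)` ... (or check on `w`:
`B² w = w + m(w,u) u + m(w,v) v + m(Bw,u) u + m(Bw,v) v`, `m(B w, u) = m(w, B u) = m(w, v)`, `m(B w, v) = m(w, u + v)`). So `L w = Y (B (B w))` and
`range L ≤ range Y` (`L z = L (N (L z))`, `hI.2`). So `range Y = range L` and the rank is `j`. Type: both classes are not alternating: `Alt h N ↔ a = 0`
(`alt_iff_vec`), so `b` is false. `h x (Y x) = h x (L x) + (h x (L u))² + (h x (L v))² = (h x (L a) + h x (L u) + h x (L v))²` (`vec_inv`), so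
`Vc h Y (L (a + u + v))`; if `L (a + u + v) = 0` then `0 = h v (L (a + u + v)) = m(v, a) + m(v, u) + m(v, v) = 1`, as `m(v, a)² = m(v, v) = 0`. So `Y` is not
alternating (`alt_iff_vec`).
-/

set_option autoImplicit false
set_option linter.unusedSectionVars false

open LinearMap

namespace Pool.Agent.Helper2.SP

open Pool.Agent.Helper81.UT Pool.Agent.Helper81.EU
open Pool.Agent.Helper2.EV hiding one_add_sq Pres core

variable {K V : Type*} [Field K] [StarRing K] [AddCommGroup V] [Module K V] [CharP K 2] [Finite K]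
  [FiniteDimensional K V] {h : V → V → K} {j : ℕ} {b : Prop}

/-- The map `B`. -/
private def bmap56 (h : V → V → K) (L : Module.End K V) (u v z : V) : V :=
  z + h z (L u) • u + h z (L v) • v

private theorem yel_eq56 (hs : Sy h) (L : Module.End K V) (u v z : V) :
    yel hs L u v z = L (bmap56 h L u v z) := by
  rw [yel_apply, bmap56, map_add, map_add, map_smul, map_smul]

private theorem b_cube56 (hs : Sy h) (L : Module.End K V) {u v : V} (huu : h u (L u) = 1)
    (huv : h u (L v) = 1) (hvu : h v (L u) = 1) (hvv : h v (L v) = 0) (z : V) :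
    bmap56 h L u v (bmap56 h L u v (bmap56 h L u v z)) = z := by
  have hp : ∀ w, h (bmap56 h L u v w) (L u) = h w (L v) := by
    intro w
    rw [bmap56, hs.add, hs.add, hs.smul, hs.smul, huu, hvu, mul_one, mul_one, ck, zero_add]
  have hq : ∀ w, h (bmap56 h L u v w) (L v) = h w (L v) + h w (L u) := by
    intro w
    rw [bmap56, hs.add, hs.add, hs.smul, hs.smul, huv, hvv, mul_one, mul_zero, add_zero]
  have h1 : bmap56 h L u v (bmap56 h L u v (bmap56 h L u v z)) =
      bmap56 h L u v (bmap56 h L u v z) + (h z (L v) + h z (L u)) • u +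
        ((h z (L v) + h z (L u)) + h z (L v)) • v := by
    rw [bmap56, hp, hq, hq, hp, hq]
  have h2 : bmap56 h L u v (bmap56 h L u v z) =
      bmap56 h L u v z + h z (L v) • u + (h z (L v) + h z (L u)) • v := by
    rw [bmap56, hp, hq]
  have h3 : bmap56 h L u v z = z + h z (L u) • u + h z (L v) • v := rfl
  rw [h1, h2, h3]
  have e1 := aav K (h z (L u) • u)
  have e2 := aav K (h z (L v) • u)
  have e3 := aav K (h z (L u) • v)
  have e4 := aav K (h z (L v) • v)
  have h4 : z + h z (L u) • u + h z (L v) • v + h z (L v) • u + (h z (L v) + h z (L u)) • v +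
      (h z (L v) + h z (L u)) • u + ((h z (L v) + h z (L u)) + h z (L v)) • v =
      z + (h z (L u) • u + h z (L u) • u) + (h z (L v) • u + h z (L v) • u) +
        (h z (L u) • v + h z (L u) • v) + (h z (L v) • v + h z (L v) • v) +
        (h z (L v) • v + h z (L v) • v) := by module
  rw [h4, e1, e2, e3, e4]
  simp only [add_zero]

theorem yel_mem (hs : Sy h) {N L : Module.End K V} (hN : N ∈ Cl h j b) (hL : L ∈ Cl h j b)
    (hI : Inv N L) {a : V} (ha : a ∈ range N) (hVa : Vc h N a) (ha0 : a ≠ 0) {u v : V}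
    (hu : u ∈ range N) (hv : v ∈ range N) (huu : h u (L u) = 1) (huv : h u (L v) = 1)
    (hvv : h v (L v) = 0) : yel hs L u v ∈ Cl h j b ∧ range (yel hs L u v) = range L := by
  have hYB := yel_eq56 hs L u v
  have hvu : h v (L u) = 1 := by rw [← hL.1.2 v u, hs.comm, huv]
  have h3 := b_cube56 hs L huu huv hvu hvv
  have hr : range (yel hs L u v) = range L := by
    apply le_antisymm
    · rintro _ ⟨z, rfl⟩
      exact ⟨_, (hYB z).symm⟩
    · rintro _ ⟨z, rfl⟩
      refine ⟨bmap56 h L u v (bmap56 h L u v z), ?_⟩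
      rw [hYB, h3]
  have hsq : yel hs L u v * yel hs L u v = 0 := by
    ext z
    show yel hs L u v (yel hs L u v z) = 0
    rw [hYB z, yel_apply, el_sq' hL.1, el_perp hs.herm hL.1, el_perp hs.herm hL.1, zero_smul,
      zero_smul, add_zero, add_zero]
  have hsa : SA h (yel hs L u v) :=
    SA.add hs.herm (SA.add hs.herm hL.1.2 (rk_sa hs.herm (L u))) (rk_sa hs.herm (L v))
  refine ⟨⟨⟨⟨hsq, ?_⟩, hsa⟩, ?_⟩, hr⟩
  · rw [hr]
    exact hL.1.1.2
  · have hb : ¬ b := fun hb => ha0 ((alt_iff_vec hs hVa).1 (hN.2.2 hb))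
    have hVL := vec_inv hL.1.2 hI hVa
    constructor
    · intro hA
      exfalso
      have hV : Vc h (yel hs L u v) (L (a + u + v)) := by
        intro x
        rw [yel_apply, map_add, map_add, hs.add_right, hs.add_right, hs.smul_right, hs.smul_right,
          hVL x, hs.add_right, hs.add_right]
        have e1 := ck (h x (L a) * h x (L u))
        have e2 := ck (h x (L a) * h x (L v))
        have e3 := ck (h x (L u) * h x (L v))
        linear_combination -e1 - e2 - e3
      have h0 := (alt_iff_vec hs hV).1 hA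
      have h1 : h v (L (a + u + v)) = 0 := by rw [h0, hs.zero_right]
      rw [map_add, map_add, hs.add_right, hs.add_right, hvu, hvv, add_zero] at h1
      have h2 := hVL v
      rw [hvv] at h2
      have h4 : h v (L a) = 0 := mul_self_eq_zero.1 h2.symm
      rw [h4, zero_add] at h1
      exact one_ne_zero h1
    · intro h1
      exact absurd h1 hb

theorem n_yel (hs : Sy h) {N L : Module.End K V} (hI : Inv N L) {u v : V} (hu : u ∈ range N)
    (hv : v ∈ range N) :
    ∀ w ∈ range N, N (yel hs L u v w) = w + h w (L u) • u + h w (L v) • v := by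
  have key : ∀ w ∈ range N, N (L w) = w := by
    rintro _ ⟨z, rfl⟩
    exact LinearMap.congr_fun hI.1 z
  intro w hw
  rw [yel_apply, map_add, map_add, map_smul, map_smul, key w hw, key u hu, key v hv]

end Pool.Agent.Helper2.SP
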