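import Pool.Agent.Helper2.SP.Fxd
import Pool.Agent.Helper2.SP.Com
import Pool.Agent.Helper2.SP.Uv
import Pool.Agent.Helper2.SP.Yel
import Pool.Agent.Helper2.SP.Pa
import Pool.Agent.Helper2.SP.Pb
import Pool.Agent.Helper2.SP.Pc
import Pool.Agent.Helper2.SP.Pd

/-!
# Project SP: elements opposite to `N`

Let `Q` fix the elements commuting with `N` and the elements inverse to `N`, `M` opposite to `N`, `L` inverse to `N` with the image of
`M`, `Θ = Q(M) L`. Then `Θ u` is a multiple of `L a` for `h u (L u) = 0` (blocks SP-P1, SP-P2). If `a = 0` or `h a (L a) = 1` this gives `Θ = 0` on the image of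
`N` and `Q M = M` (block SP-P3). Otherwise one uses the elements `Y` of block SP-YE (block SP-P4).
-/

set_option autoImplicit false
set_option linter.unusedSectionVars false

open LinearMap

namespace Pool.Agent.Helper2.SP

open Pool.Agent.Helper81.UT Pool.Agent.Helper81.EU
open Pool.Agent.Helper2.EV hiding one_add_sq Pres core

variable {K V : Type*} [Field K] [StarRing K] [AddCommGroup V] [Module K V] [CharP K 2] [Finite K]
  [FiniteDimensional K V] {h : V → V → K} {j : ℕ} {b : Prop}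
  {N : Module.End K V} {Q : Module.End K V → Module.End K V}

/-- The common part: `M` opposite to `N`, `L` inverse to `N` with the image of `M`. -/
theorem step_B_data (hs : Sy h) (hj : 2 ≤ j) (hF : Fx h j b N Q)
    (hQ : ∀ P ∈ Cl h j b, Inv N P → Q P = P) {a : V} (ha : a ∈ range N) (hVa : Vc h N a)
    {L M : Module.End K V} (hL : L ∈ Cl h j b) (hM : M ∈ Cl h j b) (hr : range L = range M)
    (hI : Inv N L) :
    L * Q M = Q M * L ∧ (∀ u ∈ range N, h u (L u) = 0 → ∃ c : K, Q M (L u) = c • L a) := by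
  have hN := hF.hN
  have hQM := hF.pres.mem M hM
  obtain ⟨e1, e2⟩ := mul_of_range hL.1.1 hM.1.1 hr.symm
  have hc : L * Q M = Q M * L := by
    have h1 := (hF.pres.comm_iff hL hM).2 (e1.trans e2.symm)
    rwa [hQ L hL hI] at h1
  refine ⟨hc, fun u hu huu => ?_⟩
  refine theta_line hs hN.1 hL.1 hQM.1 hI hc ha hVa ?_ hu huu
  intro u hu v hv huu hvv huv
  refine theta_perp hs hN hL hM hQM hI hr hc ?_ hu hv huu hvv huv
  intro P hP hIP hz
  have h1 : IsNilpotent (M * P) := ⟨2, by rw [pow_two]; exact hz⟩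
  have h2 := (hF.pres.nil_iff hM hP).2 h1
  rwa [hQ P hP hIP] at h2

/-- `S (L a) = 0`. -/
theorem s_la (hs : Sy h) {L Y Y' S : Module.End K V} (hN : N ∈ El h j) (hL : L ∈ El h j)
    (hY : Y ∈ El h j) (hY'm : Y' ∈ El h j) (hI : Inv N L) (hr : range Y = range L)
    (ho : Opp N Y) (hU : U N S) (hY' : Y' = (1 + S) * Y * (1 + S)) (hc : L * Y' = Y' * L)
    {a : V} (hVa : Vc h N a) : S (L a) = 0 := by
  have h1 : Y' (L a) = 0 := theta_vec hs hL.2 hY'm.2 (el_sq hY'm) hI hc hVa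
  have hSS : ∀ x, S (S x) = 0 := by
    intro x
    obtain ⟨y, hy⟩ := hU.2 ⟨x, rfl⟩
    rw [← hy]
    exact hU.1 (show N (N y) = 0 from el_sq' hN y)
  have h2 : Y' (L a) = Y (L a + S (L a)) + S (Y (L a + S (L a))) := by rw [hY']; rfl
  have h3 : Y (L a) = 0 := LinearMap.congr_fun (mul_of_range hY.1 hL.1 hr.symm).1 a
  rw [h2, map_add, h3, zero_add] at h1
  have h4 : Y (S (L a)) = 0 := by
    have h5 := congrArg S h1
    rw [map_add, hSS, add_zero, map_zero] at h5
    rw [h5, add_zero] at h1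
    exact h1
  exact Submodule.disjoint_def.1 ho.2 _ (hU.2 ⟨_, rfl⟩) h4

theorem step_B (hs : Sy h) (hj : 2 ≤ j) (hF : Fx h j b N Q)
    (hQ : ∀ P ∈ Cl h j b, Inv N P → Q P = P) {M : Module.End K V} (hM : M ∈ Cl h j b)
    (ho : Opp N M) : Q M = M := by
  have hN := hF.hN
  have hQM := hF.pres.mem M hM
  obtain ⟨a, ha, hVa⟩ := exists_vec hs hN.1.2
  obtain ⟨L, hL, hr, hI'⟩ := exists_inv' hs hM hN ho.symm
  have hI : Inv N L := hI'.symm
  obtain ⟨S, -, hU, hf⟩ := hF.form hs hj hM ho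
  obtain ⟨hc, hl⟩ := step_B_data hs hj hF hQ ha hVa hL hM hr hI
  by_cases ht : a = 0 ∨ h a (L a) = 1
  · exact eq_of_theta hN.1 hL.1 hM.1 hf hr hI ho hU
      (theta_zero hs hN.1 hL.1 hQM.1 hI hc ha hVa hl ht)
  push Not at ht
  obtain ⟨ha0, hτ1⟩ := ht
  have hτ : h a (L a) = 0 := by
    have h1 : h a (L a) = h a (L a) * h a (L a) := vec_inv hL.1.2 hI hVa a
    by_contra h2
    exact hτ1 (mul_left_cancel₀ h2 (by rw [mul_one]; exact h1.symm))
  obtain ⟨u, hu, v, hv, huu, huv, hvv, hva⟩ := exists_uv hs hj hN.1 hL.1 hI ha hVa ha0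
  have hva' := hva hτ
  subst hva'
  obtain ⟨hY, hrY⟩ := yel_mem hs hN hL hI ha hVa ha0 hu hv huu huv hvv
  have hoY : Opp N (yel hs L u v) :=
    opp_congr hI.opp (ker_eq_of_range hs.herm hY.1 hL.1 hrY) hrY
  -- `Y` is fixed
  have hQY : Q (yel hs L u v) = yel hs L u v := by
    obtain ⟨S', -, hU', hf'⟩ := hF.form hs hj hY hoY
    obtain ⟨hc', hl'⟩ := step_B_data hs hj hF hQ ha hVa hL hY hrY.symm hI
    have hQY' := hF.pres.mem _ hY
    obtain ⟨hAB, -⟩ := com_rel hs hN.1 hL.1 hY.1 hf' hrY hI hoY hU' hc'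
    have hSa := s_la hs hN.1 hL.1 hY.1 hQY'.1 hI hrY hoY hU' hf' hc' hVa
    have h1 : Q (yel hs L u v) (L u) = 0 :=
      theta_yel hs hN.1 hL.1 hI ha hu huv hτ hf' hSa hAB
    exact eq_of_theta hN.1 hL.1 hY.1 hf' hrY.symm hI hoY hU'
      (theta_zero' hs hN.1 hL.1 hQY'.1 hI hc' ha hVa hl' hu huv h1)
  have h1 : Q M * yel hs L u v = yel hs L u v * Q M := by
    obtain ⟨e1, e2⟩ := mul_of_range hM.1.1 hY.1.1 (hrY.trans hr)
    have h2 := (hF.pres.comm_iff hM hY).2 (e1.trans e2.symm)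
    rwa [hQY] at h2
  have h2 : Q M (L u) = 0 := theta_u hs hN.1 hL.1 hQM.1 hI hc ha hVa hu huv h1
  exact eq_of_theta hN.1 hL.1 hM.1 hf hr hI ho hU
    (theta_zero' hs hN.1 hL.1 hQM.1 hI hc ha hVa hl hu huv h2)

end Pool.Agent.Helper2.SP
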