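import Pool.Agent.Helper2.SP.StA
import Pool.Agent.Helper2.SP.StB
import Pool.Agent.Helper2.SP.OppS

/-!
# Project SP: a map which fixes the elements commuting with `N` is the conjugation by `1 + N`
-/

set_option autoImplicit false
set_option linter.unusedSectionVars false

open LinearMap

namespace Pool.Agent.Helper2.SP

open Pool.Agent.Helper81.UT Pool.Agent.Helper81.EU
open Pool.Agent.Helper2.EV hiding one_add_sq Pres core

variable {K V : Type*} [Field K] [StarRing K] [AddCommGroup V] [Module K V] [CharP K 2] [Finite K]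
  [FiniteDimensional K V] {h : V → V → K} {j : ℕ} {b : Prop}

theorem cl_range_ker (hs : Sy h) {N P A : Module.End K V} (hP : P ∈ Cl h j b)
    (hA : A ∈ Cl h j b) (hr : range A = range P) (ho : Opp N P) : Opp N A :=
  opp_congr ho (ker_eq_of_range hs.herm hA.1 hP.1 hr) hr

/-- The main step. -/
theorem core' (hs : Sy h) (hj : 2 ≤ j)
    {ψ : Module.End K V → Module.End K V} {N : Module.End K V} (hF : Fx h j b N ψ)
    (hO : ∀ Y ∈ Cl h j b, ∀ m : ℕ,
      ((1 + Y) * (1 + ψ Y)) ^ m = 1 ↔ ((1 + Y) * (1 + N)) ^ (2 * m) = 1) :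
    ∀ M ∈ Cl h j b, ψ M = (1 + N) * M * (1 + N) := by
  have hj1 : 1 ≤ j := by omega
  have hN := hF.hN
  have hψ := hF.pres
  have hN1 := one_add_sq (cl_sq hN)
  -- the map `Q`
  let Q : Module.End K V → Module.End K V := fun M => (1 + N) * ψ M * (1 + N)
  have hQ : SPres h j b Q :=
    { mem := fun M hM => conj_cl hs (hψ.mem M hM) (cl_sq hN) hN.1.2
      ord := fun X hX Y hY m => by
        rw [← hψ.ord X hX Y hY m]
        exact conj_pow (cl_sq hN) (ψ X) (ψ Y) m }
  have hFQ : Fx h j b N Q :=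
    { hN := hN
      pres := hQ
      fix := by
        intro R hR hc
        show (1 + N) * ψ R * (1 + N) = R
        rw [hF.fix R hR hc]
        have h1 : (1 + N) * R = R * (1 + N) := by rw [add_mul, mul_add, hc, one_mul, mul_one]
        rw [h1, mul_assoc, hN1, mul_one] }
  have hQinv : ∀ M ∈ Cl h j b, Inv N M → Q M = M := by
    intro M hM hI
    show (1 + N) * ψ M * (1 + N) = M
    rw [step_A hs hj hF hO hM hI, conj_conj (cl_sq hN)]
  -- elements opposite to `N`
  have hB : ∀ M ∈ Cl h j b, Opp N M → Q M = M := fun M hM ho => step_B hs hj hFQ hQinv hM ho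
  -- all elements
  have key : ∀ M ∈ Cl h j b, Q M = M := by
    intro M hM
    have hQM := hQ.mem M hM
    by_cases h1 : range (Q M) = range N
    · exact hQ.inj hQM hM (hFQ.range_fix hQM h1)
    have hP : ∀ P ∈ Cl h j b, Opp N P → Opp M P →
        ∃ R ∈ Cl h j b, range R = range P ∧ Inv R M ∧ Inv R (Q M) := by
      intro P hP hNP hMP
      obtain ⟨R, hR, hRr, hRI⟩ := exists_inv' hs hP hM hMP.symm
      refine ⟨R, hR, hRr, hRI, inv_fix' hs hj1 hQ hR hM (fun R' hR' hr => ?_) hRI⟩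
      exact hB R' hR' (cl_range_ker hs hP hR' (hr.trans hRr) hNP)
    by_cases h2 : range (Q M) = range M
    · obtain ⟨P, hP1, hNP, hMP⟩ := exists_opp' hs hN hM
      obtain ⟨R, hR, -, hRI, hRI'⟩ := hP P hP1 hNP hMP
      exact inv_unique hs.herm hM.1 hQM.1 hR.1.2 h2 hRI.2 hRI'.2
    · obtain ⟨P, hP1, hNP, hMP, hno⟩ := exists_opp_not' hs hN hM hQM h1 h2
      obtain ⟨R, hR, hRr, hRI, hRI'⟩ := hP P hP1 hNP hMP
      exact absurd (cl_range_ker hs hR hP1 hRr.symm hRI'.opp.symm) hno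
  intro M hM
  have h4 : (1 + N) * Q M * (1 + N) = ψ M := conj_conj (cl_sq hN) (ψ M)
  rw [key M hM] at h4
  exact h4.symm

/-- Permutations of `Cl h j b` which preserve the orders of products respect conjugation. -/
theorem conj_perm (hs : Sy h) (hj : 2 ≤ j)
    {T T' : Module.End K V → Module.End K V} (hT : SPres h j b T) (hT' : SPres h j b T')
    (hTT' : ∀ X ∈ Cl h j b, T (T' X) = X) (hT'T : ∀ X ∈ Cl h j b, T' (T X) = X)
    {N M : Module.End K V} (hN : N ∈ Cl h j b) (hM : M ∈ Cl h j b) :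
    T ((1 + N) * M * (1 + N)) = (1 + T N) * T M * (1 + T N) := by
  have hN0 := hT.mem N hN
  have hN1 := one_add_sq (cl_sq hN)
  have hk : ∀ {X : Module.End K V}, X ∈ Cl h j b → (1 + N) * X * (1 + N) ∈ Cl h j b := fun hX =>
    conj_cl hs hX (cl_sq hN) hN.1.2
  let ψ : Module.End K V → Module.End K V := fun X => T ((1 + N) * T' X * (1 + N))
  have hψ : SPres h j b ψ :=
    { mem := fun X hX => hT.mem _ (hk (hT'.mem X hX))
      ord := fun X hX Y hY m => by
        show ((1 + T ((1 + N) * T' X * (1 + N))) * (1 + T ((1 + N) * T' Y * (1 + N)))) ^ m = 1 ↔ _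
        rw [hT.ord _ (hk (hT'.mem X hX)) _ (hk (hT'.mem Y hY)) m,
          conj_pow (cl_sq hN), hT'.ord X hX Y hY m] }
  have hF : Fx h j b (T N) ψ :=
    { hN := hN0
      pres := hψ
      fix := by
        intro R hR hc
        have h1 := (hT'.comm_iff hN0 hR).2 hc
        rw [hT'T N hN] at h1
        have h2 : (1 + N) * T' R * (1 + N) = T' R := by
          have h3 : (1 + N) * T' R = T' R * (1 + N) := by
            rw [add_mul, mul_add, h1, one_mul, mul_one]
          rw [h3, mul_assoc, hN1, mul_one]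
        show T ((1 + N) * T' R * (1 + N)) = R
        rw [h2, hTT' R hR] }
  have hO : ∀ Y ∈ Cl h j b, ∀ m : ℕ,
      ((1 + Y) * (1 + ψ Y)) ^ m = 1 ↔ ((1 + Y) * (1 + T N)) ^ (2 * m) = 1 := by
    intro Y hY m
    have hY' := hT'.mem Y hY
    have h1 := hT.ord (T' Y) hY' _ (hk hY') m
    rw [hTT' Y hY] at h1
    have h2 := hT.ord (T' Y) hY' N hN (2 * m)
    rw [hTT' Y hY] at h2
    have h3 : (1 + T' Y) * (1 + (1 + N) * T' Y * (1 + N)) = ((1 + T' Y) * (1 + N)) ^ 2 := by
      have h4 : 1 + (1 + N) * T' Y * (1 + N) = (1 + N) * (1 + T' Y) * (1 + N) := by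
        rw [mul_add (1 + N) 1 (T' Y), mul_one, add_mul (1 + N) ((1 + N) * T' Y) (1 + N), hN1]
      rw [h4, pow_two]
      simp only [mul_assoc]
    rw [h2]
    show ((1 + Y) * (1 + T ((1 + N) * T' Y * (1 + N)))) ^ m = 1 ↔ _
    rw [h1, h3, ← pow_mul]
  have h5 := core' hs hj hF hO (T M) (hT.mem M hM)
  have h6 : ψ (T M) = T ((1 + N) * M * (1 + N)) := by
    show T ((1 + N) * T' (T M) * (1 + N)) = _
    rw [hT'T M hM]
  rw [← h6, h5]

end Pool.Agent.Helper2.SP
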