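import Pool.Agent.Helper2.SP.Defs

/-!
# Block SP-CB: order three

Characteristic two. `S S = 0`, `N S = 0 = S N` (`U N S`, `N N = 0`), `L L = 0`. `L L' = L S L (1 + S)`, `L L' L = L S L S L`,
`L' L L' = (1 + S) L (1 + S) L (1 + S) L (1 + S) = (1 + S) L S L S L (1 + S)`. By `h3.2` `L S L S L + L = (1 + S) (L S L S L + L) (1 + S)`. Let
`E = L S L S L + L`; so `S E + E S + S E S = 0`. Apply this to `w` in `range N`: `S w = 0`, so `S (E w) = 0`: `S L S L S L w + S L w = 0`; `eq_of_add K`.
-/

set_option autoImplicit false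
set_option linter.unusedSectionVars false

open LinearMap

namespace Pool.Agent.Helper2.SP

open Pool.Agent.Helper81.UT Pool.Agent.Helper81.EU
open Pool.Agent.Helper2.EV hiding one_add_sq Pres core

variable {K V : Type*} [Field K] [StarRing K] [AddCommGroup V] [Module K V] [CharP K 2] [Finite K]
  [FiniteDimensional K V] {h : V → V → K} {j : ℕ} {b : Prop}

theorem cube (hs : Sy h) {N L L' S : Module.End K V} (hN : N ∈ El h j) (hL : L ∈ El h j)
    (hU : U N S) (hL' : L' = (1 + S) * L * (1 + S)) (h3 : O3 L L') :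
    ∀ w ∈ range N, S (L (S (L (S (L w))))) = S (L w) := by
  rintro _ ⟨y, rfl⟩
  have hLL : ∀ x, L (L x) = 0 := el_sq' hL
  have hSN : ∀ x, S (N x) = 0 := fun x => hU.1 (by
    rw [mem_ker]
    exact el_sq' hN x)
  have hSS : ∀ x, S (S x) = 0 := by
    intro x
    obtain ⟨z, hz⟩ := hU.2 (mem_range_self S x)
    rw [← hz]
    exact hSN z
  have hL'a : ∀ x, L' x = L x + L (S x) + (S (L x) + S (L (S x))) := by
    intro x
    rw [hL']
    show (1 + S) (L (x + S x)) = _
    rw [map_add]
    show L x + L (S x) + S (L x + L (S x)) = _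
    rw [map_add]
  have h1 : ∀ x, L (L' (L x)) + L x = L' (L (L' x)) + L' x := fun x => LinearMap.congr_fun h3.2 x
  have hz : S (L (S (L (S (L (N y)))))) + S (L (N y)) = 0 := by
    have h2 := h1 (N y)
    simp only [hL'a, map_add, hLL, hSN, map_zero, zero_add, add_zero] at h2
    have h4 := add_left_cancel (h2.trans (show _ = (L (S (L (S (L (N y))))) + L (N y)) +
      (S (L (S (L (S (L (N y)))))) + S (L (N y))) by abel) |>.symm.trans (add_zero _).symm |>.symm)
    exact h4.symm
  exact eq_of_add K hz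

end Pool.Agent.Helper2.SP
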