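import Pool.Agent.Helper81.EU.Ext
import Pool.Agent.Helper81.EU.Inv
import Pool.Agent.Helper81.EU.OrdT
import Pool.Agent.Helper2.EV.Core

/-!
# Project SP (MP_0d9fdb_al): all involutions of `Sp(2n, 2^k)`

`K` is a finite field of characteristic two, `h` a nondegenerate alternating form on `V` (`Sy h`; the star of `K` is
trivial, `Herm h` of project UT then says that `h` is a nondegenerate symmetric bilinear form). `SA h A`: `A` is self adjoint,
`El h j`: the self adjoint square zero endomorphisms of rank `j` (project EU). `1 + N` is then an involution of the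
symplectic group. For `N` in `El h j` the map `x ↦ h x (N x)` is the square of a linear form, `Vc h N a` says `h x (N x) = h x a * h x a`;
`Alt h N`: it is zero. `Cl h j b`: the elements `N` of `El h j` of one type (`Alt h N ↔ b`); these are the classes of the involutions.
`SPres h j b ψ`: the map `ψ` preserves `Cl h j b` and the orders of all products `(1 + N) (1 + M)`.
-/

set_option autoImplicit false
set_option linter.unusedSectionVars false

open LinearMap

namespace Pool.Agent.Helper2.SP

open Pool.Agent.Helper81.UT Pool.Agent.Helper81.EU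
open Pool.Agent.Helper2.EV hiding one_add_sq Pres core

variable {K V : Type*} [Field K] [StarRing K] [AddCommGroup V] [Module K V] {h : V → V → K}

/-- A nondegenerate alternating form (with the trivial star). -/
structure Sy (h : V → V → K) : Prop where
  herm : Herm h
  triv : ∀ c : K, star c = c
  alt : ∀ x, h x x = 0

/-- The form of `N` is alternating. -/
def Alt (h : V → V → K) (N : Module.End K V) : Prop := ∀ x, h x (N x) = 0

/-- The class of type `b`. -/
def Cl (h : V → V → K) (j : ℕ) (b : Prop) : Set (Module.End K V) :=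
  {N | N ∈ El h j ∧ (Alt h N ↔ b)}

/-- `a` is the vector of `N`. -/
def Vc (h : V → V → K) (N : Module.End K V) (a : V) : Prop := ∀ x, h x (N x) = h x a * h x a

/-- `ψ` preserves `Cl h j b` and the orders of products. -/
structure SPres (h : V → V → K) (j : ℕ) (b : Prop) (ψ : Module.End K V → Module.End K V) :
    Prop where
  mem : ∀ N ∈ Cl h j b, ψ N ∈ Cl h j b
  ord : ∀ N ∈ Cl h j b, ∀ M ∈ Cl h j b, ∀ m : ℕ,
    ((1 + ψ N) * (1 + ψ M)) ^ m = 1 ↔ ((1 + N) * (1 + M)) ^ m = 1

/-! ### Basic facts -/

theorem Sy.comm (hs : Sy h) (x y : V) : h x y = h y x := by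
  rw [← hs.herm.symm y x, hs.triv]

theorem Sy.add (hs : Sy h) (x y z : V) : h (x + y) z = h x z + h y z := hs.herm.add x y z

theorem Sy.add_right (hs : Sy h) (x y z : V) : h x (y + z) = h x y + h x z :=
  hs.herm.add_right x y z

theorem Sy.smul (hs : Sy h) (c : K) (x y : V) : h (c • x) y = c * h x y := hs.herm.smul c x y

theorem Sy.smul_right (hs : Sy h) (c : K) (x y : V) : h x (c • y) = c * h x y := by
  rw [hs.herm.smul_right, hs.triv]

theorem Sy.zero_left (hs : Sy h) (x : V) : h 0 x = 0 := hs.herm.zero_left x

theorem Sy.zero_right (hs : Sy h) (x : V) : h x 0 = 0 := hs.herm.zero_right x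

variable [CharP K 2]

theorem Sy.sub (hs : Sy h) (x y z : V) : h (x - y) z = h x z + h y z := by
  have h1 : x - y = x + y := by
    rw [sub_eq_add_neg]
    congr 1
    exact (eq_neg_of_add_eq_zero_left (aav K y)).symm
  rw [h1, hs.add]

theorem ck (c : K) : c + c = 0 := CharTwo.add_self_eq_zero c

theorem eq_of_add (K : Type*) {V : Type*} [Field K] [StarRing K] [AddCommGroup V]
    [Module K V] [CharP K 2] {x y : V} (hxy : x + y = 0) : x = y := by
  have h1 := aav K y
  exact add_right_cancel (hxy.trans h1.symm)

theorem eq_of_addK {x y : K} (hxy : x + y = 0) : x = y := by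
  have h1 := ck y
  exact add_right_cancel (hxy.trans h1.symm)

/-- A vector with `h z v = 1`. -/
theorem exists_one (hs : Sy h) {v : V} (hv : v ≠ 0) : ∃ z, h z v = 1 := by
  by_contra hcon
  push Not at hcon
  apply hv
  apply hs.herm.nondeg
  intro y
  by_contra hy
  have h1 : h y v ≠ 0 := by rwa [hs.comm]
  refine hcon ((h y v)⁻¹ • y) ?_
  rw [hs.smul, inv_mul_cancel₀ h1]

/-- Conjugation keeps the type. -/
theorem conj_cl (hs : Sy h) {j : ℕ} {b : Prop} {N T : Module.End K V} (hN : N ∈ Cl h j b)
    (hT : T * T = 0) (hT' : SA h T) : (1 + T) * N * (1 + T) ∈ Cl h j b := by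
  refine ⟨conj_mem hs.herm hN.1 hT hT', ?_⟩
  rw [← hN.2]
  have h1 := one_add_sq hT
  have hA : ∀ x y, h ((1 + T) x) y = h x ((1 + T) y) := by
    intro x y
    show h (x + T x) y = h x (y + T y)
    rw [hs.add, hs.add_right, hT']
  constructor
  · intro ha x
    have h2 := ha ((1 + T) x)
    have h3 : (1 + T) ((1 + T) x) = x := LinearMap.congr_fun h1 x
    have h4 : ((1 + T) * N * (1 + T)) ((1 + T) x) = (1 + T) (N ((1 + T) ((1 + T) x))) := rfl
    rw [h4, ← hA, h3] at h2
    exact h2
  · intro ha x
    show h x ((1 + T) (N ((1 + T) x))) = 0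
    rw [← hA]
    exact ha _

/-- Inverse elements have the same type. -/
theorem alt_iff_of_inv {R M : Module.End K V} (hR : SA h R) (hM : SA h M) (hI : Inv R M) :
    Alt h R ↔ Alt h M := by
  have key : ∀ {A B : Module.End K V}, SA h A → SA h B → A * B * A = A → Alt h B → Alt h A := by
    intro A B hA hB hABA hb x
    have h1 : A (B (A x)) = A x := LinearMap.congr_fun hABA x
    rw [← h1, ← hA]
    exact hb _
  exact ⟨key hM hR hI.2, key hR hM hI.1⟩

/-- Opposite elements have an inverse with the same image. -/
theorem exists_inv' [Finite K] [FiniteDimensional K V] (hs : Sy h) {j : ℕ} {b : Prop}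
    {N M : Module.End K V} (hN : N ∈ Cl h j b) (hM : M ∈ Cl h j b) (ho : Opp N M) :
    ∃ R ∈ Cl h j b, range R = range N ∧ Inv R M := by
  obtain ⟨R, hR, hr, hI⟩ := exists_inv hs.herm hN.1 hM.1 ho
  exact ⟨R, ⟨hR, by rw [alt_iff_of_inv hR.2 hM.1.2 hI]; exact hM.2⟩, hr, hI⟩

/-- Every linear form is `h · u`. -/
theorem exists_rep [FiniteDimensional K V] (hs : Sy h) (f : V →ₗ[K] K) :
    ∃ u, ∀ z, h z u = f z := by
  let Φ : V →ₗ[K] Module.Dual K V :=
    { toFun := fun u =>
        { toFun := fun z => h z u
          map_add' := fun x y => hs.add x y u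
          map_smul' := fun c x => hs.smul c x u }
      map_add' := fun x y => LinearMap.ext fun z => hs.add_right z x y
      map_smul' := fun c x => LinearMap.ext fun z => hs.smul_right c z x }
  have hinj : Function.Injective Φ := by
    rw [← LinearMap.ker_eq_bot, LinearMap.ker_eq_bot']
    intro u hu
    apply hs.herm.nondeg
    intro y
    rw [hs.comm]
    exact LinearMap.congr_fun hu y
  have hsurj : Function.Surjective Φ :=
    (LinearMap.injective_iff_surjective_of_finrank_eq_finrank
      (Subspace.dual_finrank_eq (K := K) (V := V)).symm).1 hinj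
  obtain ⟨u, hu⟩ := hsurj f
  exact ⟨u, fun z => LinearMap.congr_fun hu z⟩

/-- The image of `N` is the orthogonal space of its kernel. -/
theorem mem_range_of_perp [FiniteDimensional K V] (hs : Sy h) {N : Module.End K V} (hN : SA h N)
    {y : V} (hy : ∀ x, N x = 0 → h x y = 0) : y ∈ range N := by
  let f : V →ₗ[K] K :=
    { toFun := fun z => h z y
      map_add' := fun x x' => hs.add x x' y
      map_smul' := fun c x => hs.smul c x y }
  obtain ⟨s, hs'⟩ := (N.rangeRestrict).exists_rightInverse_of_surjective
    (LinearMap.range_eq_top.2 (LinearMap.surjective_rangeRestrict N))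
  obtain ⟨p, hp⟩ := ((range N).subtype).exists_leftInverse_of_injective
    (LinearMap.ker_eq_bot.2 (Submodule.injective_subtype _))
  obtain ⟨u, hu⟩ := exists_rep hs (f ∘ₗ s ∘ₗ p)
  refine ⟨u, ?_⟩
  apply ext_left hs.herm
  intro z
  rw [hs.comm, hs.comm y z, ← hN, hu]
  show h (s (p (N z))) y = h z y
  have h1 : p (N z) = N.rangeRestrict z := LinearMap.congr_fun hp (N.rangeRestrict z)
  have h2 : N (s (N.rangeRestrict z)) = N z :=
    congrArg Subtype.val (LinearMap.congr_fun hs' (N.rangeRestrict z))
  rw [h1]
  have h3 := hy (s (N.rangeRestrict z) + z) (by rw [map_add, h2]; exact aav K _)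
  rw [hs.add] at h3
  exact eq_of_addK h3

/-- The vector of `N`. -/
theorem exists_vec [Finite K] [FiniteDimensional K V] (hs : Sy h) {N : Module.End K V}
    (hN : SA h N) : ∃ a ∈ range N, Vc h N a := by
  have hfr : Function.Bijective (_root_.frobenius K 2) := by
    have := Fintype.ofFinite K
    exact (Finite.injective_iff_bijective).1 (_root_.frobenius_inj K 2)
  obtain ⟨g, hg⟩ : ∃ g : K → K, ∀ c, g c * g c = c := by
    refine ⟨fun c => (hfr.2 c).choose, fun c => ?_⟩
    have h1 := (hfr.2 c).choose_spec
    rw [_root_.frobenius_def, pow_two] at h1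
    exact h1
  have hinj : ∀ {c d : K}, c * c = d * d → c = d := by
    intro c d hcd
    apply hfr.1
    rw [_root_.frobenius_def, _root_.frobenius_def, pow_two, pow_two, hcd]
  let f : V →ₗ[K] K :=
    { toFun := fun z => g (h z (N z))
      map_add' := by
        intro x y
        apply hinj
        have h1 : (g (h x (N x)) + g (h y (N y))) * (g (h x (N x)) + g (h y (N y))) =
            g (h x (N x)) * g (h x (N x)) + g (h y (N y)) * g (h y (N y)) +
            (g (h x (N x)) * g (h y (N y)) + g (h x (N x)) * g (h y (N y))) := by ring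
        rw [hg, h1, ck, hg, hg, add_zero, map_add, hs.add, hs.add_right, hs.add_right,
          hs.comm y (N x), hN x y]
        have h2 := ck (h x (N y))
        linear_combination h2
      map_smul' := by
        intro c x
        apply hinj
        rw [hg, RingHom.id_apply, map_smul, hs.smul, hs.smul_right]
        have h2 : c • g (h x (N x)) * c • g (h x (N x)) = c * (c * (g (h x (N x)) * g (h x (N x)))) := by
          simp only [smul_eq_mul]
          ring
        rw [h2, hg] }
  obtain ⟨a, ha⟩ := exists_rep hs f
  have hV : Vc h N a := by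
    intro x
    rw [ha]
    exact (hg _).symm
  refine ⟨a, mem_range_of_perp hs hN ?_, hV⟩
  intro x hx
  have h1 := hV x
  rw [hx, hs.zero_right] at h1
  exact mul_self_eq_zero.1 h1.symm

/-- The type by the vector. -/
theorem alt_iff_vec (hs : Sy h) {N : Module.End K V} {a : V} (ha : Vc h N a) :
    Alt h N ↔ a = 0 := by
  constructor
  · intro h1
    apply hs.herm.nondeg
    intro y
    rw [hs.comm]
    have h2 := ha y
    rw [h1] at h2
    exact mul_self_eq_zero.1 h2.symm
  · rintro rfl x
    rw [ha, hs.zero_right, mul_zero]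

/-- `h (L a)` for an inverse element `L`. -/
theorem vec_inv {N L : Module.End K V} (hL : SA h L) (hI : Inv N L) {a : V} (ha : Vc h N a) : Vc h L (L a) := by
  intro x
  have h1 : L (N (L x)) = L x := LinearMap.congr_fun hI.2 x
  rw [← hL x a, ← ha, hL, h1]

/-- A self adjoint square zero `R` which commutes with `N` kills the vector of `N`. -/
theorem vec_comm (hs : Sy h) {N R : Module.End K V} (hR : SA h R) (hRR : R * R = 0)
    (hc : N * R = R * N) {a : V} (ha : Vc h N a) : R a = 0 := by
  have hRR' : ∀ x, R (R x) = 0 := fun x => LinearMap.congr_fun hRR x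
  have hc' : ∀ x, N (R x) = R (N x) := fun x => LinearMap.congr_fun hc x
  apply hs.herm.nondeg
  intro x
  rw [hR, hs.comm]
  have h1 := ha (x + R x)
  have h2 : h (x + R x) (N (x + R x)) = h x (N x) := by
    rw [map_add, hs.add, hs.add_right, hs.add_right, hc', hR, hR x (R (N x)), hRR', hs.zero_right,
      add_zero]
    have h3 := ck (h x (R (N x)))
    linear_combination h3
  rw [h2, ha x, hs.add] at h1
  have h3 : h (R x) a * h (R x) a = 0 := by
    have h4 := ck (h x a * h (R x) a)
    linear_combination -h1 + -h4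
  exact mul_self_eq_zero.1 h3

/-- `Θ = M' L` satisfies `Θ N Θ = 0`. -/
theorem theta_sq {N L M' : Module.End K V} (hM' : M' * M' = 0) (hI : Inv N L)
    (hc : L * M' = M' * L) : M' * L * N * (M' * L) = 0 := by
  have h1 : M' * L * N * (M' * L) = M' * L * N * (L * M') :=
    congrArg (fun t => M' * L * N * t) hc.symm
  have h2 : M' * L * N * (L * M') = M' * (L * N * L) * M' := by simp only [mul_assoc]
  rw [h1, h2, hI.2, mul_assoc, hc, ← mul_assoc, hM', zero_mul]

/-- `Θ` kills the vector of `N`. -/
theorem theta_vec (hs : Sy h) {N L M' : Module.End K V} (hL : SA h L) (hM : SA h M')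
    (hM' : M' * M' = 0) (hI : Inv N L) (hc : L * M' = M' * L) {a : V} (ha : Vc h N a) :
    M' (L a) = 0 := by
  have hc' : ∀ x, L (M' x) = M' (L x) := fun x => LinearMap.congr_fun hc x
  have h0 : ∀ x, M' (L (N (M' (L x)))) = 0 := fun x => LinearMap.congr_fun (theta_sq hM' hI hc) x
  have hA : ∀ x y, h (M' (L x)) y = h x (M' (L y)) := by
    intro x y
    rw [hM, hL, hc']
  apply hs.herm.nondeg
  intro w
  rw [hs.comm, ← hA]
  have h1 := ha (M' (L w))
  rw [hA, h0, hs.zero_right] at h1
  exact mul_self_eq_zero.1 h1.symm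

/-- `ψ` preserves the class of `N` and the orders of products, and fixes the elements commuting with `N`. -/
structure Fx (h : V → V → K) (j : ℕ) (b : Prop) (N : Module.End K V)
    (ψ : Module.End K V → Module.End K V) : Prop where
  hN : N ∈ Cl h j b
  pres : SPres h j b ψ
  fix : ∀ R ∈ Cl h j b, N * R = R * N → ψ R = R

/-- The element `Y = L + L u (L u)* + L v (L v)*`. -/
def yel (hs : Sy h) (L : Module.End K V) (u v : V) : Module.End K V :=
  L + rk hs.herm (L u) (L u) + rk hs.herm (L v) (L v)

theorem yel_apply (hs : Sy h) (L : Module.End K V) (u v z : V) :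
    yel hs L u v z = L z + h z (L u) • L u + h z (L v) • L v := rfl

end Pool.Agent.Helper2.SP
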