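import Pool.Agent.Helper2.SP.Defs

/-!
# Block SP-DF: M and its image agree on range N modulo range N

`mem_range_of_perp` for `N`: let `N y = 0`; show `h y (M' w + M w) = 0`. `y = y₁ + y₂`, `y₁ = G (M y)` in `range G = range N`,
`y₂ = y + G (M y)` (characteristic two): `M y₂ = M y + M G M y = 0`, `N y₂ = 0` (`N (G _) = 0` by `mul_of_range`). So `M' y₂ = 0` by `hk`, and
`h y₂ (M' w + M w) = h (M' y₂ + M y₂) w = 0`. For `y₁ = G t`: `h (G t) (M' w + M w) = h t (G (M' w) + G (M w))`, and `G (M' w) = w = G (M w)` for `w`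
in `range N = range G` (`hI'.1`, `hI.1`), so this is `h t (w + w) = 0` (`aav K`).
-/

set_option autoImplicit false
set_option linter.unusedSectionVars false

open LinearMap

namespace Pool.Agent.Helper2.SP

open Pool.Agent.Helper81.UT Pool.Agent.Helper81.EU
open Pool.Agent.Helper2.EV hiding one_add_sq Pres core

variable {K V : Type*} [Field K] [StarRing K] [AddCommGroup V] [Module K V] [CharP K 2] [Finite K]
  [FiniteDimensional K V] {h : V → V → K} {j : ℕ} {b : Prop}

theorem diff_mem (hs : Sy h) {N G M M' : Module.End K V} (hN : N ∈ El h j) (hG : G ∈ El h j)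
    (hM : M ∈ El h j) (hM' : M' ∈ El h j) (hr : range G = range N) (hI : Inv G M)
    (hI' : Inv G M') (hk : ∀ x, N x = 0 → M x = 0 → M' x = 0) :
    ∀ w ∈ range N, M' w + M w ∈ range N := by
  intro w hw
  have hNG : N * G = 0 := (mul_of_range hN.1 hG.1 hr).1
  have e1 : ∀ z, G (M (G z)) = G z := fun z => LinearMap.congr_fun hI.1 z
  have e2 : ∀ z, M (G (M z)) = M z := fun z => LinearMap.congr_fun hI.2 z
  have e3 : ∀ z, G (M' (G z)) = G z := fun z => LinearMap.congr_fun hI'.1 z
  have e4 : ∀ z, N (G z) = 0 := fun z => LinearMap.congr_fun hNG z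
  rw [← hr] at hw
  obtain ⟨s, rfl⟩ := hw
  apply mem_range_of_perp hs hN.2
  intro y hy
  have hM2 : M (y + G (M y)) = 0 := by
    rw [map_add, e2]
    exact aav K _
  have hN2 : N (y + G (M y)) = 0 := by rw [map_add, hy, e4, add_zero]
  have hM2' : M' (y + G (M y)) = 0 := hk _ hN2 hM2
  have h2 : h (y + G (M y)) (M' (G s) + M (G s)) = 0 := by
    rw [hs.add_right, ← hM'.2, ← hM.2, hM2, hM2', hs.zero_left, add_zero]
  have h1 : h (G (M y)) (M' (G s) + M (G s)) = 0 := by
    rw [hG.2, map_add, e3, e1, aav K, hs.zero_right]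
  rw [hs.add, h1, add_zero] at h2
  exact h2

end Pool.Agent.Helper2.SP
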