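import Pool.Agent.Helper2.SP.Defs

/-!
# Block SP-EX: extension of totally isotropic subspaces

`TI`, `Nd`: see `Pool/Agent/Helper81/EU/Ext.lean` (`extend_ti` there is the same statement for hermitian forms; here every vector is isotropic, so it is easier).
Induction on `j - finrank A`. If `finrank A < j`: `exists_mem_perp` (`Pool/Agent/Helper81/EU/Geo.lean`) for `A`, `U₀` gives `b₀ ≠ 0` in `U₀` orthogonal to `A`; `b₀` is not in `A` (it is
orthogonal to `U₀`, as `U₀` is totally isotropic, and `Nd h A U₀`). There is a `y₀` orthogonal to `A` with `h y₀ b₀ ≠ 0`: otherwise `b₀` is in the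
orthogonal space of the orthogonal space of `A`, which is `A` (e.g. a linear form vanishing on `A` and not at `b₀` is `h · y₀` by `exists_rep`). In the same way `b₁` in `U₁`, `y₁`.
`two_hyp` of `Geo.lean` (all vectors are isotropic: `hs.alt`) or: one of `y₀`, `y₁`, `y₀ + y₁` is orthogonal to `A` and not orthogonal to `b₀` and `b₁`; call it `y`.
`A' = A + K y`: totally isotropic; if `x + c y` (`x` in `A`) is orthogonal to `U₀` then `0 = h (x + c y) b₀ = c * h y b₀`, so `c = 0` and `x = 0`; the same for `U₁`. `y` is not in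
`A` (`h y b₀ ≠ 0`), so the dimension grows by one.
-/

set_option autoImplicit false
set_option linter.unusedSectionVars false

open LinearMap

namespace Pool.Agent.Helper2.SP

open Pool.Agent.Helper81.UT Pool.Agent.Helper81.EU
open Pool.Agent.Helper2.EV hiding one_add_sq Pres core

variable {K V : Type*} [Field K] [StarRing K] [AddCommGroup V] [Module K V] [CharP K 2] [Finite K]
  [FiniteDimensional K V] {h : V → V → K} {j : ℕ} {b : Prop}

private theorem ext_b24 (hs : Sy h) {j : ℕ} {U A : Submodule K V}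
    (h0 : TI h U) (d0 : Module.finrank K U = j)
    (dA : Module.finrank K A < j) (n0 : Nd h A U) :
    ∃ b ∈ U, (∀ a ∈ A, h b a = 0) ∧ ∃ y, (∀ a ∈ A, h y a = 0) ∧ h y b ≠ 0 := by
  obtain ⟨b, hbU, hb0, hbA⟩ := exists_mem_perp hs.herm (A := A) (U := U) (by rw [d0]; exact dA)
  have hbn : b ∉ A := fun hb => hb0 (n0 b hb fun u hu => h0 b hbU u hu)
  obtain ⟨f, hfb, hf⟩ := Submodule.exists_le_ker_of_notMem hbn
  obtain ⟨u, hu⟩ := exists_rep hs f
  refine ⟨b, hbU, hbA, u, fun a ha => ?_, ?_⟩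
  · rw [hs.comm, hu]
    exact hf ha
  · rw [hs.comm, hu]
    exact hfb

private theorem ext_nd24 (hs : Sy h) {U A : Submodule K V} {b y : V} (hbU : b ∈ U)
    (hbA : ∀ a ∈ A, h b a = 0) (n0 : Nd h A U) (hyb : h y b ≠ 0) :
    Nd h (A ⊔ K ∙ y) U := by
  intro x hx hxU
  obtain ⟨a, ha, z, hz, rfl⟩ := Submodule.mem_sup.1 hx
  obtain ⟨c, rfl⟩ := Submodule.mem_span_singleton.1 hz
  have h1 := hxU b hbU
  rw [hs.add, hs.smul, hs.comm a b, hbA a ha, zero_add] at h1
  have hc : c = 0 := (mul_eq_zero.1 h1).resolve_right hyb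
  subst hc
  rw [zero_smul, add_zero] at hxU ⊢
  exact n0 a ha hxU

theorem extend_ti' (hs : Sy h) {U₀ U₁ A : Submodule K V} (h0 : TI h U₀) (h1 : TI h U₁)
    (hd0 : Module.finrank K U₀ = j) (hd1 : Module.finrank K U₁ = j) (hA : TI h A)
    (hd : Module.finrank K A ≤ j) (hn0 : Nd h A U₀) (hn1 : Nd h A U₁) :
    ∃ A' : Submodule K V, A ≤ A' ∧ TI h A' ∧ Module.finrank K A' = j ∧ Nd h A' U₀ ∧
      Nd h A' U₁ := by
  obtain ⟨k, hk⟩ := Nat.exists_eq_add_of_le hd
  induction k generalizing A with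
  | zero => exact ⟨A, le_refl A, hA, by omega, hn0, hn1⟩
  | succ k ih =>
    obtain ⟨b₀, hb0U, hb0A, y₀, hy0A, hyb0⟩ := ext_b24 hs h0 hd0 (by omega) hn0
    obtain ⟨b₁, hb1U, hb1A, y₁, hy1A, hyb1⟩ := ext_b24 hs h1 hd1 (by omega) hn1
    let Z : Submodule K V :=
      { carrier := {z | ∀ a ∈ A, h z a = 0}
        add_mem' := by
          intro x y hx hy a ha
          rw [hs.add, hx a ha, hy a ha, add_zero]
        zero_mem' := fun a _ => hs.zero_left a
        smul_mem' := by
          intro c x hx a ha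
          rw [hs.smul, hx a ha, mul_zero] }
    obtain ⟨y, hyZ, hyy, hb0, hb1⟩ := two_hyp hs.herm (Z := Z) hy0A (hs.alt y₀) hy1A (hs.alt y₁)
      hyb0 hyb1
    have hyA : ∀ a ∈ A, h y a = 0 := hyZ
    have hyn : y ∉ A := fun hy => hb0 (by rw [hs.comm]; exact hb0A y hy)
    have hd' : Module.finrank K ↥(A ⊔ K ∙ y) = Module.finrank K A + 1 :=
      Submodule.finrank_sup_span_singleton hyn
    have hTI : TI h (A ⊔ K ∙ y) := by
      intro x hx x' hx'
      obtain ⟨a, ha, z, hz, rfl⟩ := Submodule.mem_sup.1 hx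
      obtain ⟨c, rfl⟩ := Submodule.mem_span_singleton.1 hz
      obtain ⟨a', ha', z', hz', rfl⟩ := Submodule.mem_sup.1 hx'
      obtain ⟨c', rfl⟩ := Submodule.mem_span_singleton.1 hz'
      rw [hs.add, hs.add_right, hs.add_right, hs.smul, hs.smul, hs.smul_right, hs.smul_right,
        hA a ha a' ha', hs.comm a y, hyA a ha, hyA a' ha', hyy]
      ring
    obtain ⟨A', hle, hT', hd'', hn0', hn1'⟩ := ih hTI (by omega)
      (ext_nd24 hs hb0U hb0A hn0 hb0) (ext_nd24 hs hb1U hb1A hn1 hb1) (by omega)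
    exact ⟨A', le_trans le_sup_left hle, hT', hd'', hn0', hn1'⟩

end Pool.Agent.Helper2.SP
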