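import Pool.Agent.Helper2.SP.Defs

/-!
# Block SP-XC: the exchange lemma for one type

The proof is the one of `exchange` in `Pool/Agent/Helper81/EU/Exch.lean` (copy it: `hs.herm`, `hR.1`, `hM.1`), with one change: the type of `R'`.
There `x`, `y` are chosen with `R x = R y = M x = 0`, `R (M y) = y`, `h x x = h x y = h y y = h x (M y) = 0`, `c = h y (M y)`,
`R' z = R z + h z y • x + h z x • y + (c * h z x) • x`. Now (trivial star, `h` alternating) `R' = (1 + T) R (1 + T)` with
`T = rk hs.herm (M y) x + rk hs.herm x (M y)`, that is `T z = h z (M y) • x + h z x • M y`; `T * T = 0` by `rk_two_sq` (`h (M y) (M y) = 0`, `h x x = 0`),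
`SA h T` by `rk_two_sa`, so `R'` is in `Cl h j b` by `conj_cl` (this also replaces the proof of the rank and of `R' R' = 0`). Check:
`T (R z) = h z y • x` (`h (R z) (M y) = h z (R M y) = h z y`, `h (R z) x = 0`), `R (T z) = h z x • y`, `T (R (T z)) = (h z x * c) • x`.
-/

set_option autoImplicit false
set_option linter.unusedSectionVars false

open LinearMap

namespace Pool.Agent.Helper2.SP

open Pool.Agent.Helper81.UT Pool.Agent.Helper81.EU
open Pool.Agent.Helper2.EV hiding one_add_sq Pres core

variable {K V : Type*} [Field K] [StarRing K] [AddCommGroup V] [Module K V] [CharP K 2] [Finite K]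
  [FiniteDimensional K V] {h : V → V → K} {j : ℕ} {b : Prop}

theorem exchange' (hs : Sy h) {R M : Module.End K V} (hR : R ∈ Cl h j b) (hM : M ∈ Cl h j b)
    (h3 : O3 R M) (hne : R ≠ M) (hn : R * M * R ≠ R) :
    ∃ R' ∈ Cl h j b, range R' = range R ∧ R' ≠ R ∧ O3 R' M := by
  have hh : Herm h := hs.herm
  obtain ⟨h31, h32⟩ := h3
  have h31' : ∀ z, R (M (R (M z))) = R (M z) := fun z => LinearMap.congr_fun h31 z
  have h32' : ∀ z, R (M (R z)) + R z = M (R (M z)) + M z := fun z => LinearMap.congr_fun h32 z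
  -- the product is not zero
  have hRM : R * M ≠ 0 := by
    intro h0
    apply hne
    have e1 : R * M * R = 0 := by rw [h0, zero_mul]
    have e2 : M * R * M = 0 := by rw [mul_assoc, h0, mul_zero]
    rw [e1, e2, zero_add, zero_add] at h32
    exact h32
  obtain ⟨y₀, hy₀⟩ : ∃ y₀, R (M y₀) ≠ 0 := by
    by_contra hc
    push Not at hc
    exact hRM (LinearMap.ext hc)
  obtain ⟨y, hy⟩ : ∃ y, y = R (M y₀) := ⟨_, rfl⟩
  have hy0 : y ≠ 0 := hy ▸ hy₀
  have hRMy : R (M y) = y := by rw [hy, h31']
  have hE : R * M * R + R ≠ 0 := by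
    intro h0
    apply hn
    have e1 : R * M * R + R + R = R := by rw [h0, zero_add]
    rwa [add_assoc, aa, add_zero] at e1
  obtain ⟨x₀, hx₀⟩ : ∃ x₀, R (M (R x₀)) + R x₀ ≠ 0 := by
    by_contra hc
    push Not at hc
    exact hE (LinearMap.ext hc)
  obtain ⟨x, hx⟩ : ∃ x, x = R (M (R x₀)) + R x₀ := ⟨_, rfl⟩
  have hx0 : x ≠ 0 := hx ▸ hx₀
  have hxR : x = R (M (R x₀) + x₀) := by rw [hx, map_add]
  have hxM : x = M (R (M x₀) + x₀) := by rw [hx, h32', map_add]
  have hyR : y = R (M y) := hRMy.symm
  have hRx : R x = 0 := by rw [hxR, el_sq' hR.1]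
  have hMx : M x = 0 := by rw [hxM, el_sq' hM.1]
  have hxx : h x x = 0 := hs.alt x
  have hxy : h x y = 0 := by
    conv_lhs => rw [hyR, hxR]
    exact el_perp hh hR.1 _ _
  have hyx : h y x = 0 := hh.eq_zero_comm.1 hxy
  have hxMy : h x (M y) = 0 := by rw [← el_adj hM.1, hMx, hh.zero_left]
  have hMyx : h (M y) x = 0 := hh.eq_zero_comm.1 hxMy
  have hind : ∀ k : K, y ≠ k • x := by
    intro k hk
    apply hy0
    rw [← hRMy, hk, map_smul, hMx, smul_zero, map_zero]
  obtain ⟨c, hc⟩ : ∃ c, c = h y (M y) := ⟨_, rfl⟩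
  have hxR' : ∀ z, h (R z) x = 0 := fun z => by rw [el_adj hR.1, hRx, hh.zero_right]
  -- the conjugating element
  obtain ⟨T, hT⟩ : ∃ T : Module.End K V, T = rk hh (M y) x + rk hh x (M y) := ⟨_, rfl⟩
  have hTz : ∀ z, T z = h z (M y) • x + h z x • M y := by
    intro z
    rw [hT]
    rfl
  have hTT : T * T = 0 := by
    rw [hT]
    exact rk_two_sq hh (hs.alt _) hxx hMyx
  have hTS : SA h T := by
    rw [hT]
    exact rk_two_sa hh _ _
  obtain ⟨R', hR'⟩ : ∃ R' : Module.End K V, R' = (1 + T) * R * (1 + T) := ⟨_, rfl⟩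
  have hmem : R' ∈ Cl h j b := by
    rw [hR']
    exact conj_cl hs hR hTT hTS
  have hR'z : ∀ z, R' z = R z + h z y • x + h z x • y + (c * h z x) • x := by
    intro z
    rw [hR']
    show R (z + T z) + T (R (z + T z)) = _
    have e1 : R (z + T z) = R z + h z x • y := by
      rw [hTz, map_add, map_add, map_smul, map_smul, hRx, hRMy, smul_zero, zero_add]
    have e2 : h (R z + h z x • y) x = 0 := by
      rw [hs.add, hs.smul, hxR', hyx, mul_zero, add_zero]
    have e3 : h (R z + h z x • y) (M y) = h z y + h z x * c := by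
      rw [hs.add, hs.smul, el_adj hR.1, hRMy, hc]
    rw [e1, hTz, e2, e3]
    module
  have hSA : SA h R' := hmem.1.2
  -- the range
  have hle : range R' ≤ range R := by
    rintro _ ⟨z, rfl⟩
    rw [hR'z]
    have e1 : x ∈ range R := ⟨_, hxR.symm⟩
    have e2 : y ∈ range R := ⟨_, hRMy⟩
    exact (range R).add_mem ((range R).add_mem ((range R).add_mem ⟨z, rfl⟩
      ((range R).smul_mem _ e1)) ((range R).smul_mem _ e2)) ((range R).smul_mem _ e1)
  have hrank : Module.finrank K (range R') = Module.finrank K (range R) :=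
    hmem.1.1.2.trans hR.1.1.2.symm
  have hrange : range R' = range R := Submodule.eq_of_le_of_finrank_eq hle hrank
  -- order three
  have hMx' : ∀ z, h (M z) x = 0 := fun z => by rw [el_adj hM.1, hMx, hh.zero_right]
  have hR'M : ∀ z, R' (M z) = R (M z) + h z (M y) • x := by
    intro z
    rw [hR'z, hMx', el_adj hM.1]
    simp
  have hMR'M : ∀ z, M (R' (M z)) = M (R (M z)) := by
    intro z
    rw [hR'M, map_add, map_smul, hMx, smul_zero, add_zero]
  have hR'MR' : ∀ z, R' (M (R' z)) = R (M (R z)) + h z x • y + h z y • x + (c * h z x) • x := by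
    intro z
    have e1 : h (R' z) (M y) = h z y + c * h z x := by
      rw [hSA, hR'M, hRMy, ← hc, hs.add_right, hs.smul_right]
    have e2 : R (M (R' z)) = R (M (R z)) + h z x • y := by
      simp only [hR'z, map_add, map_smul, hMx, hRMy, smul_zero, add_zero]
    rw [hR'M, e1, e2]
    module
  refine ⟨R', hmem, hrange, ?_, ?_, ?_⟩
  · intro he
    obtain ⟨z, hz⟩ : ∃ z, h z x ≠ 0 := by
      by_contra hcon
      push Not at hcon
      apply hx0
      apply hh.nondeg
      intro z
      exact hh.eq_zero_comm.1 (hcon z)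
    have e1 := hR'z z
    rw [he] at e1
    apply hind ((h z x)⁻¹ * -(h z y + c * h z x))
    have e2 : h z x • y = (-(h z y + c * h z x)) • x := by
      have e3 : R z + h z y • x + h z x • y + (c * h z x) • x - R z = 0 := by
        rw [← e1, sub_self]
      have e4 : h z x • y - (-(h z y + c * h z x)) • x =
          R z + h z y • x + h z x • y + (c * h z x) • x - R z := by module
      rw [← sub_eq_zero, e4, e3]
    rw [mul_smul, ← e2, smul_smul, inv_mul_cancel₀ hz, one_smul]
  · ext z
    show R' (M (R' (M z))) = R' (M z)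
    have e1 : h (R' (M z)) (M y) = h z (M y) := by
      rw [hR'M, hh.add, hh.smul, hxMy, mul_zero, add_zero, el_adj hR.1, hRMy, el_adj hM.1]
    rw [hR'M (R' (M z)), e1, hR'M, map_add, map_add, map_smul, map_smul, hMx, map_zero, smul_zero,
      add_zero, h31']
  · ext z
    show R' (M (R' z)) + R' z = M (R' (M z)) + M z
    rw [hMR'M, ← h32', hR'MR', hR'z]
    have e1 := aav K (h z x • y)
    have e2 := aav K (h z y • x)
    have e3 := aav K ((c * h z x) • x)
    have e4 : R (M (R z)) + h z x • y + h z y • x + (c * h z x) • x +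
        (R z + h z y • x + h z x • y + (c * h z x) • x) = R (M (R z)) + R z +
        (h z x • y + h z x • y) + (h z y • x + h z y • x) +
        ((c * h z x) • x + (c * h z x) • x) := by abel
    rw [e4, e1, e2, e3, add_zero, add_zero, add_zero]

end Pool.Agent.Helper2.SP
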