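import Pool.Agent.Helper2.SP.Defs

/-!
# Block SP-F2: elements inverse to N, vectors with h v (M v) = 0

Copy of `fam2_core` and `fam2` in `Pool/Agent/Helper81/EU/Fam2.lean` (the star is trivial now: `hs.smul_right`, `hs.comm`): `T = rk hs.herm (M v) (M v)`,
`R = (1 + T) N (1 + T)` is in `Cl h j b` by `conj_cl`; `R` commutes with `N` and `Inv R M`, so `O3 R M` (`o3_of_inv`), `O3 R M'` by `H`. With
`p = N (M' (M v))` one gets `h z p • v + h z v • p = 0` for all `z`. If `v = 0` take `c = 0`; otherwise choose `z` with `h z v = 1` (`exists_one`).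
-/

set_option autoImplicit false
set_option linter.unusedSectionVars false

open LinearMap

namespace Pool.Agent.Helper2.SP

open Pool.Agent.Helper81.UT Pool.Agent.Helper81.EU
open Pool.Agent.Helper2.EV hiding one_add_sq Pres core

variable {K V : Type*} [Field K] [StarRing K] [AddCommGroup V] [Module K V] [CharP K 2] [Finite K]
  [FiniteDimensional K V] {h : V → V → K} {j : ℕ} {b : Prop}

/-- The equation of the block, for all `z`. -/
private theorem fam_core68 (hs : Sy h)
    {N M M' : Module.End K V} (hN : N ∈ Cl h j b) (hM : M ∈ Cl h j b) (hM' : M' ∈ Cl h j b)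
    (hI : Inv N M) (hI' : Inv N M')
    (H : ∀ R ∈ Cl h j b, N * R = R * N → O3 R M → O3 R M') {v : V} (hv : v ∈ range N)
    (hv' : h v (M v) = 0) (z : V) :
    h z (N (M' (M v))) • v + h z v • N (M' (M v)) = 0 := by
  have hh := hs.herm
  obtain ⟨a, rfl⟩ := hv
  obtain ⟨v, hva⟩ : ∃ v, v = N a := ⟨_, rfl⟩
  rw [← hva] at hv' ⊢
  have eN : ∀ x, N (M (N x)) = N x := fun x => LinearMap.congr_fun hI.1 x
  have eM : ∀ x, M (N (M x)) = M x := fun x => LinearMap.congr_fun hI.2 x
  have eN' : ∀ x, N (M' (N x)) = N x := fun x => LinearMap.congr_fun hI'.1 x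
  have Nv : N v = 0 := by rw [hva]; exact el_sq' hN.1 a
  have NMv : N (M v) = v := by rw [hva]; exact eN a
  have NMv' : N (M' v) = v := by rw [hva]; exact eN' a
  have vMv : h v (M v) = 0 := hv'
  have Mvv : h (M v) v = 0 := by rw [hs.comm]; exact hv'
  have MvMv : h (M v) (M v) = 0 := el_perp hh hM.1 v v
  have va : h v a = 0 := by
    rw [← NMv, el_adj hN.1, ← hva]; exact Mvv
  have M'vv : h (M' v) v = 0 := by
    have h1 : h (M' v) (N a) = h (N (M' v)) a := (el_adj hN.1 _ _).symm
    rw [← hva, NMv'] at h1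
    rw [h1, va]
  -- the element `R`
  obtain ⟨T, hT⟩ : ∃ T, T = rk hh (M v) (M v) := ⟨_, rfl⟩
  have hTT : T * T = 0 := by rw [hT]; exact rk_sq hh MvMv
  have hTs : SA h T := by rw [hT]; exact rk_sa hh _
  obtain ⟨R, hR⟩ : ∃ R, R = (1 + T) * N * (1 + T) := ⟨_, rfl⟩
  have hRE : R ∈ Cl h j b := by rw [hR]; exact conj_cl hs hN hTT hTs
  have Tz : ∀ x, T x = h x (M v) • M v := by intro x; rw [hT, rk_apply]
  have Rz : ∀ x, R x = N x + h x (M v) • v + h x v • M v := by
    intro x
    have h1 : R x = N (x + T x) + T (N (x + T x)) := by rw [hR]; rfl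
    have h2 : N (x + T x) = N x + h x (M v) • v := by
      rw [map_add, Tz, map_smul, NMv]
    have h3 : T (N x + h x (M v) • v) = h x v • M v := by
      rw [Tz, hh.add, hh.smul, vMv, mul_zero, add_zero, el_adj hN.1, NMv]
    rw [h1, h2, h3]
  have RN : ∀ x, R (N x) = h x v • v := by
    intro x
    rw [Rz, el_sq' hN.1, el_adj hN.1, NMv, el_adj hN.1, Nv, hh.zero_right, zero_smul, zero_add,
      add_zero]
  have NR : ∀ x, N (R x) = h x v • v := by
    intro x
    rw [Rz, map_add, map_add, map_smul, map_smul, Nv, NMv, el_sq' hN.1, smul_zero, add_zero,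
      zero_add]
  have hcomm : N * R = R * N := by
    ext x
    show N (R x) = R (N x)
    rw [RN, NR]
  have RM : ∀ x, R (M x) = N (M x) + h x (M v) • M v := by
    intro x
    rw [Rz, el_perp hh hM.1, zero_smul, add_zero, el_adj hM.1]
  have hRMv : ∀ x, h (R x) (M v) = h x v := by
    intro x
    rw [Rz, hh.add, hh.add, hh.smul, hh.smul, vMv, MvMv, mul_zero, mul_zero, add_zero, add_zero,
      el_adj hN.1, NMv]
  have hInv : Inv R M := by
    constructor
    · ext x
      show R (M (R x)) = R x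
      have h1 : N (M (R x)) = N x + h x (M v) • v := by
        rw [Rz, map_add M, map_smul M (h x v), el_sq' hM.1, smul_zero, add_zero, map_add, map_smul,
          map_add, map_smul, eN, NMv]
      rw [RM, h1, hRMv, ← Rz]
    · ext x
      show M (R (M x)) = M x
      rw [RM, map_add, map_smul, el_sq' hM.1, smul_zero, add_zero, eM]
  have hO := H R hRE hcomm (o3_of_inv hInv)
  have h1 : R (M' (R (N z))) + R (N z) = M' (R (M' (N z))) + M' (N z) :=
    LinearMap.congr_fun hO.2 (N z)
  have h2 := congrArg N h1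
  rw [map_add, map_add, NR, RN, map_smul, hh.smul, M'vv, mul_zero, zero_smul, map_smul, Nv,
    smul_zero, zero_add, eN'] at h2
  obtain ⟨w, hw⟩ : ∃ w, w = M' (N z) := ⟨_, rfl⟩
  have hNw : N w = N z := by rw [hw, eN']
  have hwv : h w v = h z v := by
    rw [hw, el_adj hM'.1, el_adj hN.1, NMv']
  have hwMv : h w (M v) = h z (N (M' (M v))) := by
    rw [hw, el_adj hM'.1, el_adj hN.1]
  have h3 : N (M' (R w)) = N z + h z (N (M' (M v))) • v + h z v • N (M' (M v)) := by
    rw [Rz, map_add, map_add, map_smul, map_smul, map_add, map_add, map_smul, map_smul, eN', NMv',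
      hNw, hwv, hwMv]
  rw [← hw, h3] at h2
  have h4 := aav K (N z)
  have h5 : N z + h z (N (M' (M v))) • v + h z v • N (M' (M v)) + N z =
      (N z + N z) + (h z (N (M' (M v))) • v + h z v • N (M' (M v))) := by abel
  rw [h5, h4, zero_add] at h2
  exact h2.symm

theorem fam_two (hs : Sy h) {N M M' : Module.End K V} (hN : N ∈ Cl h j b) (hM : M ∈ Cl h j b)
    (hM' : M' ∈ Cl h j b) (hI : Inv N M) (hI' : Inv N M')
    (H : ∀ R ∈ Cl h j b, N * R = R * N → O3 R M → O3 R M') {v : V} (hv : v ∈ range N)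
    (hv' : h v (M v) = 0) : ∃ c : K, N (M' (M v)) = c • v := by
  by_cases hv0 : v = 0
  · refine ⟨0, ?_⟩
    rw [hv0, map_zero, map_zero, map_zero, smul_zero]
  · obtain ⟨z, hz⟩ := exists_one hs hv0
    have h1 := fam_core68 hs hN hM hM' hI hI' H hv hv' z
    rw [hz, one_smul] at h1
    refine ⟨h z (N (M' (M v))), ?_⟩
    exact (eq_of_add K h1).symm

end Pool.Agent.Helper2.SP
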