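import Pool.Agent.Helper2.SP.Exch

/-!
# Block SP-FX: inverse elements are preserved

Copy of `inv_fix` in `Pool/Agent/Helper81/EU/Fix.lean`, with `exchange'` in place of `exchange` (`hR.1`, `hX.1` are the elements of `El h j`,
`el_sq hR.1`, `inv_unique hs.herm`, `inv_of_o3`, `inv_rank`, `o3_of_inv`, `three'`).
-/

set_option autoImplicit false
set_option linter.unusedSectionVars false

open LinearMap

namespace Pool.Agent.Helper2.SP

open Pool.Agent.Helper81.UT Pool.Agent.Helper81.EU
open Pool.Agent.Helper2.EV hiding one_add_sq Pres core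

variable {K V : Type*} [Field K] [StarRing K] [AddCommGroup V] [Module K V] [CharP K 2] [Finite K]
  [FiniteDimensional K V] {h : V → V → K} {j : ℕ} {b : Prop}

theorem inv_fix' (hs : Sy h) (hj : 1 ≤ j) {ψ : Module.End K V → Module.End K V}
    (hψ : SPres h j b ψ) {R X : Module.End K V} (hR : R ∈ Cl h j b) (hX : X ∈ Cl h j b)
    (hfix : ∀ R' ∈ Cl h j b, range R' = range R → ψ R' = R') (hI : Inv R X) : Inv R (ψ X) := by
  have hψR : ψ R = R := hfix R hR rfl
  have hψX : ψ X ∈ Cl h j b := hψ.mem X hX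
  have hord3 : ∀ R' ∈ Cl h j b, ψ R' = R' → (O3 R' (ψ X) ↔ O3 R' X) := by
    intro R' hR' h1
    have h2 := hψ.ord R' hR' X hX 3
    rw [h1, three' (el_sq hR'.1) (el_sq hψX.1), three' (el_sq hR'.1) (el_sq hX.1)] at h2
    exact h2
  have h3 : O3 R (ψ X) := (hord3 R hR hψR).2 (o3_of_inv hI)
  have hne : R ≠ ψ X := by
    intro he
    have h1 := hψ.ord R hR X hX 1
    rw [pow_one, pow_one, hψR, ← he] at h1
    have h2 : (1 + R) * (1 + X) = 1 := h1.1 (one_add_sq (el_sq hR.1))
    have h4 : 1 + X = 1 + R := by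
      have h5 : (1 + R) * ((1 + R) * (1 + X)) = (1 + R) * 1 := by rw [h2]
      rwa [← mul_assoc, one_add_sq (el_sq hR.1), one_mul, mul_one] at h5
    have h6 : X = R := add_left_cancel h4
    have h7 : R = 0 := by
      have h8 := hI.1
      rw [h6, el_sq hR.1, zero_mul] at h8
      exact h8.symm
    have h9 := hR.1.1.2
    rw [h7, LinearMap.range_zero, finrank_bot] at h9
    omega
  by_cases hn : R * ψ X * R = R
  · exact inv_rank hR.1.1 hψX.1.1 hn
  · exfalso
    obtain ⟨R', hR', hr, hRne, h3'⟩ := exchange' hs hR hψX h3 hne hn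
    apply hRne
    refine inv_unique hs.herm hR.1 hR'.1 hX.1.2 hr hI.1 (inv_of_o3 (el_sq hX.1) ?_ ?_)
    · rw [hr]
      exact hI.opp.2
    · exact (hord3 R' hR' (hfix R' hR' hr)).1 h3'

end Pool.Agent.Helper2.SP
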