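import Pool.Agent.Helper2.SP.Defs

/-!
# Block SP-FM: the image of M is a conjugate of M by 1 + S

Characteristic two. Let `S = (M' + M) * G`. `U N S`: `ker N = ker G` (`ker_eq_of_range`), the image by `hd` (`G z` is in `range N`). Let
`S' = G * (M' + M)` (the adjoint: `h (S x) y = h x (S' y)`). `S * S = 0` and `S' * S = 0`: `G (S z) = 0` (`S z` is in `range N = range G`, `G G = 0`)
gives `S S = 0`; `h (S x) (S y) = 0` (`range N` is totally isotropic, `el_perp`) gives `h x (S' (S y)) = 0` for all `x`, so `S' S = 0`.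
`M' G = M G + S` (`aa`), `G M' = G M + S'`. `S M G = S` (`(M' + M) G M G = (M' + M) G`), `S M' G = S`. So
`M' = M' G M' = (M G + S) M' = M (G M') + S M' = M + M S' + S M'` (`M G M = M`) and `S M' = S M G M' = S M (G M + S') = S M + S M S'`
(`S M G M = S M`), so `M' = M + M S' + S M + S M S' = (1 + S) M (1 + S')`. Let `D = S + S'`. `M' M' = 0` and `1 + S`, `1 + S'` are invertible (`S S = 0`,
`S' S' = 0` as the adjoint; `one_add_sq`): `0 = M (1 + S') (1 + S) M = M (1 + S + S' + S' S) M = M D M` (`M M = 0`). `D = G M D M G`: `S = S M G` and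
`G M S = S` (`S z` is in `range G`, `G M G = G`), the adjoints `S' = G M S'`, `S' M G = S'`. So `D = G (M D M) G = 0` and `S' = S`.
-/

set_option autoImplicit false
set_option linter.unusedSectionVars false

open LinearMap

namespace Pool.Agent.Helper2.SP

open Pool.Agent.Helper81.UT Pool.Agent.Helper81.EU
open Pool.Agent.Helper2.EV hiding one_add_sq Pres core

variable {K V : Type*} [Field K] [StarRing K] [AddCommGroup V] [Module K V] [CharP K 2] [Finite K]
  [FiniteDimensional K V] {h : V → V → K} {j : ℕ} {b : Prop}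

theorem form' (hs : Sy h) {N G M M' : Module.End K V} (hN : N ∈ El h j) (hG : G ∈ El h j)
    (hM : M ∈ El h j) (hM' : M' ∈ El h j) (hr : range G = range N) (hI : Inv G M)
    (hI' : Inv G M') (hd : ∀ w ∈ range N, M' w + M w ∈ range N) :
    ∃ S : Module.End K V, SA h S ∧ U N S ∧ M' = (1 + S) * M * (1 + S) := by
  have hh := hs.herm
  have key2 : ∀ A B : Module.End K V, A + B = 0 → A = B := by
    intro A B hAB
    calc A = A + (B + B) := by rw [aa, add_zero]
      _ = (A + B) + B := by rw [add_assoc]
      _ = B := by rw [hAB, zero_add]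
  obtain ⟨S, hS⟩ : ∃ S : Module.End K V, S = (M' + M) * G := ⟨_, rfl⟩
  obtain ⟨S', hS'⟩ : ∃ S' : Module.End K V, S' = G * (M' + M) := ⟨_, rfl⟩
  have g1 : G * M * G = G := hI.1
  have g2 : M * G * M = M := hI.2
  have g3 : G * M' * G = G := hI'.1
  have g4 : M' * G * M' = M' := hI'.2
  have hMM : M * M = 0 := el_sq hM
  have hM'M' : M' * M' = 0 := el_sq hM'
  have hrS : ∀ z, S z ∈ range N := by
    intro z
    rw [hS]
    exact hd (G z) (by rw [← hr]; exact ⟨z, rfl⟩)
  have hadj : ∀ x y, h (S x) y = h x (S' y) := by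
    intro x y
    have e1 : S x = M' (G x) + M (G x) := by rw [hS]; rfl
    have e2 : S' y = G (M' y + M y) := by rw [hS']; rfl
    rw [e1, e2, hh.add, hM'.2, hM.2, ← hG.2, hh.add_right]
  have hSS : S * S = 0 := by
    have e1 : S * S = (M' + M) * (G * M' * G + G * M * G) := by rw [hS]; noncomm_ring
    rw [e1, g1, g3, aa, mul_zero]
  have hS'S' : S' * S' = 0 := by
    have e1 : S' * S' = (G * M' * G + G * M * G) * (M' + M) := by rw [hS']; noncomm_ring
    rw [e1, g1, g3, aa, zero_mul]
  have hS'S : S' * S = 0 := by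
    ext y
    show S' (S y) = 0
    apply hh.nondeg
    intro x
    rw [hs.comm, ← hadj]
    obtain ⟨a, ha⟩ := hrS x
    obtain ⟨c, hc⟩ := hrS y
    rw [← ha, ← hc]
    exact el_perp hh hN a c
  have s1 : S * M * G = S := by
    have e1 : S * M * G = (M' + M) * (G * M * G) := by rw [hS]; noncomm_ring
    rw [e1, g1, hS]
  have s2 : G * M * S' = S' := by
    have e1 : G * M * S' = G * M * G * (M' + M) := by rw [hS']; noncomm_ring
    rw [e1, g1, hS']
  have s3 : G * M * S = S := by
    ext z
    show G (M (S z)) = S z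
    obtain ⟨y, hy⟩ : S z ∈ range G := by rw [hr]; exact hrS z
    rw [← hy]
    exact LinearMap.congr_fun g1 y
  have s4 : S' * M * G = S' := by
    ext y
    show S' (M (G y)) = S' y
    apply ext_left hh
    intro x
    rw [hs.comm, hs.comm (S' y), ← hadj, ← hadj, ← hM.2, ← hG.2]
    have e1 : G (M (S x)) = S x := LinearMap.congr_fun s3 x
    rw [e1]
  have m1 : M' * G = M * G + S := by
    have e1 : M * G + S = M' * G + (M * G + M * G) := by rw [hS]; noncomm_ring
    rw [e1, aa, add_zero]
  have m2 : G * M' = G * M + S' := by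
    have e1 : G * M + S' = G * M' + (G * M + G * M) := by rw [hS']; noncomm_ring
    rw [e1, aa, add_zero]
  have m3 : S * M' = S * M + S * M * S' := by
    calc S * M' = S * M * G * M' := by rw [s1]
      _ = S * M * (G * M') := by rw [mul_assoc (S * M)]
      _ = S * M * G * M + S * M * S' := by rw [m2, mul_add, ← mul_assoc]
      _ = S * M + S * M * S' := by rw [s1]
  have m4 : M' = (1 + S) * M * (1 + S') := by
    calc M' = M' * G * M' := g4.symm
      _ = M * (G * M') + S * M' := by rw [m1, add_mul, mul_assoc M]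
      _ = M * G * M + M * S' + (S * M + S * M * S') := by rw [m2, m3, mul_add, ← mul_assoc]
      _ = M + M * S' + (S * M + S * M * S') := by rw [g2]
      _ = (1 + S) * M * (1 + S') := by noncomm_ring
  have q1 : (1 + S) * (1 + S) = 1 := by
    have e1 : (1 + S) * (1 + S) = 1 + (S + S) + S * S := by noncomm_ring
    rw [e1, aa, hSS, add_zero, add_zero]
  have q2 : (1 + S') * (1 + S') = 1 := by
    have e1 : (1 + S') * (1 + S') = 1 + (S' + S') + S' * S' := by noncomm_ring
    rw [e1, aa, hS'S', add_zero, add_zero]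
  have q3 : M * (S + S') * M = 0 := by
    have e1 : (1 + S) * (M' * M') * (1 + S') = ((1 + S) * (1 + S)) * M * ((1 + S') * (1 + S)) * M *
        ((1 + S') * (1 + S')) := by
      rw [m4]
      noncomm_ring
    rw [hM'M', q1, q2, mul_zero, zero_mul, one_mul, mul_one] at e1
    have e2 : M * ((1 + S') * (1 + S)) * M = M * M + M * (S + S') * M + M * (S' * S) * M := by
      noncomm_ring
    rw [e2, hMM, hS'S, mul_zero, zero_mul, zero_add, add_zero] at e1
    exact e1.symm
  have q4 : S + S' = 0 := by
    have e1 : G * (M * (S + S') * M) * G = G * M * S * M * G + G * M * S' * M * G := by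
      noncomm_ring
    rw [q3, mul_zero, zero_mul, s3, s2, s1, s4] at e1
    exact e1.symm
  have q5 : S = S' := key2 _ _ q4
  refine ⟨S, ?_, ⟨?_, ?_⟩, ?_⟩
  · intro x y
    rw [hadj, ← q5]
  · intro x hx
    rw [ker_eq_of_range hh hN hG hr.symm, LinearMap.mem_ker] at hx
    rw [LinearMap.mem_ker, hS]
    show (M' + M) (G x) = 0
    rw [hx, map_zero]
  · rintro _ ⟨z, rfl⟩
    exact hrS z
  · rw [← q5] at m4
    exact m4

end Pool.Agent.Helper2.SP
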