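import Pool.Agent.Helper2.SP.Defs

/-!
# Block SP-KM: the common kernel of N and M is killed by the image of M

Characteristic two, `h` alternating. Let `c = M' x`. For every `v` in `range N = range G` let `d = M' v`, `m = h v (M v)`,
`T = rk hs.herm (M v) x + rk hs.herm x (M v)`, `T z = h z (M v) • x + h z x • M v`, `X = (1 + T) G (1 + T)`, in `Cl h j b` (`conj_cl`,
`rk_two_sq`: `h x x = 0`, `h (M v) (M v) = 0`, `h (M v) x = h v (M x) = 0`; `rk_two_sa`). Facts: `G x = 0` (`ker_eq_of_range`), `G (M v) = v`
(`v` is `G` of something, `G M G = G`), `N v = 0`, `h v x = 0` (`v = N y`, `N x = 0`), `h (G z) x = 0`. So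
`X z = G z + h z v • x + h z x • v + (m * h z x) • x`; `N X = 0`, `X N = 0` (`h (N z) v = h z (N v) = 0`, `h (N z) x = 0`, `G N = 0` by
`mul_of_range`). `T M = 0 = M T` (`h (M z) (M v) = 0`, `h (M z) x = 0`, `M M = 0`, `M x = 0`), so `(1 + T) M (1 + T) = M` and `Inv X M` (conjugate `hI`
by `1 + T`, `(1 + T)² = 1`). By `HX` `Inv X M'`. Insert `X` into `M' X M' z = M' z` and use `M' G M' z = M' z` (`hI'`):
`h (M' z) v • c + h (M' z) x • d + (m * h (M' z) x) • c = 0`, that is `h z d • c + h z c • d + (m * h z c) • c = 0` for all `z`  (1).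
Suppose `c ≠ 0`. Choose `z` with `h z c = 1` (`exists_one`): `d = (h z d + m) • c`, so `d = e • c` for some `e`. So for every `v` in `range N` `M' v`
is a multiple of `c`, and `v = G (M' v)` (`hI'.1`) is a multiple of `G c`: `finrank (range N) ≤ 1`, but it is `j ≥ 2`. (The coefficient `m` plays no
role.)
-/

set_option autoImplicit false
set_option linter.unusedSectionVars false

open LinearMap

namespace Pool.Agent.Helper2.SP

open Pool.Agent.Helper81.UT Pool.Agent.Helper81.EU
open Pool.Agent.Helper2.EV hiding one_add_sq Pres core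

variable {K V : Type*} [Field K] [StarRing K] [AddCommGroup V] [Module K V] [CharP K 2] [Finite K]
  [FiniteDimensional K V] {h : V → V → K} {j : ℕ} {b : Prop}

theorem ker_mem (hs : Sy h) (hj : 2 ≤ j) {N G M M' : Module.End K V} (hN : N ∈ Cl h j b)
    (hG : G ∈ Cl h j b) (hM : M ∈ Cl h j b) (hM' : M' ∈ Cl h j b) (hr : range G = range N)
    (hI : Inv G M) (hI' : Inv G M')
    (HX : ∀ X ∈ Cl h j b, N * X = 0 → X * N = 0 → Inv X M → Inv X M') {x : V} (h1 : N x = 0)
    (h2 : M x = 0) : M' x = 0 := by
  by_contra hc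
  have hx2 : h x x = 0 := hs.alt x
  have hGx : G x = 0 := by
    have h3 : x ∈ ker N := h1
    rw [← ker_eq_of_range hs.herm hG.1 hN.1 hr] at h3
    exact h3
  obtain ⟨hNG, hGN⟩ := mul_of_range hN.1.1 hG.1.1 hr
  have hMM : ∀ z, M (M z) = 0 := fun z => LinearMap.congr_fun hM.1.1.1 z
  have hNG' : ∀ z, N (G z) = 0 := fun z => LinearMap.congr_fun hNG z
  have hGN' : ∀ z, G (N z) = 0 := fun z => LinearMap.congr_fun hGN z
  have hsaN := hN.1.2
  have hsaG := hG.1.2
  have hsaM := hM.1.2
  have hsaM' := hM'.1.2
  have hd : ∀ y, ∃ e : K, M' (G y) = e • M' x := by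
    intro y
    obtain ⟨v, hv⟩ : ∃ v, v = G y := ⟨_, rfl⟩
    obtain ⟨w, hw⟩ : ∃ w, w = M v := ⟨_, rfl⟩
    have hww : h w w = 0 := hs.alt w
    have hwx : h w x = 0 := by rw [hw, hsaM, h2, hs.zero_right]
    have hGw : G w = v := by
      rw [hw, hv]
      exact LinearMap.congr_fun hI.1 y
    have hvx : h v x = 0 := by rw [hv, hsaG, hGx, hs.zero_right]
    have hGzx : ∀ z, h (G z) x = 0 := fun z => by rw [hsaG, hGx, hs.zero_right]
    have hGzw : ∀ z, h (G z) w = h z v := fun z => by rw [hsaG, hGw]
    have hNv : N v = 0 := by rw [hv]; exact hNG' y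
    have hMw : M w = 0 := by rw [hw]; exact hMM v
    obtain ⟨T, hT⟩ : ∃ T : Module.End K V, T = rk hs.herm w x + rk hs.herm x w := ⟨_, rfl⟩
    have hTz : ∀ z, T z = h z w • x + h z x • w := fun z => by rw [hT]; rfl
    have hTT : T * T = 0 := by rw [hT]; exact rk_two_sq hs.herm hww hx2 hwx
    have hTsa : SA h T := by rw [hT]; exact rk_two_sa hs.herm w x
    have hXmem := conj_cl hs hG hTT hTsa
    obtain ⟨X, hX⟩ : ∃ X : Module.End K V, X = (1 + T) * G * (1 + T) := ⟨_, rfl⟩
    rw [← hX] at hXmem
    have hXz : ∀ z, X z = G z + h z x • v + h z v • x + (h z x * h v w) • x := by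
      intro z
      have e1 : X z = G (z + T z) + T (G (z + T z)) := by rw [hX]; rfl
      have e2 : G (z + T z) = G z + h z x • v := by
        rw [map_add, hTz, map_add, map_smul, map_smul, hGx, hGw, smul_zero, zero_add]
      rw [e1, e2, map_add, map_smul, hTz (G z), hTz v, hGzx, hGzw, hvx]
      module
    have hNX : N * X = 0 := by
      ext z
      show N (X z) = 0
      rw [hXz, map_add, map_add, map_add, map_smul, map_smul, map_smul, hNG', hNv, h1]
      simp
    have hXN : X * N = 0 := by
      ext z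
      show X (N z) = 0
      have e1 : h (N z) x = 0 := by rw [hsaN, h1, hs.zero_right]
      have e2 : h (N z) v = 0 := by rw [hsaN, hNv, hs.zero_right]
      rw [hXz, hGN', e1, e2]
      simp
    have hMT : M * T = 0 := by
      ext z
      show M (T z) = 0
      rw [hTz, map_add, map_smul, map_smul, h2, hMw, smul_zero, smul_zero, add_zero]
    have hTM : T * M = 0 := by
      ext z
      show T (M z) = 0
      rw [hTz, hsaM, hsaM, h2, hMw, hs.zero_right, zero_smul, zero_smul, add_zero]
    have hM1 : M * (1 + T) = M := by rw [mul_add, mul_one, hMT, add_zero]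
    have h1M : (1 + T) * M = M := by rw [add_mul, one_mul, hTM, add_zero]
    have hInv : Inv X M := by
      constructor
      · have e1 : X * M * X = (1 + T) * G * (((1 + T) * M) * (1 + T)) * G * (1 + T) := by
          rw [hX]
          simp only [mul_assoc]
        have e2 : (1 + T) * G * M * G * (1 + T) = (1 + T) * (G * M * G) * (1 + T) := by
          simp only [mul_assoc]
        rw [e1, h1M, hM1, e2, hI.1, hX]
      · have e1 : M * X * M = (M * (1 + T)) * G * ((1 + T) * M) := by
          rw [hX]
          simp only [mul_assoc]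
        rw [e1, h1M, hM1, hI.2]
    have hInv' := HX X hXmem hNX hXN hInv
    have hfin : ∀ z, h z (M' x) • M' v + h z (M' v) • M' x + (h z (M' x) * h v w) • M' x = 0 := by
      intro z
      have e1 : M' (X (M' z)) = M' z := LinearMap.congr_fun hInv'.2 z
      have e2 : M' (G (M' z)) = M' z := LinearMap.congr_fun hI'.2 z
      rw [hXz, map_add, map_add, map_add, map_smul, map_smul, map_smul, e2, hsaM', hsaM'] at e1
      have e3 : M' z + (h z (M' x) • M' v + h z (M' v) • M' x + (h z (M' x) * h v w) • M' x) =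
          M' z + 0 := by
        rw [add_zero]
        rw [← add_assoc, ← add_assoc]
        exact e1
      exact add_left_cancel e3
    obtain ⟨z, hz⟩ := exists_one hs hc
    have e4 := hfin z
    rw [hz, one_smul, one_mul] at e4
    refine ⟨-(h z (M' v) + h v w), ?_⟩
    rw [← hv, neg_smul, add_smul]
    rw [add_assoc] at e4
    exact eq_neg_of_add_eq_zero_left e4
  have hle : range N ≤ Submodule.span K {G (M' x)} := by
    rw [← hr]
    rintro _ ⟨y, rfl⟩
    obtain ⟨e, he⟩ := hd y
    have h3 : G (M' (G y)) = G y := LinearMap.congr_fun hI'.1 y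
    rw [← h3, he, map_smul]
    exact Submodule.smul_mem _ _ (Submodule.mem_span_singleton_self _)
  have h4 := Submodule.finrank_mono hle
  have h5 : Module.finrank K (range N) = j := hN.1.1.2
  have h6 : Module.finrank K (Submodule.span K {G (M' x)}) ≤ 1 := by
    have h7 := finrank_span_le_card (R := K) ({G (M' x)} : Set V)
    simpa using h7
  omega

end Pool.Agent.Helper2.SP
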