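import Pool.Agent.Helper2.SP.Fix
import Pool.Agent.Helper2.SP.Ker
import Pool.Agent.Helper2.SP.Diff
import Pool.Agent.Helper2.SP.Form

/-!
# Project SP: maps which fix the elements commuting with `N`
-/

set_option autoImplicit false
set_option linter.unusedSectionVars false

open LinearMap

namespace Pool.Agent.Helper2.SP

open Pool.Agent.Helper81.UT Pool.Agent.Helper81.EU
open Pool.Agent.Helper2.EV hiding one_add_sq Pres core

variable {K V : Type*} [Field K] [StarRing K] [AddCommGroup V] [Module K V] [CharP K 2] [Finite K]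
  [FiniteDimensional K V] {h : V → V → K} {j : ℕ} {b : Prop}

theorem cl_sq {N : Module.End K V} (hN : N ∈ Cl h j b) : N * N = 0 := el_sq hN.1

theorem SPres.inj {ψ : Module.End K V → Module.End K V} (hψ : SPres h j b ψ)
    {X Y : Module.End K V} (hX : X ∈ Cl h j b) (hY : Y ∈ Cl h j b) (hXY : ψ X = ψ Y) : X = Y := by
  have h1 := (hψ.ord X hX Y hY 1).1 (by rw [pow_one, hXY, one_add_sq (cl_sq (hψ.mem Y hY))])
  rw [pow_one] at h1
  have h2 : (1 + X) * ((1 + X) * (1 + Y)) = 1 + X := by rw [h1, mul_one]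
  rw [← mul_assoc, one_add_sq (cl_sq hX), one_mul] at h2
  exact (add_left_cancel h2).symm

theorem SPres.comm_iff {ψ : Module.End K V → Module.End K V} (hψ : SPres h j b ψ)
    {X Y : Module.End K V} (hX : X ∈ Cl h j b) (hY : Y ∈ Cl h j b) :
    ψ X * ψ Y = ψ Y * ψ X ↔ X * Y = Y * X := by
  rw [← two (cl_sq hX) (cl_sq hY), ← two (cl_sq (hψ.mem X hX)) (cl_sq (hψ.mem Y hY))]
  exact hψ.ord X hX Y hY 2

theorem SPres.o3_iff {ψ : Module.End K V → Module.End K V} (hψ : SPres h j b ψ)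
    {X Y : Module.End K V} (hX : X ∈ Cl h j b) (hY : Y ∈ Cl h j b) :
    O3 (ψ X) (ψ Y) ↔ O3 X Y := by
  rw [← three' (cl_sq hX) (cl_sq hY), ← three' (cl_sq (hψ.mem X hX)) (cl_sq (hψ.mem Y hY))]
  exact hψ.ord X hX Y hY 3

theorem SPres.nil_iff {ψ : Module.End K V → Module.End K V} (hψ : SPres h j b ψ)
    {X Y : Module.End K V} (hX : X ∈ Cl h j b) (hY : Y ∈ Cl h j b) :
    IsNilpotent (ψ X * ψ Y) ↔ IsNilpotent (X * Y) := by
  rw [← pow_two' (cl_sq hX) (cl_sq hY), ← pow_two' (cl_sq (hψ.mem X hX)) (cl_sq (hψ.mem Y hY))]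
  exact exists_congr fun k => hψ.ord X hX Y hY (2 ^ k)

theorem cl_ne_zero (hj : 1 ≤ j) {N : Module.End K V} (hN : N ∈ Cl h j b) : N ≠ 0 :=
  ne_zero_of_mem hj hN.1.1

variable {N : Module.End K V} {ψ : Module.End K V → Module.End K V}

theorem Fx.inv_of (hs : Sy h) (hj : 2 ≤ j) (hF : Fx h j b N ψ) {X M : Module.End K V}
    (hX : X ∈ Cl h j b) (hM : M ∈ Cl h j b) (h1 : N * X = 0) (h2 : X * N = 0) (hI : Inv X M) :
    Inv X (ψ M) := by
  refine inv_fix' hs (by omega) hF.pres hX hM ?_ hI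
  intro R hR hr
  apply hF.fix R hR
  have h3 : N * R = 0 := by
    ext z
    show N (R z) = 0
    have h4 : R z ∈ range X := by rw [← hr]; exact ⟨z, rfl⟩
    obtain ⟨y, hy⟩ := h4
    rw [← hy]
    exact LinearMap.congr_fun h1 y
  have h4 : R * N = 0 := by
    ext z
    have h5 : N z ∈ ker R := by
      rw [ker_eq_of_range hs.herm hR.1 hX.1 hr]
      exact LinearMap.congr_fun h2 z
    exact h5
  rw [h3, h4]

/-- Elements with the image of `N` are fixed. -/
theorem Fx.range_fix (hF : Fx h j b N ψ) {R : Module.End K V} (hR : R ∈ Cl h j b)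
    (hr : range R = range N) : ψ R = R := by
  obtain ⟨h1, h2⟩ := mul_of_range hF.hN.1.1 hR.1.1 hr
  exact hF.fix R hR (h1.trans h2.symm)

/-- The image of an element inverse to `N`. -/
theorem Fx.inv (hs : Sy h) (hj : 2 ≤ j) (hF : Fx h j b N ψ) {M : Module.End K V}
    (hM : M ∈ Cl h j b) (hI : Inv N M) : Inv N (ψ M) :=
  inv_fix' hs (by omega) hF.pres hF.hN hM (fun _ hR hr => hF.range_fix hR hr) hI

/-- The image of an element opposite to `N` is a conjugate by some `1 + S`. -/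
theorem Fx.form (hs : Sy h) (hj : 2 ≤ j) (hF : Fx h j b N ψ) {M : Module.End K V}
    (hM : M ∈ Cl h j b) (ho : Opp N M) :
    ∃ S : Module.End K V, SA h S ∧ U N S ∧ ψ M = (1 + S) * M * (1 + S) := by
  obtain ⟨G, hG, hr, hI⟩ := exists_inv' hs hF.hN hM ho
  have hM' := hF.pres.mem M hM
  obtain ⟨e1, e2⟩ := mul_of_range hF.hN.1.1 hG.1.1 hr
  have hI' : Inv G (ψ M) := hF.inv_of hs hj hG hM e1 e2 hI
  have hk : ∀ x, N x = 0 → M x = 0 → ψ M x = 0 := fun x h1 h2 =>
    ker_mem hs hj hF.hN hG hM hM' hr hI hI'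
      (fun X hX h3 h4 h5 => hF.inv_of hs hj hX hM h3 h4 h5) h1 h2
  exact form' hs hF.hN.1 hG.1 hM.1 hM'.1 hr hI hI'
    (diff_mem hs hF.hN.1 hG.1 hM.1 hM'.1 hr hI hI' hk)

end Pool.Agent.Helper2.SP
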