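import Pool.Agent.Helper2.SP.Defs

/-!
# Block SP-NI: the other product is nilpotent or unipotent on its eigenspaces

`W = range N`, `m(w, w') = h w (L w')`, symmetric (`hs.comm`, `hL.2`), `m(w, w) = m(w, a)²` (`vec_inv`); `B w = w + m(w, u) • u + m(w, v) • v = N (Y w)`,
`A w = S (L w)` on `W` (it maps `W` to `W`, is self adjoint for `m`: `m(A w, w') = h (S (L w)) (L w') = h w (L (S (L w')))`), `A A = 0` (`hA2`), `A B = B A` (`hAB`),
`A a = 0` (`hA0`). `T w = N'' (Y w)`, `N'' = lam • N + rk a a + S`. For `w` in `W` with `w' = B w`, `Y w = L w'` (`hLY`):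
`T w = lam • w' + m(w', a) • a + A w'`   (`N (L w') = w'`, `h (L w') a = m(w', a)`).
`m(u, a) = 1` (its square is `m(u, u) = 1`; characteristic two: `x² = 1` gives `x = 1`), `m(v, a) = 0`. `B u = v`, `B v = u + v`, `B a = a + u` (`m(a, u) = 1`,
`m(a, v) = 0`). `A u = 0`: `0 = B (A a) = A (B a) = A a + A u`; `A v = A (B u) = B (A u) = 0`. With `tau = m(a, a)`:
`T u = lam • v`, `T v = lam • (u + v) + a`, `T a = lam • (a + u) + (tau + 1) • a`   (1).
If `w` in `W` is orthogonal (for `m`) to `u`, `v`, `a` then so is `A w` (`m(A w, x) = m(w, A x) = 0`), `B w = w`, `T w = lam • w + A w` and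
`T (A w) = lam • A w`   (2).
Every `w` in `W` is `w₁ + w₂` with `w₁` in the span of `u`, `v`, `a` and `w₂` orthogonal to `u`, `v`, `a`: if `tau = 0` then `v = a` and
`w₁ = m(w, a) • u + (m(w, u) + m(w, a)) • a`; if `tau = 1` let `a' = a + v` (orthogonal to `u`, `v`; `m(a', a') = 1`), `w₁ = m(w, v) • u + (m(w, u) + m(w, v)) • v + m(w, a') • a'`.
Case `tau = 0` (so `lam = 1`, `v = a`): by (1) `T u = a`, `T a = u`; by (2) `(T + 1)² w₂ = A² w₂ = 0`; `(T + 1)² u = T² u + u = 0`. So `(T + 1)²` kills `W`.
Case `tau = 1`, `lam = 1`: by (1) `T u = v`, `T v = u + v + a`, `T a = a + u`, `T (u + v + a) = 0`, so `T³` kills `u`, `v`, `a`, `(T + 1)²` kills `w₂`.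
Case `tau = 1`, `lam = 0`: `T u = 0`, `T v = a`, `T a = 0`; `T w₂ = A w₂`, `T² w₂ = 0`. So `T²` kills `W`.
In all cases `(T + T²)³` kills `W` (`T + T² = T (1 + T)`), where `T = N'' * Y`, and `T V ≤ W`, so `(T + T²)⁴ = 0`.
-/

set_option autoImplicit false
set_option linter.unusedSectionVars false

open LinearMap

namespace Pool.Agent.Helper2.SP

open Pool.Agent.Helper81.UT Pool.Agent.Helper81.EU
open Pool.Agent.Helper2.EV hiding one_add_sq Pres core

variable {K V : Type*} [Field K] [StarRing K] [AddCommGroup V] [Module K V] [CharP K 2] [Finite K]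
  [FiniteDimensional K V] {h : V → V → K} {j : ℕ} {b : Prop}

theorem nil_other (hs : Sy h) {N L S Y : Module.End K V} (hN : N ∈ El h j) (hL : L ∈ El h j)
    (hI : Inv N L) {a : V} (ha : a ∈ range N) (hVa : Vc h N a) {u v : V} (hu : u ∈ range N)
    (hv : v ∈ range N) (huu : h u (L u) = 1) (huv : h u (L v) = 1) (hvv : h v (L v) = 0)
    (hY : ∀ w ∈ range N, N (Y w) = w + h w (L u) • u + h w (L v) • v)
    (hLY : ∀ w, L (N (Y w)) = Y w) (hS : SA h S) (hU : U N S)
    (hAB : ∀ w ∈ range N, S (L (N (Y w))) = N (Y (S (L w))))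
    (hA2 : ∀ w ∈ range N, S (L (S (L w))) = 0) (hA0 : S (L a) = 0) {lam : K}
    (hlam : (h a (L a) = 0 ∧ lam = 1 ∧ v = a) ∨ (h a (L a) = 1 ∧ (lam = 0 ∨ lam = 1))) :
    IsNilpotent ((lam • N + rk hs.herm a a + S) * Y +
      (lam • N + rk hs.herm a a + S) * Y * ((lam • N + rk hs.herm a a + S) * Y)) := by
  have h2V : ∀ x : V, x + x = 0 := fun x => aav K x
  have hLs : ∀ x y, h (L x) y = h x (L y) := hL.2
  have hms : ∀ x y, h x (L y) = h y (L x) := fun x y => by rw [← hLs, hs.comm]
  have hVL : Vc h L (L a) := vec_inv hL.2 hI hVa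
  have hSN : ∀ x, S x ∈ range N := fun x => hU.2 ⟨x, rfl⟩
  have hNr : ∀ x, N x ∈ range N := fun x => ⟨x, rfl⟩
  have sq1 : ∀ x : K, x * x = 1 → x = 1 := by
    intro x hx
    have h1 : (x + 1) * (x + 1) = 0 := by
      have h3 := ck x
      have h4 := ck (1 : K)
      linear_combination hx + h3 + h4
    exact eq_of_addK (mul_self_eq_zero.1 h1)
  have mua : h u (L a) = 1 := sq1 _ (by rw [← hVL u, huu])
  have mva : h v (L a) = 0 := mul_self_eq_zero.1 (by rw [← hVL v, hvv])
  have mau : h a (L u) = 1 := by rw [hms, mua]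
  have mav : h a (L v) = 0 := by rw [hms, mva]
  have mvu : h v (L u) = 1 := by rw [hms, huv]
  have Bu : N (Y u) = v := by
    rw [hY u hu, huu, huv, one_smul, one_smul, h2V, zero_add]
  have Bv : N (Y v) = u + v := by
    rw [hY v hv, mvu, hvv, one_smul, zero_smul, add_zero, add_comm]
  have Ba : N (Y a) = a + u := by
    rw [hY a ha, mau, mav, one_smul, zero_smul, add_zero]
  have Au : S (L u) = 0 := by
    have h1 := hAB a ha
    rw [Ba, hA0, map_zero, map_zero, map_add, map_add, hA0, zero_add] at h1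
    exact h1
  have Av : S (L v) = 0 := by
    have h1 := hAB u hu
    rw [Bu, Au, map_zero, map_zero] at h1
    exact h1
  set T : Module.End K V := (lam • N + rk hs.herm a a + S) * Y with hT
  have Tx : ∀ x, T x = lam • N (Y x) + h (Y x) a • a + S (Y x) := fun x => rfl
  have TW : ∀ x, T x ∈ range N := by
    intro x
    rw [Tx]
    exact Submodule.add_mem _ (Submodule.add_mem _ (Submodule.smul_mem _ _ (hNr _))
      (Submodule.smul_mem _ _ ha)) (hSN _)
  have Tw : ∀ x, T x = lam • N (Y x) + h (N (Y x)) (L a) • a + S (L (N (Y x))) := by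
    intro x
    rw [← hLs, hLY, Tx]
  have Tu : T u = lam • v := by
    rw [Tw, Bu, mva, Av, zero_smul, add_zero, add_zero]
  have Tv : T v = lam • (u + v) + a := by
    rw [Tw, Bv, hs.add, mua, mva, map_add, map_add, Au, Av, add_zero, add_zero, add_zero, one_smul]
  have Ta : T a = lam • (a + u) + (h a (L a) + 1) • a := by
    rw [Tw, Ba, hs.add, mua, map_add, map_add, hA0, Au, add_zero, add_zero]
  -- orthogonal vectors
  have orth : ∀ w ∈ range N, h w (L u) = 0 → h w (L v) = 0 → h w (L a) = 0 →
      T w = lam • w + S (L w) ∧ T (S (L w)) = lam • S (L w) := by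
    intro w hw h1 h2 h3
    have key : ∀ w ∈ range N, h w (L u) = 0 → h w (L v) = 0 → h w (L a) = 0 →
        T w = lam • w + S (L w) := by
      intro w hw h1 h2 h3
      have h4 : N (Y w) = w := by
        rw [hY w hw, h1, h2, zero_smul, zero_smul, add_zero, add_zero]
      rw [Tw, h4, h3, zero_smul, add_zero]
    refine ⟨key w hw h1 h2 h3, ?_⟩
    have adj : ∀ y, h (S (L w)) (L y) = h w (L (S (L y))) := by
      intro y
      rw [hS, hLs]
    rw [key (S (L w)) (hSN _) (by rw [adj, Au, map_zero, hs.zero_right])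
      (by rw [adj, Av, map_zero, hs.zero_right]) (by rw [adj, hA0, map_zero, hs.zero_right]),
      hA2 w hw, add_zero]
  set P : Module.End K V := T + T * T with hP
  have Px : ∀ x, P x = T x + T (T x) := fun x => rfl
  have P3orth : ∀ w ∈ range N, h w (L u) = 0 → h w (L v) = 0 → h w (L a) = 0 →
      P (P (P w)) = 0 := by
    intro w hw h1 h2 h3
    obtain ⟨h4, h5⟩ := orth w hw h1 h2 h3
    have h6 : P w = S (L w) ∧ P (S (L w)) = 0 := by
      rcases (show lam = 0 ∨ lam = 1 by tauto) with hl | hl
      · rw [hl, zero_smul] at h4 h5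
        rw [zero_add] at h4
        constructor
        · rw [Px, h4, h5, add_zero]
        · rw [Px, h5, map_zero, add_zero]
      · rw [hl, one_smul] at h4 h5
        constructor
        · rw [Px, h4, map_add, h4, h5]
          have g1 := h2V w
          have g2 := h2V (S (L w))
          calc w + S (L w) + (w + S (L w) + S (L w))
              = (w + w) + (S (L w) + S (L w)) + S (L w) := by abel
            _ = S (L w) := by rw [g1, g2, add_zero, zero_add]
        · rw [Px, h5, h5, h2V]
    rw [h6.1, h6.2, map_zero]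
  have P3uva : P (P (P u)) = 0 ∧ P (P (P v)) = 0 ∧ P (P (P a)) = 0 := by
    rcases hlam with ⟨h1, h2, h3⟩ | ⟨h1, h2 | h2⟩
    · have e1 : T u = a := by rw [Tu, h2, one_smul, h3]
      have e2 : T a = u := by
        rw [Ta, h1, h2, one_smul, zero_add, one_smul, add_comm a u, add_assoc, h2V, add_zero]
      have e3 : P u = a + u := by rw [Px, e1, e2]
      have e4 : P a = u + a := by rw [Px, e2, e1]
      have e5 : P (a + u) = 0 := by
        rw [map_add, e3, e4, add_comm u a, h2V]
      have e6 : P (P u) = 0 := by rw [e3, e5]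
      have e7 : P (P a) = 0 := by rw [e4, add_comm, e5]
      rw [h3, e6, e7, map_zero]
      exact ⟨rfl, rfl, rfl⟩
    · have e1 : T u = 0 := by rw [Tu, h2, zero_smul]
      have e2 : T a = 0 := by rw [Ta, h1, h2, zero_smul, ck, zero_smul, add_zero]
      have e3 : T v = a := by rw [Tv, h2, zero_smul, zero_add]
      have e4 : P u = 0 := by rw [Px, e1, map_zero, add_zero]
      have e5 : P a = 0 := by rw [Px, e2, map_zero, add_zero]
      have e6 : P v = a := by rw [Px, e3, e2, add_zero]
      rw [e4, e6, e5, map_zero, map_zero]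
      exact ⟨rfl, rfl, rfl⟩
    · have e1 : T u = v := by rw [Tu, h2, one_smul]
      have e2 : T a = a + u := by rw [Ta, h1, h2, one_smul, ck, zero_smul, add_zero]
      have e3 : T v = u + v + a := by rw [Tv, h2, one_smul]
      have e4 : P u = u + a := by
        rw [Px, e1, e3]
        have h4 := h2V v
        calc v + (u + v + a) = (v + v) + (u + a) := by abel
          _ = u + a := by rw [h4, zero_add]
      have e5 : P a = v := by
        rw [Px, e2, map_add, e1, e2]
        calc a + u + (a + u + v) = (a + u + (a + u)) + v := by abel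
          _ = v := by rw [h2V, zero_add]
      have e6 : P v = u + v + a := by
        rw [Px, e3, map_add, map_add, e1, e2, e3]
        calc u + v + a + (v + (u + v + a) + (a + u))
            = (u + v + a) + (v + v) + (u + u) + (a + a) := by abel
          _ = u + v + a := by rw [h2V, h2V, h2V, add_zero, add_zero, add_zero]
      have e7 : P (u + v + a) = 0 := by
        rw [map_add, map_add, e4, e5, e6]
        calc u + a + (u + v + a) + v = (u + u) + (v + v) + (a + a) := by abel
          _ = 0 := by rw [h2V u, h2V v, h2V a, add_zero, add_zero]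
      have e8 : P (P (P a)) = 0 := by rw [e5, e6, e7]
      have e9 : P (P (P v)) = 0 := by rw [e6, e7, map_zero]
      refine ⟨?_, e9, e8⟩
      rw [e4, map_add, e4, e5]
      rw [show u + a + v = u + v + a by abel, e7]
  have P3W : ∀ w ∈ range N, P (P (P w)) = 0 := by
    intro w hw
    obtain ⟨c1, c2, c3, h1, h2, h3⟩ : ∃ c1 c2 c3 : K,
        h (w + (c1 • u + c2 • v + c3 • a)) (L u) = 0 ∧
        h (w + (c1 • u + c2 • v + c3 • a)) (L v) = 0 ∧
        h (w + (c1 • u + c2 • v + c3 • a)) (L a) = 0 := by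
      have hexp : ∀ (c1 c2 c3 : K) (y : V), h (w + (c1 • u + c2 • v + c3 • a)) (L y) =
          h w (L y) + (c1 * h u (L y) + c2 * h v (L y) + c3 * h a (L y)) := by
        intro c1 c2 c3 y
        rw [hs.add, hs.add, hs.add, hs.smul, hs.smul, hs.smul]
      have g1 := ck (h w (L u))
      have g2 := ck (h w (L v))
      have g3 := ck (h w (L a))
      rcases hlam with ⟨k1, k2, k3⟩ | ⟨k1, k2⟩
      · refine ⟨h w (L a), 0, h w (L u) + h w (L a), ?_, ?_, ?_⟩
        · rw [hexp, huu, mvu, mau]
          linear_combination g1 + g3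
        · rw [hexp, huv, hvv, mav, k3]
          linear_combination g3
        · rw [hexp, mua, mva, k1]
          linear_combination g3
      · refine ⟨h w (L v), h w (L u) + h w (L a), h w (L a) + h w (L v), ?_, ?_, ?_⟩
        · rw [hexp, huu, mvu, mau]
          linear_combination g1 + g3 + g2
        · rw [hexp, huv, hvv, mav]
          linear_combination g2
        · rw [hexp, mua, mva, k1]
          linear_combination g2 + g3
    have hmem : w + (c1 • u + c2 • v + c3 • a) ∈ range N :=
      Submodule.add_mem _ hw (Submodule.add_mem _ (Submodule.add_mem _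
        (Submodule.smul_mem _ _ hu) (Submodule.smul_mem _ _ hv)) (Submodule.smul_mem _ _ ha))
    have h4 := P3orth _ hmem h1 h2 h3
    obtain ⟨p1, p2, p3⟩ := P3uva
    simp only [map_add, map_smul, p1, p2, p3, smul_zero, add_zero] at h4
    exact h4
  refine ⟨4, ?_⟩
  refine LinearMap.ext fun x => ?_
  have h1 : (P ^ 4) x = P (P (P (P x))) := rfl
  rw [LinearMap.zero_apply]
  refine h1.trans (P3W (P x) ?_)
  rw [Px]
  exact Submodule.add_mem _ (TW _) (TW _)

end Pool.Agent.Helper2.SP
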