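import Pool.Agent.Helper2.SP.Defs

/-!
# Block SP-NN: N Y is not unipotent or nilpotent on its eigenspaces, and has fourth power N Y

For `w` in `range N` `N (Y w) = B w = w + m(w, u) • u + m(w, v) • v`, `m(w, w') = h w (L w')` (symmetric by `hs.comm` and `hL`). `m(u, u) = m(u, v) = 1`, `m(v, v) = 0`, so
`B u = v` (`u + u + v`), `B v = u + v`, and `B (B (B w)) = w` for all `w` in `range N`: `B² w = B w + m(w, u) • v + m(w, v) • (u + v)` ..., using linearity of `B`.
`fourth`: `(N Y)⁴ x = B (B (B (N (Y x)))) = N (Y x)`. `fourth'`: the adjoint: `h ((Y N)⁴ x) y = h x ((N Y)⁴ y)` (`hN.2`, `hY.2`), `ext_left`.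
`not_nil`: `Z = N Y`; on the span of `u`, `v`: `(Z + Z²) u = v + (u + v) = u` and `(Z + Z²) v = (u + v) + (v + u + v) = v`, so `Z + Z²` fixes `u ≠ 0`
(`h u (L u) = 1`): not nilpotent.
-/

set_option autoImplicit false
set_option linter.unusedSectionVars false

open LinearMap

namespace Pool.Agent.Helper2.SP

open Pool.Agent.Helper81.UT Pool.Agent.Helper81.EU
open Pool.Agent.Helper2.EV hiding one_add_sq Pres core

variable {K V : Type*} [Field K] [StarRing K] [AddCommGroup V] [Module K V] [CharP K 2] [Finite K]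
  [FiniteDimensional K V] {h : V → V → K} {j : ℕ} {b : Prop}

private theorem mval (hs : Sy h) {L : Module.End K V} (hL : SA h L) {u v : V}
    (huu : h u (L u) = 1) (huv : h u (L v) = 1) (hvv : h v (L v) = 0) {w : V} {p q : K}
    (hp : h w (L u) = p) (hq : h w (L v) = q) :
    h (w + p • u + q • v) (L u) = q ∧ h (w + p • u + q • v) (L v) = p + q := by
  have hvu : h v (L u) = 1 := by rw [← hL, hs.comm, huv]
  constructor
  · rw [hs.add, hs.add, hs.smul, hs.smul, hp, huu, hvu, mul_one, mul_one, ck, zero_add]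
  · rw [hs.add, hs.add, hs.smul, hs.smul, hq, huv, hvv, mul_one, mul_zero, add_zero, add_comm]

theorem fourth (hs : Sy h) {N L Y : Module.End K V} (hL : SA h L) {u v : V} (hu : u ∈ range N)
    (hv : v ∈ range N) (huu : h u (L u) = 1) (huv : h u (L v) = 1) (hvv : h v (L v) = 0)
    (hY : ∀ w ∈ range N, N (Y w) = w + h w (L u) • u + h w (L v) • v) :
    (N * Y) ^ 4 = N * Y := by
  refine LinearMap.ext fun x => ?_
  have e4 : ((N * Y) ^ 4) x = N (Y (N (Y (N (Y (N (Y x))))))) := rfl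
  have e1 : (N * Y) x = N (Y x) := rfl
  rw [e4, e1]
  have hw : N (Y x) ∈ range N := ⟨Y x, rfl⟩
  generalize N (Y x) = w at hw ⊢
  obtain ⟨p, hp⟩ : ∃ p, h w (L u) = p := ⟨_, rfl⟩
  obtain ⟨q, hq⟩ : ∃ q, h w (L v) = q := ⟨_, rfl⟩
  have h1 := hY w hw
  rw [hp, hq] at h1
  have hw1 : w + p • u + q • v ∈ range N := ⟨Y w, h1⟩
  obtain ⟨a1, a2⟩ := mval hs hL huu huv hvv hp hq
  have h2 := hY _ hw1
  rw [a1, a2] at h2
  obtain ⟨b1, b2⟩ := mval hs hL huu huv hvv a1 a2
  have hw2 : w + p • u + q • v + q • u + (p + q) • v ∈ range N := ⟨Y _, h2⟩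
  have h3 := hY _ hw2
  rw [b1, b2] at h3
  rw [h1, h2, h3]
  have e : w + p • u + q • v + q • u + (p + q) • v + (p + q) • u + (q + (p + q)) • v
      = w + ((p + q) + (p + q)) • u + ((q + (p + q)) + (q + (p + q))) • v := by module
  rw [e, ck, ck, zero_smul, zero_smul, add_zero, add_zero]

theorem fourth' (hs : Sy h) {N Y : Module.End K V} (hN : SA h N) (hY : SA h Y)
    (h4 : (N * Y) ^ 4 = N * Y) : (Y * N) ^ 4 = Y * N := by
  refine LinearMap.ext fun x => ext_left hs.herm fun z => ?_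
  have e4 : ((Y * N) ^ 4) x = Y (N (Y (N (Y (N (Y (N x))))))) := rfl
  have e1 : (Y * N) x = Y (N x) := rfl
  have h5 : N (Y (N (Y (N (Y (N (Y z))))))) = N (Y z) := LinearMap.congr_fun h4 z
  rw [e4, e1, hY, hN, hY, hN, hY, hN, hY, hN, h5, hY, hN]

theorem not_nil (hs : Sy h) {N L Y : Module.End K V} (hL : SA h L) {u v : V} (hu : u ∈ range N)
    (hv : v ∈ range N) (huu : h u (L u) = 1) (huv : h u (L v) = 1) (hvv : h v (L v) = 0)
    (hY : ∀ w ∈ range N, N (Y w) = w + h w (L u) • u + h w (L v) • v) :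
    ¬ IsNilpotent (N * Y + N * Y * (N * Y)) := by
  have hvu : h v (L u) = 1 := by rw [← hL, hs.comm, huv]
  have zu : N (Y u) = v := by
    rw [hY u hu, huu, huv, one_smul, one_smul, aav K u, zero_add]
  have zv : N (Y v) = v + u := by
    rw [hY v hv, hvu, hvv, one_smul, zero_smul, add_zero]
  have fix : (N * Y + N * Y * (N * Y)) u = u := by
    have e : (N * Y + N * Y * (N * Y)) u = N (Y u) + N (Y (N (Y u))) := rfl
    rw [e, zu, zv, ← add_assoc, aav K v, zero_add]
  rintro ⟨n, hn⟩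
  have hfix : ∀ k : ℕ, ((N * Y + N * Y * (N * Y)) ^ k) u = u := by
    intro k
    induction k with
    | zero => rfl
    | succ k ih =>
      rw [pow_succ]
      have e : ((N * Y + N * Y * (N * Y)) ^ k * (N * Y + N * Y * (N * Y))) u
          = ((N * Y + N * Y * (N * Y)) ^ k) ((N * Y + N * Y * (N * Y)) u) := rfl
      rw [e, fix, ih]
  have h0 := hfix n
  rw [hn] at h0
  have hu0 : u = 0 := h0.symm
  rw [hu0, hs.zero_left] at huu
  exact zero_ne_one huu

end Pool.Agent.Helper2.SP
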