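import Pool.Agent.Helper2.SP.Fxd
import Pool.Agent.Helper2.SP.Com

/-!
# Block SP-PY: the image of Y

Let `Ψ X = (1 + N') ψ X (1 + N')`. `N' N' = 0` (`N a = 0`, `h a a = 0`, `h (N z) a = h z (N a) = 0`), `N'` is self adjoint (`rk_sa`), `N * N' = 0 = N' * N`. `Ψ` preserves `Cl h j b`
(`conj_cl`) and the orders (`conj_pow` of project EV). If `R` in `Cl h j b` commutes with `N` then `R a = 0` (`vec_comm`), so `R` commutes with
`rk hs.herm a a` (`rk (R z) = h (R z) a • a = h z (R a) • a = 0`, `R (rk z) = 0`) and with `N'`, so `Ψ R = R`. So `Fx h j b N Ψ`. `Ψ L = L` (`conj_conj`).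
`Fx.form` for `Ψ` and `Y` gives `S` with `Ψ Y = (1 + S) Y (1 + S)`. `L Y = 0 = Y L` (`mul_of_range`), so `Ψ L = L` and `Ψ Y` commute (`SPres.comm_iff`), and
`com_rel` gives the two relations. `theta_vec` (for `M' = Ψ Y`) gives `Ψ Y (L a) = 0`: `(1 + S) (Y (L a + S (L a))) = 0`, `Y (L a) = 0`, so `Y (S (L a)) = 0`
(`1 + S` is injective, `S S = 0`), and `S (L a)` is in `range N ∩ ker Y = 0` (`ho.2`). Finally `ψ Y = (1 + N') Ψ Y (1 + N') = (1 + N') (1 + S) Y (1 + S) (1 + N')` and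
`(1 + N') (1 + S) = 1 + (N' + S) = (1 + S) (1 + N')` as `N' S = S N' = 0` (`N S = S N = 0`, `S a = 0`, `h (S z) a = h z (S a) = 0`).
-/

set_option autoImplicit false
set_option linter.unusedSectionVars false

open LinearMap

namespace Pool.Agent.Helper2.SP

open Pool.Agent.Helper81.UT Pool.Agent.Helper81.EU
open Pool.Agent.Helper2.EV hiding one_add_sq Pres core

variable {K V : Type*} [Field K] [StarRing K] [AddCommGroup V] [Module K V] [CharP K 2] [Finite K]
  [FiniteDimensional K V] {h : V → V → K} {j : ℕ} {b : Prop}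

theorem psi_Y (hs : Sy h) (hj : 2 ≤ j) {N L : Module.End K V} {ψ : Module.End K V → Module.End K V}
    (hF : Fx h j b N ψ) (hL : L ∈ Cl h j b) (hI : Inv N L) {a : V} (ha : a ∈ range N)
    (hVa : Vc h N a) {lam mu : K} {N' : Module.End K V}
    (hN' : N' = lam • N + mu • rk hs.herm a a) (hψL : ψ L = (1 + N') * L * (1 + N'))
    {Y : Module.End K V} (hY : Y ∈ Cl h j b) (hr : range Y = range L) (ho : Opp N Y) :
    ∃ S : Module.End K V, SA h S ∧ U N S ∧ ψ Y = (1 + (N' + S)) * Y * (1 + (N' + S)) ∧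
      S (L a) = 0 ∧ (∀ w ∈ range N, S (L (N (Y w))) = N (Y (S (L w)))) ∧
      (∀ w ∈ range N, S (L (S (L w))) = 0) := by
  have hNel := hF.hN.1
  have hNN := el_sq' hNel
  have hker : ∀ y ∈ range N, N y = 0 := by
    rintro _ ⟨x, rfl⟩
    exact hNN x
  have hNa : N a = 0 := hker a ha
  have hN'x : ∀ x, N' x = lam • N x + mu • (h x a • a) := by
    intro x
    rw [hN']
    rfl
  have hN'r : ∀ y ∈ range N, N' y = 0 := by
    rintro _ ⟨x, rfl⟩
    rw [hN'x, hNN, hNel.2, hNa, hs.zero_right, zero_smul, smul_zero, smul_zero, add_zero]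
  have hN'mem : ∀ x, N' x ∈ range N := by
    intro x
    rw [hN'x]
    exact (range N).add_mem ((range N).smul_mem _ ⟨x, rfl⟩)
      ((range N).smul_mem _ ((range N).smul_mem _ ha))
  have hN'sq : N' * N' = 0 := by
    ext x
    exact hN'r _ (hN'mem x)
  have hN'sa : SA h N' := by
    intro x y
    rw [hN'x, hN'x, hs.add, hs.add_right, hs.smul, hs.smul, hs.smul, hs.smul_right, hs.smul_right,
      hs.smul_right, hNel.2, hs.comm a y]
    ring
  -- the map `Ψ`
  have hΨ : Fx h j b N (fun X => (1 + N') * ψ X * (1 + N')) := by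
    refine ⟨hF.hN, ⟨?_, ?_⟩, ?_⟩
    · intro X hX
      exact conj_cl hs (hF.pres.mem X hX) hN'sq hN'sa
    · intro X hX Z hZ m
      exact (conj_pow hN'sq (ψ X) (ψ Z) m).trans (hF.pres.ord X hX Z hZ m)
    · intro R hR hc
      show (1 + N') * ψ R * (1 + N') = R
      rw [hF.fix R hR hc]
      have hRa : R a = 0 := vec_comm hs hR.1.2 (cl_sq hR) hc hVa
      have hc' : ∀ x, N (R x) = R (N x) := fun x => LinearMap.congr_fun hc x
      have hcN' : N' * R = R * N' := by
        ext x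
        show N' (R x) = R (N' x)
        rw [hN'x, hN'x, hR.1.2, hRa, hs.zero_right, hc', map_add, map_smul, map_smul, map_smul, hRa,
          zero_smul, smul_zero, smul_zero, smul_zero]
      have h1 : (1 + N') * R = R * (1 + N') := by rw [add_mul, mul_add, one_mul, mul_one, hcN']
      rw [h1, mul_assoc, Pool.Agent.Helper81.EU.one_add_sq hN'sq, mul_one]
  have hΨL : (1 + N') * ψ L * (1 + N') = L := by
    rw [hψL]
    exact conj_conj hN'sq L
  obtain ⟨S, hS, hU, hSY⟩ := hΨ.form hs hj hY ho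
  have hSY' : (1 + N') * ψ Y * (1 + N') = (1 + S) * Y * (1 + S) := hSY
  have hLY : L * Y = Y * L := by
    obtain ⟨h1, h2⟩ := mul_of_range hL.1.1 hY.1.1 hr
    rw [h1, h2]
  have hc : L * ((1 + S) * Y * (1 + S)) = (1 + S) * Y * (1 + S) * L := by
    have h1 := (hΨ.pres.comm_iff hL hY).2 hLY
    have h2 : ((1 + N') * ψ L * (1 + N')) * ((1 + N') * ψ Y * (1 + N')) =
      ((1 + N') * ψ Y * (1 + N')) * ((1 + N') * ψ L * (1 + N')) := h1
    rw [hΨL, hSY'] at h2
    exact h2
  obtain ⟨hr1, hr2⟩ := com_rel hs hNel hL.1 hY.1 rfl hr hI ho hU hc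
  have hSmem : ∀ x, S x ∈ range N := fun x => hU.2 ⟨x, rfl⟩
  have hSN : ∀ y ∈ range N, S y = 0 := fun y hy => hU.1 (hker y hy)
  have hSS : S * S = 0 := by
    ext x
    exact hSN _ (hSmem x)
  have hLa : S (L a) = 0 := by
    have hY' := hΨ.pres.mem Y hY
    have hY'' : (1 + S) * Y * (1 + S) ∈ Cl h j b := by
      rw [← hSY']
      exact hY'
    have h1 := theta_vec hs hL.1.2 hY''.1.2 (cl_sq hY'') hI hc hVa
    have h2 : (1 + S) (Y ((1 + S) (L a))) = 0 := h1
    have h3 : Y ((1 + S) (L a)) = 0 := by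
      have h4 : (1 + S) ((1 + S) (Y ((1 + S) (L a)))) = Y ((1 + S) (L a)) :=
        LinearMap.congr_fun (Pool.Agent.Helper81.EU.one_add_sq hSS) _
      rw [← h4, h2, map_zero]
    have h5 : Y (L a + S (L a)) = 0 := h3
    have h6 : Y (L a) = 0 := by
      have h7 := (mul_of_range hL.1.1 hY.1.1 hr).2
      exact LinearMap.congr_fun h7 a
    rw [map_add, h6, zero_add] at h5
    exact (Submodule.disjoint_def.1 ho.2) _ (hSmem _) h5
  refine ⟨S, hS, hU, ?_, hLa, hr1, hr2⟩
  have hNS : N' * S = 0 := by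
    ext x
    exact hN'r _ (hSmem x)
  have hSN' : S * N' = 0 := by
    ext x
    exact hSN _ (hN'mem x)
  have e1 : (1 + N') * (1 + S) = 1 + (N' + S) := by
    rw [add_mul, one_mul, mul_add, mul_one, hNS, add_zero]
    abel
  have e2 : (1 + S) * (1 + N') = 1 + (N' + S) := by
    rw [add_mul, one_mul, mul_add, mul_one, hSN', add_zero]
    abel
  have e3 : (1 + N') * ((1 + N') * ψ Y * (1 + N')) * (1 + N') = ψ Y := conj_conj hN'sq (ψ Y)
  rw [← e3, hSY']
  calc (1 + N') * ((1 + S) * Y * (1 + S)) * (1 + N')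
      = ((1 + N') * (1 + S)) * Y * ((1 + S) * (1 + N')) := by simp only [mul_assoc]
    _ = (1 + (N' + S)) * Y * (1 + (N' + S)) := by rw [e1, e2]

end Pool.Agent.Helper2.SP
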