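import Pool.Agent.Helper2.SP.Defs

/-!
# Block SP-SC: S is a combination of N and a a*

Write `m(v, w) = h v (L w)` for `v`, `w` in `W = range N`; it is symmetric (`hs.comm`, `hL.2`), and nondegenerate on `W`: if `m(v, w) = 0` for all
`v = N z` then `h z (N (L w)) = h z w = 0` for all `z` (`N (L w) = w` on `W`). `m(v, v) = m(v, a) * m(v, a)`: by `vec_inv` `h v (L v) = h v (L a) * h v (L a)`.
`dim W = j ≥ 2`. Let `C w = S (L w)`; by `H` and this every `v` in `W` with `m(v, a) = 0` satisfies `C v = c • v` for some `c`.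
Case `a = 0`: every `v` in `W` is an eigenvector of `C`, so there is one `lam` with `C v = lam • v` on `W` (for independent `v`, `v'` compare
`C (v + v')`), and `S z = S (L (N z)) = lam • N z` (`S = S L N`: `z - L (N z)` is in `ker N ≤ ker S`).
Case `a ≠ 0`: choose `w₀` in `W` with `m(w₀, a) = 1` (`L a ≠ 0` as `N (L a) = a`; `exists_one` for `a`: `h z a = 1`, `w₀ = N z`, `m(N z, a) = h z (N (L a)) = 1`).
`H₀ = {v in W : m(v, a) = 0}`; every `v` in `H₀` is an eigenvector of `C`, so there is one `lam` with `C v = lam • v` on `H₀`. Let `q = C w₀ - lam • w₀`, in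
`W` (`U N S`). For `v` in `W`: `C v = lam • v + m(v, a) • q` (`v - m(v, a) • w₀` is in `H₀`). `C` is self adjoint for `m`: `m(C v, w) = h (S (L v)) (L w) =
h (L v) (S (L w)) = h v (L (C w)) = m(v, C w)`. So `m(v, a) * m(q, w) = m(w, a) * m(v, q)` for all `v`, `w` in `W`; with `w = w₀`:
`m(v, q) = m(v, a) * m(q, w₀)`, so `q = mu • a` with `mu = m(q, w₀)` (nondegenerate). So `S z = C (N z) = lam • N z + (mu * h (N z) (L a)) • a`, and
`h (N z) (L a) = h z (N (L a)) = h z a`.
-/

set_option autoImplicit false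
set_option linter.unusedSectionVars false

open LinearMap

namespace Pool.Agent.Helper2.SP

open Pool.Agent.Helper81.UT Pool.Agent.Helper81.EU
open Pool.Agent.Helper2.EV hiding one_add_sq Pres core

variable {K V : Type*} [Field K] [StarRing K] [AddCommGroup V] [Module K V] [CharP K 2] [Finite K]
  [FiniteDimensional K V] {h : V → V → K} {j : ℕ} {b : Prop}

/-- A linear map for which all vectors of `W` are eigenvectors is a scalar on `W`. -/
private theorem eig {C : Module.End K V} {W : Submodule K V}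
    (H : ∀ v ∈ W, ∃ c : K, C v = c • v) : ∃ lam : K, ∀ v ∈ W, C v = lam • v := by
  by_cases hW : ∃ v ∈ W, v ≠ 0
  · obtain ⟨v0, hv0, hne⟩ := hW
    obtain ⟨l, hl⟩ := H v0 hv0
    refine ⟨l, fun v hv => ?_⟩
    obtain ⟨c, hc⟩ := H v hv
    obtain ⟨d, hd⟩ := H (v0 + v) (W.add_mem hv0 hv)
    rw [map_add, hl, hc, smul_add] at hd
    have h1 : (c - d) • v = (d - l) • v0 := by
      have h2 : (c - d) • v - (d - l) • v0 = (l • v0 + c • v) - (d • v0 + d • v) := by module
      rw [hd, sub_self] at h2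
      exact sub_eq_zero.1 h2
    by_cases hcd : c - d = 0
    · rw [hcd, zero_smul] at h1
      have h2 : d - l = 0 := by
        rcases smul_eq_zero.1 h1.symm with h3 | h3
        · exact h3
        · exact absurd h3 hne
      have h3 : c = l := by rw [sub_eq_zero.1 hcd, sub_eq_zero.1 h2]
      rw [hc, h3]
    · have h2 : v = ((c - d)⁻¹ * (d - l)) • v0 := by
        rw [mul_smul, ← h1, smul_smul, inv_mul_cancel₀ hcd, one_smul]
      rw [h2, map_smul, hl, smul_comm]
  · push Not at hW
    refine ⟨0, fun v hv => ?_⟩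
    rw [hW v hv, map_zero, smul_zero]

theorem scal (hs : Sy h) (hj : 2 ≤ j) {N L S : Module.End K V} (hN : N ∈ El h j)
    (hL : L ∈ El h j) (hI : Inv N L) (hS : SA h S) (hU : U N S) {a : V} (ha : a ∈ range N)
    (hVa : Vc h N a) (H : ∀ v ∈ range N, h v (L v) = 0 → ∃ c : K, S (L v) = c • v) :
    ∃ lam mu : K, S = lam • N + mu • rk hs.herm a a := by
  have hNL : ∀ v ∈ range N, N (L v) = v := by
    rintro _ ⟨z, rfl⟩
    exact LinearMap.congr_fun hI.1 z
  have hvec := vec_inv hL.2 hI hVa
  have hSz : ∀ z, S z = S (L (N z)) := by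
    intro z
    have h1 : z - L (N z) ∈ ker N := by
      rw [LinearMap.mem_ker, map_sub, hNL _ ⟨z, rfl⟩, sub_self]
    have h2 := hU.1 h1
    rw [LinearMap.mem_ker, map_sub] at h2
    exact sub_eq_zero.1 h2
  let H₀ : Submodule K V :=
    { carrier := {v | v ∈ range N ∧ h v (L a) = 0}
      add_mem' := by
        rintro x y ⟨hx, hx'⟩ ⟨hy, hy'⟩
        exact ⟨(range N).add_mem hx hy, by rw [hs.add, hx', hy', add_zero]⟩
      zero_mem' := ⟨(range N).zero_mem, hs.zero_left _⟩
      smul_mem' := by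
        rintro c x ⟨hx, hx'⟩
        exact ⟨(range N).smul_mem c hx, by rw [hs.smul, hx', mul_zero]⟩ }
  obtain ⟨lam, hlam⟩ : ∃ lam : K, ∀ v ∈ H₀, (S * L) v = lam • v := by
    apply eig
    rintro v ⟨hv, hv'⟩
    exact H v hv (by rw [hvec, hv', mul_zero])
  have hlam' : ∀ v ∈ range N, h v (L a) = 0 → S (L v) = lam • v := fun v hv hv' => hlam v ⟨hv, hv'⟩
  by_cases ha0 : a = 0
  · refine ⟨lam, 0, ?_⟩
    ext z
    rw [zero_smul, add_zero, LinearMap.smul_apply, hSz]
    apply hlam' _ ⟨z, rfl⟩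
    rw [ha0, map_zero, hs.zero_right]
  · obtain ⟨z1, hz1⟩ := exists_one hs ha0
    have hma : ∀ z, h (N z) (L a) = h z a := by
      intro z
      rw [hN.2, hNL a ha]
    obtain ⟨w, hw⟩ : ∃ w, w = N z1 := ⟨_, rfl⟩
    have hwW : w ∈ range N := by rw [hw]; exact ⟨z1, rfl⟩
    have hwa : h w (L a) = 1 := by rw [hw, hma, hz1]
    obtain ⟨q, hq⟩ : ∃ q, q = S (L w) - lam • w := ⟨_, rfl⟩
    have hqW : q ∈ range N := by
      rw [hq]
      exact (range N).sub_mem (hU.2 ⟨L w, rfl⟩) ((range N).smul_mem _ hwW)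
    have hSw : S (L w) = q + lam • w := by rw [hq, sub_add_cancel]
    have hC : ∀ v ∈ range N, S (L v) = lam • v + h v (L a) • q := by
      intro v hv
      have h1 := hlam' (v - h v (L a) • w)
        ((range N).sub_mem hv ((range N).smul_mem _ hwW)) (by
          rw [hs.sub, hs.smul, hwa, mul_one, ck])
      rw [map_sub, map_sub, map_smul, map_smul, hSw] at h1
      have h2 := sub_eq_iff_eq_add.1 h1
      rw [h2]
      module
    have hsa : ∀ v, h (S (L v)) (L w) = h v (L (S (L w))) := by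
      intro v
      rw [hS, hL.2]
    have hmq : ∀ v ∈ range N, h v (L q) = h q (L w) * h v (L a) := by
      intro v hv
      have h1 := hsa v
      rw [hC v hv, hC w hwW, hwa, one_smul, map_add, map_smul, hs.add, hs.add_right, hs.smul,
        hs.smul, hs.smul_right] at h1
      have h2 := add_left_cancel h1
      rw [← h2, mul_comm]
    have hqa : q = h q (L w) • a := by
      apply ext_left hs.herm
      intro z
      rw [hs.comm, hs.comm _ z, hs.smul_right, ← hma z, ← hmq _ ⟨z, rfl⟩, hN.2, hNL q hqW]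
    refine ⟨lam, h q (L w), ?_⟩
    ext z
    rw [LinearMap.add_apply, LinearMap.smul_apply, LinearMap.smul_apply, rk_apply, hSz,
      hC _ ⟨z, rfl⟩, hma z]
    congr 1
    rw [smul_comm, ← hqa]

end Pool.Agent.Helper2.SP
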