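import Pool.Agent.Helper2.SP.Defs

/-!
# Block SP-SX: orders dividing three times a power of two

Characteristic two, `N² = M² = 0`, `u = (1 + N) (1 + M)`, inverse `u' = (1 + M) (1 + N)`, `z = N M + M N = u + u'` commutes with `u`, `u'`. `u³ + u'³ = z³ + z`
(`(u + u')³ = u³ + u'³ + 3 (u + u')`), and by Frobenius (commuting, characteristic two) `(u³)^(2^k) + (u'³)^(2^k) = (z³ + z)^(2^k)`. Let `n = 3 * 2^k`.
`u^(2 n) = 1` iff `u^n = u'^n` iff `u^n + u'^n = 0` iff `(z³ + z)^(2^k) = 0`. As `z³ + z = z (z + 1)²`, this holds for some `k` iff `z³ + z` is nilpotent iff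
`z² + z` is nilpotent (`(z² + z)² = z (z³ + z)`, and `z³ + z = (z² + z) (z + 1)`). With `Z = N M`, `Z' = M N`, `Z Z' = Z' Z = 0`:
`(z² + z)^k = (Z² + Z)^k + (Z'² + Z')^k` for `k ≥ 1`. If it is `0` multiply by `N` on the right (`Z' N = 0`): `(Z² + Z)^k N = 0`, so `(Z² + Z)^(k+1) = 0`
(`Z² + Z = (Z N + N) M`, `Z` commutes). If `(Z² + Z)^k = 0` then `(Z'² + Z')^(k+1) = M (...)^k ... N = 0` (`Z' M = M Z`: `(Z'² + Z')^(k+1) =
(Z' + 1) M (Z² + Z)^k N`).

The proof below takes a slightly shorter way: with `y = u³ + 1` (nilpotent iff some `u^(3 * 2^m)` is `1`), `w = z² + z`, `W = Z² + Z` one has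
`y² = u³ w (z + 1)`, `w² = z u'³ y²`, `w^k N = W^k N`, `w^(k+1) = (z + 1) (w^k N M + M w^k N)` and `W^(k+1) = (Z + 1) W^k N M`.
-/

set_option autoImplicit false
set_option linter.unusedSectionVars false

open LinearMap

namespace Pool.Agent.Helper2.SP

open Pool.Agent.Helper81.UT Pool.Agent.Helper81.EU
open Pool.Agent.Helper2.EV hiding one_add_sq Pres core

section Ring

variable {R : Type*} [Ring R]

private theorem six_add_self (h2 : (2 : R) = 0) (x : R) : x + x = 0 := by
  rw [← two_mul, h2, zero_mul]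

private theorem six_one_add_pow (h2 : (2 : R) = 0) (y : R) (m : ℕ) :
    (1 + y) ^ (2 ^ m) = 1 + y ^ (2 ^ m) := by
  induction m with
  | zero => simp
  | succ m ih =>
    rw [pow_succ, pow_mul, ih, pow_mul, sq, sq]
    have h := six_add_self h2 (y ^ 2 ^ m)
    calc (1 + y ^ 2 ^ m) * (1 + y ^ 2 ^ m)
        = 1 + (y ^ 2 ^ m + y ^ 2 ^ m) + y ^ 2 ^ m * y ^ 2 ^ m := by noncomm_ring
      _ = 1 + y ^ 2 ^ m * y ^ 2 ^ m := by rw [h, add_zero]

/-- some `u^(2 * (3 * 2^k))` is `1` iff `u³ + 1` is nilpotent. -/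
private theorem six_exists_iff (h2 : (2 : R) = 0) (u : R) :
    (∃ k : ℕ, u ^ (2 * (3 * 2 ^ k)) = 1) ↔ IsNilpotent (u ^ 3 + 1) := by
  have hu : u ^ 3 = 1 + (u ^ 3 + 1) := by
    have := six_add_self h2 (1 : R)
    calc u ^ 3 = u ^ 3 + (1 + 1) := by rw [this, add_zero]
      _ = 1 + (u ^ 3 + 1) := by abel
  have key : ∀ k : ℕ, u ^ (2 * (3 * 2 ^ k)) = 1 + (u ^ 3 + 1) ^ (2 ^ (k + 1)) := by
    intro k
    rw [← six_one_add_pow h2, ← hu, ← pow_mul]
    congr 1
    ring
  constructor
  · rintro ⟨k, hk⟩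
    rw [key] at hk
    exact ⟨2 ^ (k + 1), by simpa using hk⟩
  · rintro ⟨n, hn⟩
    refine ⟨n, ?_⟩
    rw [key]
    have hle : n ≤ 2 ^ (n + 1) := le_of_lt (lt_of_lt_of_le Nat.lt_two_pow_self
      (Nat.pow_le_pow_right (by norm_num) (Nat.le_succ n)))
    rw [pow_eq_zero_of_le hle hn, add_zero]

/-- the two elements `u`, `u'` with `u u' = u' u = 1`, `z = u + u'`: `u³ + 1` is nilpotent iff `z² + z` is. -/
private theorem six_cube_iff (h2 : (2 : R) = 0) {u u' : R} (h1 : u * u' = 1) (h1' : u' * u = 1) :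
    IsNilpotent (u ^ 3 + 1) ↔ IsNilpotent ((u + u') ^ 2 + (u + u')) := by
  have hc : Commute u u' := by rw [Commute, SemiconjBy, h1, h1']
  set z := u + u' with hz
  have hcz : Commute u z := (Commute.refl u).add_right hc
  have hcz' : Commute u' z := hc.symm.add_right (Commute.refl u')
  have huz : u * z = u ^ 2 + 1 := by rw [hz, mul_add, h1, sq]
  have e1 : (u + 1) * (u + 1) = u * z := by
    have := six_add_self h2 u
    rw [huz]
    calc (u + 1) * (u + 1) = u ^ 2 + (u + u) + 1 := by noncomm_ring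
      _ = u ^ 2 + 1 := by rw [this, add_zero]
  have e2 : u ^ 2 + u + 1 = u * (z + 1) := by rw [mul_add, huz, mul_one]; abel
  have e3 : u ^ 3 + 1 = (u + 1) * (u ^ 2 + u + 1) := by
    have h2u := six_add_self h2 u
    have h2u2 := six_add_self h2 (u ^ 2)
    calc u ^ 3 + 1 = u ^ 3 + (u ^ 2 + u ^ 2) + (u + u) + 1 := by rw [h2u, h2u2, add_zero, add_zero]
      _ = (u + 1) * (u ^ 2 + u + 1) := by noncomm_ring
  have hcu1 : Commute (u + 1) (u * (z + 1)) :=
    ((Commute.refl u).mul_right (hcz.add_right (Commute.one_right u))).add_left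
      (Commute.one_left _)
  have e4 : (u ^ 3 + 1) ^ 2 = u ^ 3 * ((z ^ 2 + z) * (z + 1)) := by
    rw [e3, e2, sq]
    have hcz1 : Commute u (z + 1) := hcz.add_right (Commute.one_right u)
    calc (u + 1) * (u * (z + 1)) * ((u + 1) * (u * (z + 1)))
        = (u + 1) * ((u * (z + 1)) * (u + 1)) * (u * (z + 1)) := by noncomm_ring
      _ = (u + 1) * ((u + 1) * (u * (z + 1))) * (u * (z + 1)) := by rw [hcu1.eq]
      _ = ((u + 1) * (u + 1)) * (u * ((z + 1) * u) * (z + 1)) := by noncomm_ring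
      _ = (u * z) * (u * (u * (z + 1)) * (z + 1)) := by rw [e1, ← hcz1.eq]
      _ = u * ((z * u) * u) * (z + 1) * (z + 1) := by noncomm_ring
      _ = u * ((u * z) * u) * (z + 1) * (z + 1) := by rw [← hcz.eq]
      _ = u * u * (z * u) * (z + 1) * (z + 1) := by noncomm_ring
      _ = u * u * (u * z) * (z + 1) * (z + 1) := by rw [← hcz.eq]
      _ = u ^ 3 * ((z ^ 2 + z) * (z + 1)) := by noncomm_ring
  have hw1 : Commute (z ^ 2 + z) (z + 1) :=
    (((Commute.refl z).pow_left 2).add_left (Commute.refl z)).add_right (Commute.one_right _)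
  have huw : Commute u ((z ^ 2 + z) * (z + 1)) :=
    ((hcz.pow_right 2).add_right hcz).mul_right (hcz.add_right (Commute.one_right u))
  constructor
  · intro hy
    have hy2 : IsNilpotent ((u ^ 3 + 1) ^ 2) := by
      obtain ⟨n, hn⟩ := hy
      exact ⟨n, by rw [← pow_mul, mul_comm, pow_mul, hn, zero_pow (by norm_num)]⟩
    -- `w (z + 1) = u'³ y²`
    have e5 : (z ^ 2 + z) * (z + 1) = u' ^ 3 * (u ^ 3 + 1) ^ 2 := by
      rw [e4, ← mul_assoc, ← hc.symm.mul_pow, h1', one_pow, one_mul]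
    have hcu' : Commute u' ((u ^ 3 + 1) ^ 2) :=
      ((hc.symm.pow_right 3).add_right (Commute.one_right u')).pow_right 2
    have hw : IsNilpotent ((z ^ 2 + z) * (z + 1)) := by
      rw [e5]
      exact (hcu'.pow_left 3).isNilpotent_mul_left hy2
    have e6 : (z ^ 2 + z) ^ 2 = z * ((z ^ 2 + z) * (z + 1)) := by noncomm_ring
    have hzw : Commute z ((z ^ 2 + z) * (z + 1)) :=
      (((Commute.refl z).pow_right 2).add_right (Commute.refl z)).mul_right
        ((Commute.refl z).add_right (Commute.one_right z))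
    have hw2 : IsNilpotent ((z ^ 2 + z) ^ 2) := by
      rw [e6]
      exact hzw.isNilpotent_mul_left hw
    obtain ⟨n, hn⟩ := hw2
    exact ⟨2 * n, by rw [pow_mul, hn]⟩
  · intro hw
    have h1n : IsNilpotent ((z ^ 2 + z) * (z + 1)) := hw1.isNilpotent_mul_right hw
    have h2n : IsNilpotent ((u ^ 3 + 1) ^ 2) := by
      rw [e4]
      exact (huw.pow_left 3).isNilpotent_mul_left h1n
    obtain ⟨n, hn⟩ := h2n
    exact ⟨2 * n, by rw [pow_mul, hn]⟩

/-- with `z = N M + M N`, `N² = M² = 0`: `z² + z` is nilpotent iff `(N M)² + N M` is. -/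
private theorem six_half_iff {N M : R} (hN : N * N = 0) (hM : M * M = 0) :
    IsNilpotent ((N * M + M * N) ^ 2 + (N * M + M * N)) ↔
      IsNilpotent (N * M + N * M * (N * M)) := by
  set z := N * M + M * N with hz
  set w := z ^ 2 + z with hw
  set W := N * M + N * M * (N * M) with hW
  have hzN : z * N = N * (M * N) := by
    rw [hz, add_mul, mul_assoc M, hN, mul_zero, add_zero, mul_assoc]
  have hNz : N * z = N * (M * N) := by
    rw [hz, mul_add, ← mul_assoc N N, hN, zero_mul, zero_add]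
  have hzM : z * M = M * (N * M) := by
    rw [hz, add_mul, mul_assoc N, hM, mul_zero, zero_add, mul_assoc]
  have hMz : M * z = M * (N * M) := by
    rw [hz, mul_add, ← mul_assoc M M, hM, zero_mul, add_zero]
  have hcN : Commute z N := hzN.trans hNz.symm
  have hcM : Commute z M := hzM.trans hMz.symm
  have hcwN : Commute w N := (hcN.pow_left 2).add_left hcN
  have hcwM : Commute w M := (hcM.pow_left 2).add_left hcM
  have hwN : w * N = W * N := by
    calc w * N = z * (z * N) + z * N := by rw [hw, add_mul, sq, mul_assoc]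
      _ = (z * N) * (M * N) + N * (M * N) := by nth_rewrite 1 2 [hzN]; rw [mul_assoc z N]
      _ = N * (M * N) * (M * N) + N * (M * N) := by rw [hzN]
      _ = W * N := by rw [hW, add_mul]; simp only [mul_assoc]; rw [add_comm]
  have hpow : ∀ k : ℕ, w ^ k * N = W ^ k * N := by
    intro k
    induction k with
    | zero => simp
    | succ k ih =>
      calc w ^ (k + 1) * N = w ^ k * (w * N) := by rw [pow_succ, mul_assoc]
        _ = (w ^ k * N) * w := by rw [hcwN.eq, mul_assoc]
        _ = W ^ k * (w * N) := by rw [ih, mul_assoc, hcwN.eq]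
        _ = W ^ (k + 1) * N := by rw [hwN, pow_succ, mul_assoc]
  have hcW : Commute W (N * M) := by
    have h := (Commute.refl (N * M))
    exact h.add_left (h.mul_left h)
  constructor
  · rintro ⟨k, hk⟩
    refine ⟨k + 1, ?_⟩
    have h0 : W ^ k * N = 0 := by rw [← hpow, hk, zero_mul]
    have hW1 : W = (1 + N * M) * (N * M) := by rw [hW]; noncomm_ring
    have hcW1 : Commute (W ^ k) (1 + N * M) := (Commute.one_right _).add_right (hcW.pow_left k)
    calc W ^ (k + 1) = W ^ k * W := pow_succ _ _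
      _ = (W ^ k * (1 + N * M)) * (N * M) := by rw [mul_assoc, ← hW1]
      _ = (1 + N * M) * ((W ^ k * N) * M) := by rw [hcW1.eq]; noncomm_ring
      _ = 0 := by rw [h0, zero_mul, mul_zero]
  · rintro ⟨k, hk⟩
    refine ⟨k + 1, ?_⟩
    have h0 : w ^ k * N = 0 := by rw [hpow, hk, zero_mul]
    have hz0 : w ^ k * z = 0 := by
      calc w ^ k * z = (w ^ k * N) * M + (w ^ k * M) * N := by rw [hz]; noncomm_ring
        _ = (w ^ k * N) * M + M * (w ^ k * N) := by rw [(hcwM.pow_left k).eq, mul_assoc M]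
        _ = 0 := by rw [h0, zero_mul, mul_zero, add_zero]
    calc w ^ (k + 1) = w ^ k * w := pow_succ _ _
      _ = (w ^ k * z) * (z + 1) := by rw [hw]; noncomm_ring
      _ = 0 := by rw [hz0, zero_mul]

end Ring

variable {K V : Type*} [Field K] [StarRing K] [AddCommGroup V] [Module K V] [CharP K 2] [Finite K]
  [FiniteDimensional K V] {h : V → V → K} {j : ℕ} {b : Prop}

theorem six_iff {N M : Module.End K V} (hN : N * N = 0) (hM : M * M = 0) :
    (∃ k : ℕ, ((1 + N) * (1 + M)) ^ (2 * (3 * 2 ^ k)) = 1) ↔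
      IsNilpotent (N * M + N * M * (N * M)) := by
  have h2K : (2 : K) = 0 := CharTwo.two_eq_zero
  have h2 : (2 : Module.End K V) = 0 := by
    ext v
    have : (2 : Module.End K V) v = (2 : K) • v := by
      rw [two_smul]
      rw [← one_add_one_eq_two, LinearMap.add_apply, Module.End.one_apply]
    rw [this, h2K, zero_smul, LinearMap.zero_apply]
  have hsq : ∀ A : Module.End K V, A * A = 0 → (1 + A) * (1 + A) = 1 := by
    intro A hA
    calc (1 + A) * (1 + A) = 1 + (A + A) + A * A := by noncomm_ring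
      _ = 1 := by rw [six_add_self h2, hA, add_zero, add_zero]
  have hN1 := hsq N hN
  have hM1 := hsq M hM
  have h1 : ((1 + N) * (1 + M)) * ((1 + M) * (1 + N)) = 1 := by
    calc ((1 + N) * (1 + M)) * ((1 + M) * (1 + N))
        = (1 + N) * ((1 + M) * (1 + M)) * (1 + N) := by simp only [mul_assoc]
      _ = 1 := by rw [hM1, mul_one, hN1]
  have h1' : ((1 + M) * (1 + N)) * ((1 + N) * (1 + M)) = 1 := by
    calc ((1 + M) * (1 + N)) * ((1 + N) * (1 + M))
        = (1 + M) * ((1 + N) * (1 + N)) * (1 + M) := by simp only [mul_assoc]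
      _ = 1 := by rw [hN1, mul_one, hM1]
  have hz : (1 + N) * (1 + M) + (1 + M) * (1 + N) = N * M + M * N := by
    calc (1 + N) * (1 + M) + (1 + M) * (1 + N)
        = (1 + 1) + (N + N) + (M + M) + (N * M + M * N) := by noncomm_ring
      _ = N * M + M * N := by simp only [six_add_self h2, zero_add]
  rw [six_exists_iff h2, six_cube_iff h2 h1 h1', hz, six_half_iff hN hM]

end Pool.Agent.Helper2.SP
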