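import Pool.Agent.Helper2.SP.Defs

/-!
# Block SP-TT: order thirty

Characteristic two, `N² = M² = 0`, `u = (1 + N) (1 + M)`, inverse `u' = (1 + M) (1 + N)`, `z = N M + M N = u + u'` commutes with `u`, `u'`. `u⁵ + u'⁵ = z⁵ + z³ + z = y`
and `u¹⁵ + u'¹⁵ = y³ + y` (`(u⁵ + u'⁵)³ = u¹⁵ + u'¹⁵ + 3 (u⁵ + u'⁵)`). `u³⁰ = 1` iff `u¹⁵ = u'¹⁵` iff `y³ + y = 0`. With `Z = N M`, `Z' = M N`,
`Z Z' = Z' Z = 0`: `z^k = Z^k + Z'^k` for `k ≥ 1`, so `y = Y + Y'`, `Y = Z⁵ + Z³ + Z`, `Y' = Z'⁵ + Z'³ + Z'`, `Y Y' = Y' Y = 0`, `y³ + y = (Y³ + Y) + (Y'³ + Y')`.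
`thirty_of`: `Z⁴ = Z` and `Z'⁴ = Z'` give `z⁴ = z`, so `y = z² + z³ + z`, `y² = z⁴ + z⁶ + z² = z + z³ + z² = y`, so `y³ + y = 0`.
`thirty_eq`: multiply `y³ + y = 0` by `N` on the right (`Z' N = M N N = 0`, so `Y' N = 0`).
-/

set_option autoImplicit false
set_option linter.unusedSectionVars false

open LinearMap

namespace Pool.Agent.Helper2.SP

open Pool.Agent.Helper81.UT Pool.Agent.Helper81.EU
open Pool.Agent.Helper2.EV hiding one_add_sq Pres core

universe u1 u2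

variable {K : Type u1} {V : Type u2} [Field K] [StarRing K] [AddCommGroup V] [Module K V] [CharP K 2] [Finite K]
  [FiniteDimensional K V] {h : V → V → K} {j : ℕ} {b : Prop}

private theorem two_end : (2 : Module.End K V) = 0 := by
  have h1 : (2 : Module.End K V) = algebraMap K (Module.End K V) 2 := (map_ofNat _ 2).symm
  rw [h1, CharTwo.two_eq_zero, map_zero]

open Classical in
/-- the commutative ring generated by two commuting elements `u`, `u'` with `u u' = 1`, with `u + u'` prescribed -/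
private theorem exists_comm {N M : Module.End K V} (hN : N * N = 0) (hM : M * M = 0) :
    ∃ (R : Type u2) (_ : CommRing R) (f : R →+* Module.End K V) (x y : R), Function.Injective f ∧ f x = (1 + N) * (1 + M) ∧
      f y = (1 + M) * (1 + N) ∧ x * y = 1 ∧ (2 : R) = 0 ∧ f (x + y) = N * M + M * N := by
  have h2 := two_end (K := K) (V := V)
  have e1 : (1 + M) * (1 + M) = 1 := by
    have : (1 + M) * (1 + M) = 1 + 2 * M + M * M := by noncomm_ring
    rw [this, h2, hM]; simp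
  have e2 : (1 + N) * (1 + N) = 1 := by
    have : (1 + N) * (1 + N) = 1 + 2 * N + N * N := by noncomm_ring
    rw [this, h2, hN]; simp
  have e3 : ((1 + N) * (1 + M)) * ((1 + M) * (1 + N)) = 1 := by
    rw [mul_assoc, ← mul_assoc (1 + M) (1 + M), e1, one_mul, e2]
  have e4 : ((1 + M) * (1 + N)) * ((1 + N) * (1 + M)) = 1 := by
    rw [mul_assoc, ← mul_assoc (1 + N) (1 + N), e2, one_mul, e1]
  have e5 : (1 + N) * (1 + M) + (1 + M) * (1 + N) = N * M + M * N := by
    have : (1 + N) * (1 + M) + (1 + M) * (1 + N) = 2 * (1 + N + M) + (N * M + M * N) := by noncomm_ring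
    rw [this, h2, zero_mul, zero_add]
  set u := (1 + N) * (1 + M) with hu
  set u' := (1 + M) * (1 + N) with hu'
  let S : Subring (Module.End K V) := Subring.closure {u, u'}
  have hcomm : ∀ a ∈ ({u, u'} : Set (Module.End K V)), ∀ b ∈ ({u, u'} : Set (Module.End K V)), a * b = b * a := by
    rintro a (rfl | rfl) b (rfl | rfl)
    · rfl
    · rw [e3, e4]
    · rw [e3, e4]
    · rfl
  have hS : ∀ a b : S, a * b = b * a := by
    have h1 := Subring.isMulCommutative_closure hcomm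
    exact fun a b => h1.is_comm.comm a b
  let _ : CommRing S := { (inferInstance : Ring S) with mul_comm := hS }
  refine ⟨↥S, inferInstance, S.subtype, ⟨u, Subring.subset_closure (by simp)⟩, ⟨u', Subring.subset_closure (by simp)⟩,
    Subtype.val_injective, rfl, rfl, Subtype.ext e3, Subtype.ext ?_, e5⟩
  exact h2

private theorem dickson15 {R : Type u2} [CommRing R] (x y : R) (h : x * y = 1) (h2 : (2 : R) = 0) :
    x ^ 15 + y ^ 15 = ((x + y) ^ 5 + (x + y) ^ 3 + (x + y)) ^ 3 + ((x + y) ^ 5 + (x + y) ^ 3 + (x + y)) := by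
  have h5 : x ^ 5 + y ^ 5 = (x + y) ^ 5 + (x + y) ^ 3 + (x + y) := by
    linear_combination (-5 * (x + y) ^ 3 + 5 * (x * y + 1) * (x + y)) * h + (-3 * (x + y) ^ 3 + 2 * (x + y)) * h2
  have h3 : ∀ a b : R, a * b = 1 → a ^ 3 + b ^ 3 = (a + b) ^ 3 + (a + b) := by
    intro a b hab
    linear_combination (-3 * (a + b)) * hab + (-2 * (a + b)) * h2
  have h6 := h3 (x ^ 5) (y ^ 5) (by rw [← mul_pow, h, one_pow])
  rw [h5, ← pow_mul, ← pow_mul] at h6
  exact h6

private theorem pow30_iff {R : Type u2} [CommRing R] (x y : R) (h : x * y = 1) (h2 : (2 : R) = 0) :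
    x ^ 30 = 1 ↔ x ^ 15 + y ^ 15 = 0 := by
  have h15 : x ^ 15 * y ^ 15 = 1 := by rw [← mul_pow, h, one_pow]
  constructor
  · intro h30
    linear_combination (-y ^ 15) * h30 + x ^ 15 * h15 + x ^ 15 * h2
  · intro h0
    linear_combination x ^ 15 * h0 - h15 - h2


private theorem zz0 {N M : Module.End K V} (hM : M * M = 0) : (N * M) * (M * N) = 0 := by
  rw [mul_assoc, ← mul_assoc M M, hM, zero_mul, mul_zero]

private theorem zpow {N M : Module.End K V} (hN : N * N = 0) (hM : M * M = 0) (k : ℕ) :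
    (N * M + M * N) ^ (k + 1) = (N * M) ^ (k + 1) + (M * N) ^ (k + 1) := by
  have h1 : (N * M) * (M * N) = 0 := zz0 hM
  have h2 : (M * N) * (N * M) = 0 := zz0 hN
  have h3 : ∀ k, (N * M) ^ (k + 1) * (M * N) = 0 := fun k => by rw [pow_succ, mul_assoc, h1, mul_zero]
  have h4 : ∀ k, (M * N) ^ (k + 1) * (N * M) = 0 := fun k => by rw [pow_succ, mul_assoc, h2, mul_zero]
  induction k with
  | zero => simp
  | succ k ih =>
    rw [pow_succ, ih, add_mul, mul_add, mul_add, h3, h4, add_zero, zero_add, ← pow_succ, ← pow_succ]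

theorem thirty_of {N M : Module.End K V} (hN : N * N = 0) (hM : M * M = 0)
    (h1 : (N * M) ^ 4 = N * M) (h2 : (M * N) ^ 4 = M * N) :
    ((1 + N) * (1 + M)) ^ 30 = 1 := by
  obtain ⟨R, _, f, x, y, hf, hx, -, hxy, h0, hz⟩ := exists_comm hN hM
  have h4 : (x + y) ^ 4 = x + y := by
    apply hf
    rw [map_pow, hz, zpow hN hM 3, h1, h2]
  rw [← hx, ← map_pow, (pow30_iff x y hxy h0).2, map_one]
  rw [dickson15 x y hxy h0]
  generalize x + y = t at h4
  have h5 : t ^ 5 = t ^ 2 := by rw [pow_succ, h4, sq]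
  rw [h5]
  have h6 : t ^ 6 = t ^ 3 := by
    calc t ^ 6 = t ^ 4 * t ^ 2 := by ring
      _ = t ^ 3 := by rw [h4]; ring
  have h7 : (t ^ 2 + t ^ 3 + t) ^ 2 = t ^ 2 + t ^ 3 + t := by
    linear_combination h4 + h6 + (t ^ 5 + t ^ 3 + t ^ 4) * h0
  linear_combination (t ^ 2 + t ^ 3 + t + 1) * h7 + (t ^ 2 + t ^ 3 + t) * h0

theorem thirty_eq {N M : Module.End K V} (hN : N * N = 0) (hM : M * M = 0)
    (h1 : ((1 + N) * (1 + M)) ^ 30 = 1) :
    (((N * M) ^ 5 + (N * M) ^ 3 + N * M) ^ 3 + ((N * M) ^ 5 + (N * M) ^ 3 + N * M)) * N = 0 := by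
  obtain ⟨R, _, f, x, y, hf, hx, -, hxy, h0, hz⟩ := exists_comm hN hM
  rw [← hx, ← map_pow] at h1
  have h2 : x ^ 30 = 1 := hf (by rw [h1, map_one])
  have h3 := (pow30_iff x y hxy h0).1 h2
  rw [dickson15 x y hxy h0] at h3
  have h4 := congrArg f h3
  rw [map_zero, map_add, map_pow, map_add, map_add, map_pow, map_pow, hz] at h4
  set z := N * M + M * N with hzd
  set Z := N * M with hZd
  have e1 : z * N = Z * N := by
    rw [hzd, add_mul, mul_assoc M N N, hN, mul_zero, add_zero]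
  have e2 : z * Z = Z * Z := by
    rw [hzd, add_mul, zz0 hN, add_zero]
  clear_value z Z
  have e4 : ∀ (X : Module.End K V), z * X = Z * X → ∀ k : ℕ, z ^ (k + 1) * X = Z ^ (k + 1) * X := by
    intro X hX k
    induction k with
    | zero => simpa using hX
    | succ k ih =>
      calc z ^ (k + 1 + 1) * X = z * (z ^ (k + 1) * X) := by rw [pow_succ' z (k + 1), mul_assoc]
        _ = z * (Z * (Z ^ k * X)) := by rw [ih, pow_succ', mul_assoc]
        _ = Z * (Z * (Z ^ k * X)) := by rw [← mul_assoc z, e2, mul_assoc]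
        _ = Z ^ (k + 1 + 1) * X := by rw [pow_succ' Z (k + 1), pow_succ' Z k, mul_assoc, mul_assoc]
  have e5 : ∀ (X : Module.End K V), z * X = Z * X → (z ^ 5 + z ^ 3 + z) * X = (Z ^ 5 + Z ^ 3 + Z) * X := by
    intro X hX
    rw [add_mul, add_mul, e4 X hX 4, e4 X hX 2, hX, ← add_mul, ← add_mul]
  have e6 : ∀ (X : Module.End K V), z * (Z * X) = Z * (Z * X) := by
    intro X
    rw [← mul_assoc, e2, mul_assoc]
  have e7 : ∀ (X : Module.End K V), z * ((Z ^ 5 + Z ^ 3 + Z) * X) = Z * ((Z ^ 5 + Z ^ 3 + Z) * X) := by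
    intro X
    have : (Z ^ 5 + Z ^ 3 + Z) * X = Z * ((Z ^ 4 + Z ^ 2 + 1) * X) := by noncomm_ring
    rw [this]
    exact e6 _
  have h5 : ((z ^ 5 + z ^ 3 + z) ^ 3 + (z ^ 5 + z ^ 3 + z)) * N = 0 := by rw [h4, zero_mul]
  have e8 : ∀ (a X : Module.End K V), a ^ 3 * X = a * (a * (a * X)) := fun a X => by
    rw [pow_succ, sq, mul_assoc, mul_assoc]
  rw [← h5, add_mul, add_mul ((z ^ 5 + z ^ 3 + z) ^ 3), e5 N e1]
  congr 1
  rw [e8, e8, e5 N e1, e5 _ (e7 _), e5 _ (e7 _)]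

end Pool.Agent.Helper2.SP
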