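import Pool.Agent.Helper2.SP.Fam
import Pool.Agent.Helper2.SP.Scal
import Pool.Agent.Helper2.SP.Cube
import Pool.Agent.Helper2.SP.Cas
import Pool.Agent.Helper2.SP.Uv
import Pool.Agent.Helper2.SP.Yel
import Pool.Agent.Helper2.SP.Six
import Pool.Agent.Helper2.SP.Thr
import Pool.Agent.Helper2.SP.Alg
import Pool.Agent.Helper2.SP.Nnil
import Pool.Agent.Helper2.SP.Nil
import Pool.Agent.Helper2.SP.Psy

/-!
# Project SP: elements inverse to `N`

Let `L` be inverse to `N`. `ψ L = (1 + S₀) L (1 + S₀)` with `S₀ = lam N + mu a a*`. If `S₀ ≠ N` then (`a ≠ 0`) the element `Y` of block SP-YE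
satisfies `ψ Y = (1 + N₂) Y (1 + N₂)` with `N₂ = S₀ + S` (block SP-PY); so the orders of `(1 + Y) (1 + N₂)` and `(1 + Y) (1 + N)` agree up to a
factor two, a contradiction: `N Y` has the minimal polynomial `X⁴ - X` on its eigenspaces.
-/

set_option autoImplicit false
set_option linter.unusedSectionVars false

open LinearMap

namespace Pool.Agent.Helper2.SP

open Pool.Agent.Helper81.UT Pool.Agent.Helper81.EU
open Pool.Agent.Helper2.EV hiding one_add_sq Pres core

variable {K V : Type*} [Field K] [StarRing K] [AddCommGroup V] [Module K V] [CharP K 2] [Finite K]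
  [FiniteDimensional K V] {h : V → V → K} {j : ℕ} {b : Prop}
  {N : Module.End K V} {ψ : Module.End K V → Module.End K V}

/-- For `w` in the image of `N` (the other element is inverse to `N`). -/
theorem inv_apply {L : Module.End K V} (hI : Inv N L) {w : V} (hw : w ∈ range N) :
    N (L w) = w := by
  obtain ⟨z, rfl⟩ := hw
  exact LinearMap.congr_fun hI.1 z

theorem u_ns {S : Module.End K V} (hN : N * N = 0) (hU : U N S) : N * S = 0 := by
  ext z
  obtain ⟨y, hy⟩ := hU.2 ⟨z, rfl⟩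
  show N (S z) = 0
  rw [← hy]
  exact LinearMap.congr_fun hN y

theorem u_sn {S : Module.End K V} (hN : N * N = 0) (hU : U N S) : S * N = 0 := by
  ext z
  exact hU.1 (show N (N z) = 0 from LinearMap.congr_fun hN z)

theorem u_add {S S' : Module.End K V} (hU : U N S) (hU' : U N S') : U N (S + S') := by
  constructor
  · intro x hx
    have h1 : S x = 0 := hU.1 hx
    have h2 : S' x = 0 := hU'.1 hx
    show S x + S' x = 0
    rw [h1, h2, add_zero]
  · rintro _ ⟨x, rfl⟩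
    exact (range N).add_mem (hU.2 ⟨x, rfl⟩) (hU'.2 ⟨x, rfl⟩)

theorem u_ss {S : Module.End K V} (hN : N * N = 0) (hU : U N S) : S * S = 0 := by
  ext z
  obtain ⟨y, hy⟩ := hU.2 ⟨z, rfl⟩
  show S (S z) = 0
  rw [← hy]
  exact LinearMap.congr_fun (u_sn hN hU) y

/-- The order does not depend on the order of the factors. -/
theorem pow_swap {A B : Module.End K V} (hA : A * A = 0) (m : ℕ) :
    ((1 + A) * (1 + B)) ^ m = 1 ↔ ((1 + B) * (1 + A)) ^ m = 1 := by
  have h1 := one_add_sq hA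
  have key : ((1 + B) * (1 + A)) ^ m = (1 + A) * ((1 + A) * (1 + B)) ^ m * (1 + A) := by
    induction m with
    | zero => rw [pow_zero, pow_zero, mul_one, h1]
    | succ m ih =>
      rw [pow_succ, ih, pow_succ]
      calc (1 + A) * ((1 + A) * (1 + B)) ^ m * (1 + A) * ((1 + B) * (1 + A)) =
          (1 + A) * (((1 + A) * (1 + B)) ^ m * ((1 + A) * (1 + B))) * (1 + A) := by
            simp only [mul_assoc]
        _ = _ := rfl
  constructor
  · intro h2
    rw [key, h2, mul_one, h1]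
  · intro h2
    have h3 : ((1 + A) * (1 + B)) ^ m = (1 + A) * ((1 + A) * ((1 + A) * (1 + B)) ^ m * (1 + A)) *
        (1 + A) := by
      have h4 : (1 + A) * ((1 + A) * ((1 + A) * (1 + B)) ^ m * (1 + A)) * (1 + A) =
          (1 + A) * (1 + A) * ((1 + A) * (1 + B)) ^ m * ((1 + A) * (1 + A)) := by
        simp only [mul_assoc]
      rw [h4, h1, one_mul, mul_one]
    rw [h3, ← key, h2, mul_one, h1]

/-- The data of the contradiction. -/
theorem data (hs : Sy h) (hj : 2 ≤ j) (hF : Fx h j b N ψ)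
    (hO : ∀ Y ∈ Cl h j b, ∀ m : ℕ,
      ((1 + Y) * (1 + ψ Y)) ^ m = 1 ↔ ((1 + Y) * (1 + N)) ^ (2 * m) = 1)
    {L : Module.End K V} (hL : L ∈ Cl h j b) (hI : Inv N L) {a : V} (ha : a ∈ range N)
    (hVa : Vc h N a) (ha0 : a ≠ 0) {lam mu : K} {S₀ : Module.End K V} (hU₀ : U N S₀)
    (hS₀ : S₀ = lam • N + mu • rk hs.herm a a) (hf : ψ L = (1 + S₀) * L * (1 + S₀)) :
    ∃ u ∈ range N, ∃ v ∈ range N, ∃ Y S : Module.End K V, h u (L u) = 1 ∧ h u (L v) = 1 ∧
      h v (L v) = 0 ∧ (h a (L a) = 0 → v = a) ∧ Y * Y = 0 ∧ SA h Y ∧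
      (∀ w ∈ range N, N (Y w) = w + h w (L u) • u + h w (L v) • v) ∧
      (∀ w, L (N (Y w)) = Y w) ∧ SA h S ∧ U N S ∧ S (L a) = 0 ∧
      (∀ w ∈ range N, S (L (N (Y w))) = N (Y (S (L w)))) ∧
      (∀ w ∈ range N, S (L (S (L w))) = 0) ∧
      ∀ m : ℕ, (((S₀ + S) * (S₀ + S) = 0) ∧
        (((1 + (S₀ + S)) * (1 + Y)) ^ (2 * m) = 1 ↔ ((1 + N) * (1 + Y)) ^ (2 * m) = 1)) := by
  have hN := hF.hN
  have hNN := cl_sq hN
  obtain ⟨u, hu, v, hv, huu, huv, hvv, hva⟩ := exists_uv hs hj hN.1 hL.1 hI ha hVa ha0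
  obtain ⟨hY, hr⟩ := yel_mem hs hN hL hI ha hVa ha0 hu hv huu huv hvv
  have hnY := n_yel hs hI hu hv
  have ho : Opp N (yel hs L u v) :=
    opp_congr hI.opp (ker_eq_of_range hs.herm hY.1 hL.1 hr) hr
  obtain ⟨S, hS, hUS, hψY, hSa, hAB, hA2⟩ := psi_Y hs hj hF hL hI ha hVa hS₀ hf hY hr ho
  refine ⟨u, hu, v, hv, yel hs L u v, S, huu, huv, hvv, hva, cl_sq hY, hY.1.2, hnY, ?_, hS, hUS,
    hSa, hAB, hA2, ?_⟩
  · intro w
    have h1 : yel hs L u v w ∈ range L := by rw [← hr]; exact ⟨w, rfl⟩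
    obtain ⟨z, hz⟩ := h1
    rw [← hz]
    exact LinearMap.congr_fun hI.2 z
  · intro m
    have hSS := u_ss hNN (u_add hU₀ hUS)
    refine ⟨hSS, ?_⟩
    rw [pow_swap hSS, pow_swap hNN, ← hO _ hY m]
    have e2 : 1 + ψ (yel hs L u v) =
        (1 + (S₀ + S)) * (1 + yel hs L u v) * (1 + (S₀ + S)) := by
      rw [mul_add (1 + (S₀ + S)) 1 (yel hs L u v), mul_one, add_mul, one_add_sq hSS, hψY]
    have e1 : (1 + yel hs L u v) * (1 + ψ (yel hs L u v)) =
        ((1 + yel hs L u v) * (1 + (S₀ + S))) ^ 2 := by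
      rw [e2, pow_two]
      simp only [mul_assoc]
    rw [e1, ← pow_mul]

/-- The map fixes the elements commuting with `N` and has the right orders: the elements inverse to `N`. -/
theorem step_A (hs : Sy h) (hj : 2 ≤ j) (hF : Fx h j b N ψ)
    (hO : ∀ Y ∈ Cl h j b, ∀ m : ℕ,
      ((1 + Y) * (1 + ψ Y)) ^ m = 1 ↔ ((1 + Y) * (1 + N)) ^ (2 * m) = 1)
    {L : Module.End K V} (hL : L ∈ Cl h j b) (hI : Inv N L) :
    ψ L = (1 + N) * L * (1 + N) := by
  have hN := hF.hN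
  have hNN := cl_sq hN
  have hψL := hF.pres.mem L hL
  obtain ⟨a, ha, hVa⟩ := exists_vec hs hN.1.2
  obtain ⟨S₀, hS₀, hU₀, hf⟩ := hF.form hs hj hL hI.opp
  have hI' := hF.inv hs hj hL hI
  have hNS := u_ns hNN hU₀
  -- the shape of `S₀`
  have hH : ∀ v ∈ range N, h v (L v) = 0 → ∃ c : K, S₀ (L v) = c • v := by
    intro v hv hv'
    obtain ⟨c, hc⟩ := fam_two hs hN hL hψL hI hI' (fun R hR hcR h3 => by
      have h4 := (hF.pres.o3_iff hR hL).2 h3
      rwa [hF.fix R hR hcR] at h4) hv hv'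
    refine ⟨c, ?_⟩
    rw [← hc, hf]
    show S₀ (L v) = N (L (L v + S₀ (L v)) + S₀ (L (L v + S₀ (L v))))
    have e1 : L (L v) = 0 := el_sq' hL.1 v
    have e2 : ∀ x, N (S₀ x) = 0 := fun x => LinearMap.congr_fun hNS x
    rw [map_add, e2, add_zero, map_add, e1, zero_add]
    exact (inv_apply hI (hU₀.2 ⟨_, rfl⟩)).symm
  obtain ⟨lam, mu, hS⟩ := scal hs hj hN.1 hL.1 hI hS₀ hU₀ ha hVa hH
  -- order three
  have hne : ψ L ≠ L := by
    intro he
    have h1 := (hO L hL 1).1 (by rw [he, pow_one, one_add_sq (cl_sq hL)])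
    have h2 := (two (cl_sq hL) hNN).1 h1
    apply cl_ne_zero (by omega) hN
    calc N = N * L * N := hI.1.symm
      _ = N * (N * L) := by rw [mul_assoc, h2]
      _ = 0 := by rw [← mul_assoc, hNN, zero_mul]
  have hS0 : S₀ ≠ 0 := by
    intro h0
    apply hne
    rw [hf, h0, add_zero, one_mul, mul_one]
  have h3 : O3 L (ψ L) := by
    rw [← three' (cl_sq hL) (cl_sq hψL), hO L hL 3, show 2 * 3 = 3 * 2 from rfl, pow_mul,
      three_of_inv (cl_sq hL) hNN hI.symm, one_pow]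
  have hcube := cube hs hN.1 hL.1 hU₀ hf h3
  -- the contradiction for `mu = 1`
  have hcon : ∀ (u : V) (_ : u ∈ range N) (v : V) (_ : v ∈ range N) (Y S : Module.End K V),
      mu = 1 → ((h a (L a) = 0 ∧ lam = 1 ∧ v = a) ∨ (h a (L a) = 1 ∧ (lam = 0 ∨ lam = 1))) →
      h u (L u) = 1 → h u (L v) = 1 → h v (L v) = 0 → Y * Y = 0 →
      (∀ w ∈ range N, N (Y w) = w + h w (L u) • u + h w (L v) • v) →
      (∀ w, L (N (Y w)) = Y w) → SA h S → U N S → S (L a) = 0 →
      (∀ w ∈ range N, S (L (N (Y w))) = N (Y (S (L w)))) →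
      (∀ w ∈ range N, S (L (S (L w))) = 0) →
      (∀ m : ℕ, (((S₀ + S) * (S₀ + S) = 0) ∧
        (((1 + (S₀ + S)) * (1 + Y)) ^ (2 * m) = 1 ↔ ((1 + N) * (1 + Y)) ^ (2 * m) = 1))) →
      False := by
    intro u hu v hv Y S hm hl huu huv hvv hYY hY hLY hSA hUS hSa hAB hA2 hcmp
    have h1 := not_nil hs hL.1.2 hu hv huu huv hvv hY
    have h2 := nil_other hs hN.1 hL.1 hI ha hVa hu hv huu huv hvv hY hLY hSA hUS hAB hA2 hSa hl
    have h4 : lam • N + rk hs.herm a a + S = S₀ + S := by rw [hS, hm, one_smul]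
    rw [h4] at h2
    obtain ⟨k, hk⟩ := (six_iff (hcmp 0).1 hYY).2 h2
    exact h1 ((six_iff hNN hYY).1 ⟨k, (hcmp _).2.1 hk⟩)
  obtain hc | ⟨hl, hm, ha0, hτ⟩ | ⟨hτ, hm, hl⟩ := cases_scal hs hj hN.1 hL.1 hI ha hVa hS hS0 hcube
  · rw [hf, hc]
  · exfalso
    obtain ⟨u, hu, v, hv, Y, S, huu, huv, hvv, hva, hYY, hYA, hY, hLY, hSA, hUS, hSa, hAB, hA2,
      hcmp⟩ := data hs hj hF hO hL hI ha hVa ha0 hU₀ hS hf
    have hva' := hva hτ
    obtain ⟨T, hT⟩ : ∃ T, T = (S₀ + S) * Y := ⟨_, rfl⟩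
    have hTw : ∀ w, T w = N (Y w) + (mu * h (Y w) a) • a + S (Y w) := by
      intro w
      rw [hT, hS, hl, one_smul]
      show N (Y w) + mu • (h (Y w) a • a) + S (Y w) = _
      rw [smul_smul]
    have hau : h a (L u) = 1 := by rw [← hL.1.2, hs.comm, ← hva']; exact huv
    have hBu : N (Y u) = a := by
      rw [hY u hu, huu, huv, one_smul, one_smul, hva', aav K, zero_add]
    have hBa : N (Y a) = a + u := by
      rw [hY a ha, hau, one_smul, hva', hτ, zero_smul, add_zero]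
    have hSu : S (L u) = 0 := by
      have h1 := hAB a ha
      rw [hBa, hSa, map_add, map_add, hSa, zero_add, map_zero, map_zero] at h1
      exact h1
    have hTu : T u = v := by
      rw [hTw, hva', hBu]
      have e1 : Y u = L a := by rw [← hLY, hBu]
      rw [e1, hSa, hs.comm, hτ, mul_zero, zero_smul, add_zero, add_zero]
    have hTv : T v = u + (1 + mu) • v := by
      rw [hTw, hva', hBa]
      have e1 : Y a = L a + L u := by rw [← hLY, hBa, map_add]
      have e2 : h (L a + L u) a = 1 := by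
        rw [hs.add, hs.comm, hτ, zero_add, hs.comm, hau]
      rw [e1, e2, map_add, hSa, hSu, mul_one, add_zero, add_zero, add_smul, one_smul]
      abel
    have hli : ∀ c d : K, c • u + d • v = 0 → c = 0 ∧ d = 0 := by
      intro c d hcd
      have h1 : h (c • u + d • v) (L a) = 0 := by rw [hcd, hs.zero_left]
      rw [hs.add, hs.smul, hs.smul, ← hva', huv, hvv, mul_zero, add_zero, mul_one] at h1
      refine ⟨h1, ?_⟩
      rw [h1, zero_smul, zero_add] at hcd
      rcases smul_eq_zero.1 hcd with h2 | h2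
      · exact h2
      · exact absurd (hva' ▸ h2) ha0
    have h30 : ((1 + (S₀ + S)) * (1 + Y)) ^ 30 = 1 := by
      have h4 := fourth hs hL.1.2 hu hv huu huv hvv hY
      have h5 := thirty_of hNN hYY h4 (fourth' hs hN.1.2 hYA h4)
      exact (hcmp 15).2.2 h5
    have h31 := thirty_eq (hcmp 0).1 hYY h30
    rw [← hT] at h31
    have h32 : ∀ w, ((T ^ 5 + T ^ 3 + T) ^ 3 + (T ^ 5 + T ^ 3 + T)) (T w) = 0 := by
      intro w
      have h6 := LinearMap.congr_fun h31 (Y w)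
      have h7 : T w = (S₀ + S) (Y w) := by rw [hT]; rfl
      rw [h7]
      exact h6
    rcases block_alg hTu hTv hli (h32 u) (h32 v) with h6 | h6
    · have hm1 : mu = 1 := (eq_of_addK h6).symm
      exact hcon u hu v hv Y S hm1 (Or.inl ⟨hτ, hl, hva'⟩) huu huv hvv hYY hY hLY hSA hUS hSa hAB
        hA2 hcmp
    · exact hm (by linear_combination h6)
  · exfalso
    have ha0 : a ≠ 0 := by
      rintro rfl
      rw [hs.zero_left] at hτ
      exact zero_ne_one hτ
    obtain ⟨u, hu, v, hv, Y, S, huu, huv, hvv, hva, hYY, hYA, hY, hLY, hSA, hUS, hSa, hAB, hA2,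
      hcmp⟩ := data hs hj hF hO hL hI ha hVa ha0 hU₀ hS hf
    exact hcon u hu v hv Y S hm (Or.inr ⟨hτ, hl⟩) huu huv hvv hYY hY hLY hSA hUS hSa hAB hA2 hcmp

end Pool.Agent.Helper2.SP
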